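import Mathlib

set_option autoImplicit false

/-!
The club filter on a well-order of type omega one, with normality.
-/

namespace Pool.Agent.MP_71094f_lc

open Filter Set

/-- A well-order of type omega one. -/
class OmOne (Ω : Type) [LinearOrder Ω] : Prop where
  wf : WellFounded ((· < ·) : Ω → Ω → Prop)
  cnt : ∀ a : Ω, (Iic a).Countable
  unc : ¬ (univ : Set Ω).Countable

variable {Ω : Type} [LinearOrder Ω] [hΩ : OmOne Ω]

include hΩ in
lemma exists_ub_of_countable {s : Set Ω} (hs : s.Countable) : ∃ b : Ω, ∀ a ∈ s, a < b := by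
  by_contra h
  push Not at h
  apply hΩ.unc
  have : (univ : Set Ω) ⊆ ⋃ a ∈ s, Iic a := by
    intro b _
    obtain ⟨a, ha, hb⟩ := h b
    exact mem_biUnion ha hb
  exact (hs.biUnion fun a _ => hΩ.cnt a).mono this

/-- Closure points of a function. -/
def Clo (g : Ω → Ω) : Set Ω := {w | (∃ v, v < w) ∧ ∀ v, v < w → g v < w}

include hΩ in
lemma exists_clo (g : Ω → Ω) (a : Ω) : ∃ w, a < w ∧ w ∈ Clo g := by
  have h1 : ∀ v : Ω, ∃ b, v < b ∧ ∀ u, u ≤ v → g u < b := by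
    intro v
    obtain ⟨b, hb⟩ := exists_ub_of_countable (((hΩ.cnt v).image g).insert v)
    exact ⟨b, hb v (mem_insert _ _), fun u hu => hb _ (mem_insert_of_mem _ ⟨u, hu, rfl⟩)⟩
  choose h hh1 hh2 using h1
  let s : ℕ → Ω := fun n => h^[n] a
  have hs : ∀ n, s (n + 1) = h (s n) := fun n => Function.iterate_succ_apply' h n a
  obtain ⟨b, hb⟩ := exists_ub_of_countable (countable_range s)
  let T : Set Ω := {b | ∀ n, s n < b}
  have hT : T.Nonempty := ⟨b, fun n => hb _ ⟨n, rfl⟩⟩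
  have hw := hΩ.wf.min_mem T hT
  refine ⟨hΩ.wf.min T hT, hw 0, ⟨a, hw 0⟩, fun v hv => ?_⟩
  have : v ∉ T := fun hvT => hΩ.wf.not_lt_min T hvT hv
  simp only [T, mem_setOf_eq, not_forall, not_lt] at this
  obtain ⟨n, hn⟩ := this
  have := hh2 (s n) v hn
  rw [← hs] at this
  exact this.trans (hw _)

/-- The club filter. -/
def club (Ω : Type) [LinearOrder Ω] [OmOne Ω] : Filter Ω where
  sets := {X | ∃ g : Ω → Ω, Clo g ⊆ X}
  univ_sets := ⟨id, subset_univ _⟩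
  sets_of_superset := fun ⟨g, hg⟩ h => ⟨g, hg.trans h⟩
  inter_sets := by
    rintro X Y ⟨g, hg⟩ ⟨g', hg'⟩
    refine ⟨fun v => max (g v) (g' v), fun w hw => ⟨hg ⟨hw.1, fun v hv => ?_⟩, hg' ⟨hw.1, fun v hv => ?_⟩⟩⟩
    · exact (le_max_left _ _).trans_lt (hw.2 v hv)
    · exact (le_max_right _ _).trans_lt (hw.2 v hv)

lemma eventually_club {P : Ω → Prop} : (∀ᶠ w in club Ω, P w) ↔ ∃ g : Ω → Ω, ∀ w ∈ Clo g, P w :=
  Iff.rfl

lemma club_gt (a : Ω) : ∀ᶠ w in club Ω, a < w :=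
  eventually_club.mpr ⟨fun _ => a, fun _ hw => by obtain ⟨v, hv⟩ := hw.1; exact hw.2 v hv⟩

lemma club_diag {P : Ω → Ω → Prop} (h : ∀ η, ∀ᶠ w in club Ω, P η w) :
    ∀ᶠ w in club Ω, ∀ η, η < w → P η w := by
  choose g hg using fun η => eventually_club.mp (h η)
  have h1 : ∀ v : Ω, ∃ b, ∀ η u, η ≤ v → u ≤ v → g η u < b := by
    intro v
    obtain ⟨b, hb⟩ := exists_ub_of_countable
      (((hΩ.cnt v).prod (hΩ.cnt v)).image fun p : Ω × Ω => g p.1 p.2)
    exact ⟨b, fun η u h1 h2 => hb _ ⟨(η, u), ⟨h1, h2⟩, rfl⟩⟩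
  choose G hG using h1
  refine eventually_club.mpr ⟨G, fun w hw η hη => hg η w ⟨hw.1, fun u hu => ?_⟩⟩
  exact (hG (max η u) η u (le_max_left _ _) (le_max_right _ _)).trans (hw.2 _ (max_lt hη hu))

lemma club_countable {ι : Type*} {s : Set ι} (hs : s.Countable) {P : ι → Ω → Prop}
    (h : ∀ i ∈ s, ∀ᶠ w in club Ω, P i w) : ∀ᶠ w in club Ω, ∀ i ∈ s, P i w := by
  classical
  have h' : ∀ i, ∃ g : Ω → Ω, i ∈ s → ∀ w ∈ Clo g, P i w := by
    intro i
    by_cases hi : i ∈ s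
    · obtain ⟨g, hg⟩ := eventually_club.mp (h i hi)
      exact ⟨g, fun _ => hg⟩
    · exact ⟨id, fun h => absurd h hi⟩
  choose g hg using h'
  have h1 : ∀ v : Ω, ∃ b, ∀ i ∈ s, g i v < b := by
    intro v
    obtain ⟨b, hb⟩ := exists_ub_of_countable (hs.image fun i => g i v)
    exact ⟨b, fun i hi => hb _ ⟨i, hi, rfl⟩⟩
  choose G hG using h1
  exact eventually_club.mpr ⟨G, fun w hw i hi => hg i hi w ⟨hw.1, fun v hv =>
    (hG v i hi).trans (hw.2 v hv)⟩⟩

lemma frequently_club_exists {P : Ω → Prop} (h : ∃ᶠ w in club Ω, P w) (a : Ω) :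
    ∃ w, a < w ∧ P w := by
  obtain ⟨w, hw⟩ := (h.and_eventually (club_gt a)).exists
  exact ⟨w, hw.2, hw.1⟩

lemma club_neBot [Nonempty Ω] : (club Ω).NeBot := by
  refine ⟨fun h => ?_⟩
  have : (∅ : Set Ω) ∈ club Ω := by rw [h]; exact mem_bot
  obtain ⟨g, hg⟩ := this
  obtain ⟨w, -, hw⟩ := exists_clo g (Classical.arbitrary Ω)
  exact hg hw

/-- Pressing down with countably many values below each bound. -/
lemma club_fodor {A : Type*} (Bd : A → Ω → Prop) (hBd : ∀ η, {a | Bd a η}.Countable)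
    {P : A → Ω → Prop} (h : ∃ᶠ w in club Ω, ∃ η, η < w ∧ ∃ a, Bd a η ∧ P a w) :
    ∃ η a, Bd a η ∧ ∃ᶠ w in club Ω, P a w := by
  by_contra hcon
  push Not at hcon
  apply h
  have h1 : ∀ η, ∀ᶠ w in club Ω, ∀ a ∈ {a | Bd a η}, ¬ P a w := by
    intro η
    refine club_countable (hBd η) fun a ha => ?_
    have := hcon η a ha
    simpa [Filter.Frequently] using this
  filter_upwards [club_diag h1] with w hw
  rintro ⟨η, hη, a, ha, hP⟩
  exact hw η hη a ha hP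

end Pool.Agent.MP_71094f_lc
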