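import Mathlib
import Pool.Agent.MP_71094f_lc.Club

set_option autoImplicit false

/-!
Towers of ultrafilters on omega one, built by recursion on the apex.
-/

namespace Pool.Agent.MP_71094f_lc

open Filter Set

variable {Ω : Type}

/-- First the lower point, then the middle point. -/
def LM (B : Ω → Ω → Ω → Prop) (U V : Ultrafilter Ω) (y : Ω) : Prop :=
  ∀ᶠ x in (U : Filter Ω), ∀ᶠ z in (V : Filter Ω), B x z y

/-- First the middle point, then the lower point. -/
def ML (B : Ω → Ω → Ω → Prop) (U V : Ultrafilter Ω) (y : Ω) : Prop :=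
  ∀ᶠ z in (V : Filter Ω), ∀ᶠ x in (U : Filter Ω), B x z y

lemma eventually_ubind {α β : Type} (f : Ultrafilter α) (m : α → Ultrafilter β) (p : β → Prop) :
    (∀ᶠ y in (f.bind m : Filter β), p y) ↔ ∀ᶠ x in (f : Filter α), ∀ᶠ y in (m x : Filter β), p y :=
  Iff.rfl

lemma ubind_congr {α β : Type} (f : Ultrafilter α) (m m' : α → Ultrafilter β)
    (h : ∀ᶠ x in (f : Filter α), m x = m' x) : f.bind m = f.bind m' := by
  apply Ultrafilter.coe_injective
  ext s
  change (∀ᶠ y in (f.bind m : Filter β), y ∈ s) ↔ (∀ᶠ y in (f.bind m' : Filter β), y ∈ s)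
  rw [eventually_ubind, eventually_ubind]
  exact eventually_congr (h.mono fun x hx => by rw [hx])

/-- Node types: good levels, and raw levels over a failure code. -/
abbrev Ty (Ω : Type) := ℕ ⊕ (Ω × ℕ × ℕ)

/-- Parameters. -/
abbrev Par (Ω : Type) := Ty Ω × Ω

/-- Formula indices. -/
abbrev Ix (Ω : Type) := Bool × Par Ω × Par Ω

/-- Failure codes. -/
abbrev Cd (Ω : Type) := ℕ × Finset (Ix Ω × Bool) × Finset (Par Ω) × Ω

/-- Finite requirements. -/
abbrev Rq (Ω : Type) := Finset (Ix Ω) × Finset (Par Ω) × Ω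

variable [LinearOrder Ω]

/-- The ordinal bound of a parameter. -/
def key : Par Ω → Ω
  | (Sum.inl _, v) => v
  | (Sum.inr q, v) => max q.1 v

lemma le_key (p : Par Ω) : p.2 ≤ key p := by
  rcases p with ⟨_ | q, v⟩
  · exact le_rfl
  · exact le_max_right _ _

/-- The ordinal bound of a formula index. -/
def keyI (i : Ix Ω) : Ω := max (key i.2.1) (key i.2.2)

/-- Bounded failure codes. -/
def Bd (a : Cd Ω) (η : Ω) : Prop :=
  (∀ i ∈ a.2.1, keyI i.1 ≤ η) ∧ (∀ p ∈ a.2.2.1, key p ≤ η) ∧ a.2.2.2 ≤ η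

lemma countable_key [hΩ : OmOne Ω] (η : Ω) : {p : Par Ω | key p ≤ η}.Countable := by
  have h1 : (range (Sum.inl : ℕ → Ty Ω) ∪
      Sum.inr '' (Iic η ×ˢ (univ : Set (ℕ × ℕ)))).Countable :=
    (countable_range _).union (((hΩ.cnt η).prod countable_univ).image _)
  refine (h1.prod (hΩ.cnt η)).mono ?_
  rintro ⟨n | q, v⟩ hp
  · exact ⟨Or.inl ⟨n, rfl⟩, hp⟩
  · exact ⟨Or.inr ⟨q, ⟨(le_max_left _ _).trans hp, trivial⟩, rfl⟩, (le_max_right _ _).trans hp⟩

lemma countable_finset_subset {α : Type} {s : Set α} (hs : s.Countable) :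
    {t : Finset α | ∀ i ∈ t, i ∈ s}.Countable := by
  have := (countable_ofPred_finite_subset hs).preimage_of_injOn
    (f := fun t : Finset α => (t : Set α)) Finset.coe_injective.injOn
  refine this.mono fun t ht => ?_
  exact And.intro t.finite_toSet fun i hi => ht i hi

lemma countable_Bd [hΩ : OmOne Ω] (η : Ω) : {a : Cd Ω | Bd a η}.Countable := by
  have h1 : {i : Ix Ω × Bool | keyI i.1 ≤ η}.Countable := by
    refine ((((countable_univ : (univ : Set Bool).Countable)).prod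
      ((countable_key η).prod (countable_key η))).prod
      (countable_univ : (univ : Set Bool).Countable)).mono ?_
    rintro ⟨⟨b, p, q⟩, c⟩ h
    exact ⟨⟨trivial, (le_max_left _ _).trans h, (le_max_right _ _).trans h⟩, trivial⟩
  refine ((countable_univ : (univ : Set ℕ).Countable).prod ((countable_finset_subset h1).prod
    ((countable_finset_subset (countable_key η)).prod (hΩ.cnt η)))).mono ?_
  rintro ⟨n, J, P, e⟩ h
  exact ⟨trivial, h.1, h.2.1, h.2.2⟩

lemma exists_enum [OmOne Ω] (η : Ω) : ∃ e : ℕ → Cd Ω, ∀ a, Bd a η → ∃ j, e j = a := by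
  obtain ⟨e, he⟩ := (countable_Bd η).exists_eq_range
    ⟨(0, ∅, ∅, η), by simp [Bd]⟩
  exact ⟨e, fun a ha => by have : a ∈ range e := he ▸ ha; exact this⟩

/-- An enumeration of the failure codes below each bound. -/
noncomputable def enum [OmOne Ω] (η : Ω) : ℕ → Cd Ω := (exists_enum η).choose

lemma enum_surj [OmOne Ω] (η : Ω) (a : Cd Ω) (h : Bd a η) : ∃ j, enum η j = a :=
  (exists_enum η).choose_spec a h

/-- The data attached to each apex. -/
structure Dat (Ω : Type) where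
  U : Ty Ω → Ultrafilter Ω
  G : Ty Ω → Prop
  F : Cd Ω → Prop

variable [hΩ : OmOne Ω]

/-- The type of the children. -/
noncomputable def ch : Ty Ω → Ty Ω
  | Sum.inl n => Sum.inl (n - 1)
  | Sum.inr (η, j, 0) => Sum.inl (enum η j).1
  | Sum.inr (η, j, m + 1) => Sum.inr (η, j, m)

variable (B : Ω → Ω → Ω → Prop)

/-- The ultrafilter of a parameter. -/
def UP (g : Ω → Dat Ω) (p : Par Ω) : Ultrafilter Ω := (g p.2).U p.1

/-- The tracked formulas. -/
def Psi (g : Ω → Dat Ω) (i : Ix Ω) (y : Ω) : Prop :=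
  (i.1 = true → LM B (UP g i.2.1) (UP g i.2.2) y) ∧ (i.1 = false → ML B (UP g i.2.1) (UP g i.2.2) y)

/-- The extra condition on children. -/
def Ex (g : Ω → Dat Ω) : Ty Ω → Ω → Prop
  | Sum.inl _, _ => True
  | Sum.inr q, v => (g v).F (enum q.1 q.2.1)

/-- Tracked requirements. -/
def Tr (t : Rq Ω) (w : Ω) : Prop :=
  (∀ i ∈ t.1, keyI i < w) ∧ (∀ p ∈ t.2.1, key p < w) ∧ t.2.2 < w

/-- The set of children meeting a finite requirement. -/
def Nb (g : Ω → Dat Ω) (l : Ty Ω) (w : Ω) (t : Rq Ω) : Set Ω :=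
  {v | t.2.2 < v ∧ v < w ∧ (g v).G (ch l) ∧ Ex g l v ∧ (∀ i ∈ t.1, Psi B g i v ↔ Psi B g i w) ∧
    (l.isLeft = true → ∀ p ∈ t.2.1, ¬ ML B (UP g p) ((g v).U (ch l)) w)}

/-- A children ultrafilter meeting all tracked requirements. -/
def IsC (g : Ω → Dat Ω) (l : Ty Ω) (w : Ω) (C : Ultrafilter Ω) : Prop :=
  ∀ t, Tr t w → Nb B g l w t ∈ C

/-- Existence of a children ultrafilter. -/
def HasC (g : Ω → Dat Ω) (l : Ty Ω) (w : Ω) : Prop := (∃ v, v < w) ∧ ∃ C, IsC B g l w C

/-- The chosen children ultrafilter. -/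
noncomputable def Ch (g : Ω → Dat Ω) (l : Ty Ω) (w : Ω) : Ultrafilter Ω :=
  @Classical.epsilon _ ⟨pure w⟩ (IsC B g l w)

/-- Failure at an apex. -/
def Fail (g : Ω → Dat Ω) (a : Cd Ω) (w : Ω) : Prop :=
  (∀ i ∈ a.2.1, keyI i.1 < w) ∧ (∀ p ∈ a.2.2.1, key p < w) ∧
  (∀ i ∈ a.2.1, Psi B g i.1 w ↔ i.2 = true) ∧
  ∀ v, a.2.2.2 < v → v < w → (g v).G (Sum.inl a.1) → (∀ i ∈ a.2.1, Psi B g i.1 v ↔ i.2 = true) →
    ∃ p ∈ a.2.2.1, ML B (UP g p) ((g v).U (Sum.inl a.1)) w

open Classical in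
/-- The recursion step. -/
noncomputable def step (g : Ω → Dat Ω) (w : Ω) : Dat Ω where
  U := fun l => if l ≠ Sum.inl 0 ∧ HasC B g l w then (Ch B g l w).bind fun v => (g v).U (ch l)
    else pure w
  G := fun l => l = Sum.inl 0 ∨ HasC B g l w
  F := fun a => Fail B g a w

omit hΩ in
lemma UP_congr {g g' : Ω → Dat Ω} {w : Ω} (h : ∀ v, v < w → g v = g' v) {p : Par Ω}
    (hp : key p < w) : UP g p = UP g' p := by
  unfold UP; rw [h _ ((le_key p).trans_lt hp)]

omit hΩ in
lemma Psi_congr {g g' : Ω → Dat Ω} {w : Ω} (h : ∀ v, v < w → g v = g' v) {i : Ix Ω}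
    (hi : keyI i < w) (y : Ω) : Psi B g i y ↔ Psi B g' i y := by
  unfold Psi
  rw [UP_congr h ((le_max_left _ _).trans_lt hi), UP_congr h ((le_max_right _ _).trans_lt hi)]

lemma Nb_congr {g g' : Ω → Dat Ω} {w : Ω} (h : ∀ v, v < w → g v = g' v) (l : Ty Ω) {t : Rq Ω}
    (ht : Tr t w) : Nb B g l w t = Nb B g' l w t := by
  ext v
  simp only [Nb, mem_ofPred_eq]
  refine and_congr_right fun _ => and_congr_right fun hv => ?_
  rw [h v hv]
  refine and_congr_right fun _ => and_congr ?_ (and_congr ?_ ?_)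
  · cases l with
    | inl n => exact Iff.rfl
    | inr q => simp only [Ex, h v hv]
  · refine forall₂_congr fun i hi => ?_
    rw [Psi_congr B h (ht.1 i hi), Psi_congr B h (ht.1 i hi)]
  · refine forall_congr' fun _ => forall₂_congr fun p hp => ?_
    rw [UP_congr h (ht.2.1 p hp)]

lemma IsC_congr {g g' : Ω → Dat Ω} {w : Ω} (h : ∀ v, v < w → g v = g' v) (l : Ty Ω) :
    IsC B g l w = IsC B g' l w := by
  funext C
  exact propext (forall₂_congr fun t ht => by rw [Nb_congr B h l ht])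

lemma Ch_spec {g : Ω → Dat Ω} {l : Ty Ω} {w : Ω} (h : HasC B g l w) : IsC B g l w (Ch B g l w) :=
  Classical.epsilon_spec h.2

lemma Ch_lt {g : Ω → Dat Ω} {l : Ty Ω} {w : Ω} (h : HasC B g l w) :
    ∀ᶠ v in (Ch B g l w : Filter Ω), v < w := by
  obtain ⟨v, hv⟩ := h.1
  have := Ch_spec B h (∅, ∅, v) ⟨by simp, by simp, hv⟩
  exact mem_of_superset this fun u hu => hu.2.1

lemma step_congr {g g' : Ω → Dat Ω} {w : Ω} (h : ∀ v, v < w → g v = g' v) :
    step B g w = step B g' w := by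
  have h1 : ∀ l, HasC B g l w ↔ HasC B g' l w := fun l => by unfold HasC; rw [IsC_congr B h l]
  have h2 : ∀ l, Ch B g l w = Ch B g' l w := fun l => by unfold Ch; rw [IsC_congr B h l]
  unfold step
  congr 1
  · funext l
    by_cases hl : l ≠ Sum.inl 0 ∧ HasC B g l w
    · rw [if_pos hl, if_pos ⟨hl.1, (h1 l).mp hl.2⟩, ← h2]
      exact ubind_congr _ _ _ ((Ch_lt B hl.2).mono fun v hv => by rw [h v hv])
    · rw [if_neg hl, if_neg (fun h' => hl ⟨h'.1, (h1 l).mpr h'.2⟩)]
  · funext l; rw [h1]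
  · funext a
    apply propext
    unfold Fail
    refine and_congr_right fun hJ => and_congr_right fun hP => and_congr ?_ ?_
    · exact forall₂_congr fun i hi => by rw [Psi_congr B h (hJ i hi)]
    · refine forall₃_congr fun v _ hv => ?_
      rw [h v hv]
      refine forall_congr' fun _ => imp_congr ?_ ?_
      · exact forall₂_congr fun i hi => by rw [Psi_congr B h (hJ i hi)]
      · exact exists_congr fun p => and_congr_right fun hp => by rw [UP_congr h (hP p hp)]

open Classical in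
/-- The tower. -/
noncomputable def tower : Ω → Dat Ω :=
  hΩ.wf.fix fun w rec => step B
    (fun v => if h : v < w then rec v h else ⟨fun _ => pure w, fun _ => True, fun _ => True⟩) w

lemma tower_eq (w : Ω) : tower B w = step B (tower B) w := by
  unfold tower
  rw [WellFounded.fix_eq]
  exact step_congr B fun v hv => by rw [dif_pos hv]

end Pool.Agent.MP_71094f_lc
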