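import Mathlib
import Pool.Agent.MP_71094f_lc.Tower

set_option autoImplicit false

/-!
Properties of the tower.
-/

namespace Pool.Agent.MP_71094f_lc

open Filter Set

variable {Ω : Type} [LinearOrder Ω] [hΩ : OmOne Ω] (B : Ω → Ω → Ω → Prop)

/-- The point ultrafilter of a node. -/
noncomputable def TU (l : Ty Ω) (w : Ω) : Ultrafilter Ω := (tower B w).U l

/-- Goodness of a node. -/
def TG (l : Ty Ω) (w : Ω) : Prop := (tower B w).G l

/-- The children ultrafilter of a node. -/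
noncomputable def TC (l : Ty Ω) (w : Ω) : Ultrafilter Ω := Ch B (tower B) l w

/-- The tracked formulas of the tower. -/
def TP (i : Ix Ω) (y : Ω) : Prop := Psi B (tower B) i y

lemma TG_iff (l : Ty Ω) (w : Ω) : TG B l w ↔ l = Sum.inl 0 ∨ HasC B (tower B) l w := by
  unfold TG; rw [tower_eq]; rfl

lemma TG_zero (w : Ω) : TG B (Sum.inl 0) w := (TG_iff B _ w).mpr (Or.inl rfl)

lemma TG.hasC {l : Ty Ω} {w : Ω} (h : TG B l w) (hl : l ≠ Sum.inl 0) : HasC B (tower B) l w :=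
  ((TG_iff B l w).mp h).resolve_left hl

lemma TU_cases (l : Ty Ω) (w : Ω) : TU B l w = pure w ∨
    (HasC B (tower B) l w ∧ TU B l w = (TC B l w).bind fun v => TU B (ch l) v) := by
  by_cases h : l ≠ Sum.inl 0 ∧ HasC B (tower B) l w
  · right
    refine ⟨h.2, ?_⟩
    unfold TU; rw [tower_eq]; exact if_pos h
  · left
    unfold TU; rw [tower_eq]; exact if_neg h

lemma TU_neg (l : Ty Ω) (w : Ω) (h : ¬ (l ≠ Sum.inl 0 ∧ HasC B (tower B) l w)) :
    TU B l w = pure w := by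
  unfold TU; rw [tower_eq]; exact if_neg h

lemma TU_zero (w : Ω) : TU B (Sum.inl 0) w = pure w := TU_neg B _ w fun h => h.1 rfl

lemma TU_bind {l : Ty Ω} {w : Ω} (h : TG B l w) (hl : l ≠ Sum.inl 0) :
    TU B l w = (TC B l w).bind fun v => TU B (ch l) v := by
  unfold TU; rw [tower_eq]; exact if_pos ⟨hl, h.hasC B hl⟩

lemma TF_iff (a : Cd Ω) (w : Ω) : (tower B w).F a ↔ Fail B (tower B) a w := by
  rw [tower_eq]; rfl

variable {B}

lemma TC_lt {l : Ty Ω} {w : Ω} (h : HasC B (tower B) l w) :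
    ∀ᶠ v in (TC B l w : Filter Ω), v < w := Ch_lt B h

lemma TC_gt {l : Ty Ω} {w : Ω} (h : HasC B (tower B) l w) {η : Ω} (hη : η < w) :
    ∀ᶠ v in (TC B l w : Filter Ω), η < v :=
  mem_of_superset (Ch_spec B h (∅, ∅, η) ⟨by simp, by simp, hη⟩) fun _ hu => hu.1

lemma TC_G {l : Ty Ω} {w : Ω} (h : HasC B (tower B) l w) :
    ∀ᶠ v in (TC B l w : Filter Ω), TG B (ch l) v ∧ Ex (tower B) l v := by
  obtain ⟨η, hη⟩ := h.1
  exact mem_of_superset (Ch_spec B h (∅, ∅, η) ⟨by simp, by simp, hη⟩)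
    fun _ hu => ⟨hu.2.2.1, hu.2.2.2.1⟩

lemma TC_faith {l : Ty Ω} {w : Ω} (h : HasC B (tower B) l w) {i : Ix Ω} (hi : keyI i < w) :
    ∀ᶠ v in (TC B l w : Filter Ω), (TP B i v ↔ TP B i w) :=
  mem_of_superset (Ch_spec B h ({i}, ∅, keyI i) ⟨by simpa using hi, by simp, hi⟩)
    fun _ hu => hu.2.2.2.2.1 i (Finset.mem_singleton_self i)

lemma TC_av {n : ℕ} {w : Ω} (h : HasC B (tower B) (Sum.inl n) w) {p : Par Ω} (hp : key p < w) :
    ∀ᶠ v in (TC B (Sum.inl n) w : Filter Ω),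
      ¬ ML B (TU B p.1 p.2) (TU B (ch (Sum.inl n)) v) w :=
  mem_of_superset (Ch_spec B h (∅, {p}, key p) ⟨by simp, by simpa using hp, hp⟩)
    fun _ hu => hu.2.2.2.2.2 rfl p (Finset.mem_singleton_self p)

lemma TU_le (w : Ω) : ∀ l : Ty Ω, ∀ᶠ x in (TU B l w : Filter Ω), x ≤ w := by
  induction w using hΩ.wf.induction with
  | _ w ih =>
  intro l
  rcases TU_cases B l w with h | ⟨h, h'⟩
  · rw [h]; simp
  · rw [h', eventually_ubind]
    filter_upwards [TC_lt h] with v hv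
    exact (ih v hv _).mono fun x hx => hx.trans hv.le

lemma TU_lt {l : Ty Ω} {w : Ω} (h : TG B l w) (hl : l ≠ Sum.inl 0) :
    ∀ᶠ x in (TU B l w : Filter Ω), x < w := by
  rw [TU_bind B h hl, eventually_ubind]
  filter_upwards [TC_lt (h.hasC B hl)] with v hv
  exact (TU_le v _).mono fun x hx => hx.trans_lt hv

lemma TU_gt {η : Ω} (w : Ω) : η < w → ∀ l : Ty Ω, ∀ᶠ x in (TU B l w : Filter Ω), η < x := by
  induction w using hΩ.wf.induction with
  | _ w ih =>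
  intro hη l
  rcases TU_cases B l w with h | ⟨h, h'⟩
  · rw [h]; simpa using hη
  · rw [h', eventually_ubind]
    filter_upwards [TC_lt h, TC_gt h hη] with v hv hv'
    exact ih v hv hv' _

lemma TU_faith {i : Ix Ω} (w : Ω) : keyI i < w → ∀ l : Ty Ω,
    ∀ᶠ x in (TU B l w : Filter Ω), (TP B i x ↔ TP B i w) := by
  induction w using hΩ.wf.induction with
  | _ w ih =>
  intro hη l
  rcases TU_cases B l w with h | ⟨h, h'⟩
  · rw [h]; simp
  · rw [h', eventually_ubind]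
    filter_upwards [TC_lt h, TC_gt h hη, TC_faith h hη] with v hv hv' hv''
    exact (ih v hv hv' _).mono fun x hx => hx.trans hv''

lemma TG.not_ML {n : ℕ} {w : Ω} (h : TG B (Sum.inl (n + 1)) w) {p : Par Ω} (hp : key p < w) :
    ¬ ML B (TU B p.1 p.2) (TU B (Sum.inl (n + 1)) w) w := by
  have hl : (Sum.inl (n + 1) : Ty Ω) ≠ Sum.inl 0 := by simp
  unfold ML
  rw [TU_bind B h hl, eventually_ubind, ← Ultrafilter.eventually_not]
  exact TC_av (h.hasC B hl) hp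

lemma TP_true (p q : Par Ω) (y : Ω) :
    TP B (true, p, q) y ↔ LM B (TU B p.1 p.2) (TU B q.1 q.2) y := by
  simp [TP, Psi, UP, TU]

lemma TP_false (p q : Par Ω) (y : Ω) :
    TP B (false, p, q) y ↔ ML B (TU B p.1 p.2) (TU B q.1 q.2) y := by
  simp [TP, Psi, UP, TU]

omit hΩ in
lemma exists_bound {α : Type} (s : Finset α) (k : α → Ω) {w e : Ω} (he : e < w)
    (h : ∀ x ∈ s, k x < w) : ∃ η, η < w ∧ e ≤ η ∧ ∀ x ∈ s, k x ≤ η := by
  classical
  induction s using Finset.induction_on with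
  | empty => exact ⟨e, he, le_rfl, by simp⟩
  | insert a s _ ih =>
    obtain ⟨η, h1, h2, h3⟩ := ih fun x hx => h x (Finset.mem_insert_of_mem hx)
    refine ⟨max η (k a), max_lt h1 (h a (Finset.mem_insert_self _ _)), h2.trans (le_max_left _ _),
      fun x hx => ?_⟩
    rcases Finset.mem_insert.mp hx with rfl | hx
    · exact le_max_right _ _
    · exact (h3 x hx).trans (le_max_left _ _)

lemma hasC_of_nonempty (g : Ω → Dat Ω) (l : Ty Ω) (w : Ω) (h0 : ∃ v, v < w)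
    (h : ∀ t, Tr t w → (Nb B g l w t).Nonempty) : HasC B g l w := by
  classical
  refine ⟨h0, ?_⟩
  have : Nonempty Ω := ⟨w⟩
  have hne : NeBot (⨅ t : {t : Rq Ω // Tr t w}, 𝓟 (Nb B g l w t.1)) := by
    refine iInf_neBot_of_directed ?_ fun t => principal_neBot_iff.mpr (h t.1 t.2)
    rintro ⟨t, ht⟩ ⟨t', ht'⟩
    refine ⟨⟨(t.1 ∪ t'.1, t.2.1 ∪ t'.2.1, max t.2.2 t'.2.2), ?_, ?_, max_lt ht.2.2 ht'.2.2⟩, ?_, ?_⟩
    · intro i hi
      rcases Finset.mem_union.mp hi with hi | hi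
      exacts [ht.1 i hi, ht'.1 i hi]
    · intro i hi
      rcases Finset.mem_union.mp hi with hi | hi
      exacts [ht.2.1 i hi, ht'.2.1 i hi]
    · refine principal_mono.mpr fun v hv => ⟨(le_max_left _ _).trans_lt hv.1, hv.2.1, hv.2.2.1,
        hv.2.2.2.1, fun i hi => hv.2.2.2.2.1 i (Finset.mem_union_left _ hi),
        fun hl p hp => hv.2.2.2.2.2 hl p (Finset.mem_union_left _ hp)⟩
    · refine principal_mono.mpr fun v hv => ⟨(le_max_right _ _).trans_lt hv.1, hv.2.1, hv.2.2.1,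
        hv.2.2.2.1, fun i hi => hv.2.2.2.2.1 i (Finset.mem_union_right _ hi),
        fun hl p hp => hv.2.2.2.2.2 hl p (Finset.mem_union_right _ hp)⟩
  obtain ⟨C, hC⟩ := Ultrafilter.exists_le (⨅ t : {t : Rq Ω // Tr t w}, 𝓟 (Nb B g l w t.1))
  exact ⟨C, fun t ht => hC (mem_iInf_of_mem ⟨t, ht⟩ (mem_principal_self _))⟩

/-- The pressing-down dichotomy. -/
lemma dichotomy (l : Ty Ω) (E : Ω → Prop) (hn : ∃ᶠ w in club Ω, E w ∧ ¬ TG B l w) :
    ∃ η, ∃ a : Cd Ω, Bd a η ∧ ∃ᶠ w in club Ω, E w ∧ (∀ i ∈ a.2.1, TP B i.1 w ↔ i.2 = true) ∧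
      ∀ v, a.2.2.2 < v → v < w → TG B (ch l) v → Ex (tower B) l v →
        (∀ i ∈ a.2.1, TP B i.1 v ↔ i.2 = true) →
        l.isLeft = true ∧ ∃ p ∈ a.2.2.1, ML B (TU B p.1 p.2) (TU B (ch l) v) w := by
  classical
  refine club_fodor Bd countable_Bd ?_
  obtain ⟨w0, -⟩ := hn.exists
  refine (hn.and_eventually (club_gt w0)).mono ?_
  rintro w ⟨⟨hE, hG⟩, hw0⟩
  have h1 : ¬ ∀ t, Tr t w → (Nb B (tower B) l w t).Nonempty := fun h =>
    hG ((TG_iff B l w).mpr (Or.inr (hasC_of_nonempty _ l w ⟨w0, hw0⟩ h)))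
  push Not at h1
  obtain ⟨t, ht, hemp⟩ := h1
  obtain ⟨η1, h1, h2, h3⟩ := exists_bound t.1 keyI ht.2.2 ht.1
  obtain ⟨η, h4, h5, h6⟩ := exists_bound t.2.1 key h1 ht.2.1
  refine ⟨η, h4, (0, t.1.image fun i => (i, decide (TP B i w)), t.2.1, t.2.2),
    ⟨?_, h6, h2.trans h5⟩, hE, ?_, ?_⟩
  · intro i hi
    obtain ⟨j, hj, rfl⟩ := Finset.mem_image.mp hi
    exact (h3 j hj).trans h5
  · intro i hi
    obtain ⟨j, hj, rfl⟩ := Finset.mem_image.mp hi
    simp
  · intro v hv1 hv2 hv3 hv4 hv5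
    by_contra hcon
    have : v ∈ Nb B (tower B) l w t := by
      refine ⟨hv1, hv2, hv3, hv4, fun i hi => ?_, fun hl p hp hML => hcon ⟨hl, p, hp, hML⟩⟩
      have := hv5 (i, decide (TP B i w)) (Finset.mem_image_of_mem _ hi)
      simpa [TP] using this
    rw [hemp] at this
    exact this

/-- Raw levels exist almost everywhere on the failure set. -/
lemma raw_good (η : Ω) (j : ℕ) (E : Ω → Prop)
    (hE : ∀ w, E w → TG B (Sum.inl (enum η j).1) w ∧ (tower B w).F (enum η j)) (m : ℕ) :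
    ∀ᶠ w in club Ω, E w → TG B (Sum.inr (η, j, m)) w := by
  have key : ∀ m, (∀ᶠ w in club Ω, E w → TG B (ch (Sum.inr (η, j, m))) w) →
      ∀ᶠ w in club Ω, E w → TG B (Sum.inr (η, j, m)) w := by
    intro m hm
    by_contra hcon
    have h1 : ∃ᶠ w in club Ω, (E w ∧ TG B (ch (Sum.inr (η, j, m))) w) ∧
        ¬ TG B (Sum.inr (η, j, m)) w := by
      rw [not_eventually] at hcon
      refine (hcon.and_eventually hm).mono fun w hw => ?_
      obtain ⟨h1, h2⟩ := hw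
      push Not at h1
      exact ⟨⟨h1.1, h2 h1.1⟩, h1.2⟩
    obtain ⟨_, a, -, ha⟩ := dichotomy _ _ h1
    obtain ⟨v, hv, hv'⟩ := frequently_club_exists ha a.2.2.2
    obtain ⟨w, hw, hw'⟩ := frequently_club_exists ha v
    have := (hw'.2.2 v hv hw hv'.1.2 (hE v hv'.1.1).2 hv'.2.1).1
    simp at this
  induction m with
  | zero => exact key 0 (Eventually.of_forall fun w hw => (hE w hw).1)
  | succ m ih => exact key (m + 1) ih

/-- Either all good levels exist almost everywhere, or there is a failure code. -/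
lemma good_or_fail : (∀ n, ∀ᶠ w in club Ω, TG B (Sum.inl n) w) ∨
    ∃ η j, Bd (enum η j) η ∧ ∃ᶠ w in club Ω,
      TG B (Sum.inl (enum η j).1) w ∧ (tower B w).F (enum η j) := by
  rw [or_iff_not_imp_right]
  intro hcon n
  induction n with
  | zero => exact Eventually.of_forall fun w => TG_zero B w
  | succ n ih =>
    by_contra h
    have h1 : ∃ᶠ w in club Ω, TG B (Sum.inl n) w ∧ ¬ TG B (Sum.inl (n + 1)) w := by
      rw [not_eventually] at h
      exact (h.and_eventually ih).mono fun w hw => ⟨hw.2, hw.1⟩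
    obtain ⟨η, a, hb, ha⟩ := dichotomy _ _ h1
    have hb' : Bd ((n, a.2) : Cd Ω) η := hb
    obtain ⟨j, hj⟩ := enum_surj η _ hb'
    refine hcon ⟨η, j, hj ▸ hb', ?_⟩
    rw [hj]
    refine (ha.and_eventually (club_gt η)).mono ?_
    rintro w ⟨⟨h2, h3, h4⟩, h5⟩
    refine ⟨h2, (TF_iff B _ w).mpr ⟨fun i hi => (hb.1 i hi).trans_lt h5,
      fun p hp => (hb.2.1 p hp).trans_lt h5, h3, fun v hv1 hv2 hv3 hv4 => ?_⟩⟩
    exact (h4 v hv1 hv2 hv3 trivial hv4).2

end Pool.Agent.MP_71094f_lc
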