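import Mathlib

set_option autoImplicit false

/-!
Selection lemma: from an invariant system of three-token relations on an abstract tree of filters,
select a copy of a well-founded shape on which all position-increasing triples are related.
-/

namespace Pool.Agent.MP_71094f_lc

open Filter

/-- Well-founded shapes with infinite branching. -/
inductive Shape : Type
  | leaf : Shape
  | node : (ℕ → Shape) → Shape

/-- The subshape at an address. -/
def Shape.sub : Shape → List ℕ → Option Shape
  | σ, [] => some σ
  | Shape.leaf, _ :: _ => none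
  | Shape.node ch, n :: l => (ch n).sub l

lemma Shape.sub_append_singleton (σ : Shape) (s : List ℕ) (k : ℕ) (τ : Shape)
    (h : σ.sub (s ++ [k]) = some τ) : ∃ ch, σ.sub s = some (Shape.node ch) ∧ τ = ch k := by
  induction s generalizing σ with
  | nil =>
    cases σ with
    | leaf => simp [Shape.sub] at h
    | node ch =>
      simp only [List.nil_append, Shape.sub, Option.some.injEq] at h
      exact ⟨ch, rfl, h.symm⟩
  | cons n s ih =>
    cases σ with
    | leaf => simp [Shape.sub] at h
    | node ch => exact ih (ch n) h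

/-- Positional order: lexicographic, with a node above all its descendants. -/
def prec : List ℕ → List ℕ → Prop
  | [], _ => False
  | _ :: _, [] => True
  | x :: a, y :: b => x < y ∨ (x = y ∧ prec a b)

lemma prec_irrefl (a : List ℕ) : ¬ prec a a := by
  induction a with
  | nil => simp [prec]
  | cons x a ih => simp [prec, ih]

lemma prec_trans {a b c : List ℕ} (h1 : prec a b) (h2 : prec b c) : prec a c := by
  induction a generalizing b c with
  | nil => simp [prec] at h1
  | cons x a ih =>
    cases b with
    | nil => simp [prec] at h2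
    | cons y b =>
      cases c with
      | nil => simp [prec]
      | cons z c =>
        simp only [prec] at *
        rcases h1 with h1 | ⟨rfl, h1⟩
        · rcases h2 with h2 | ⟨rfl, _⟩
          · exact Or.inl (lt_trans h1 h2)
          · exact Or.inl h1
        · rcases h2 with h2 | ⟨rfl, h2⟩
          · exact Or.inl h2
          · exact Or.inr ⟨rfl, ih h1 h2⟩

lemma prec_trichotomy (a b : List ℕ) : prec a b ∨ a = b ∨ prec b a := by
  induction a generalizing b with
  | nil => cases b <;> simp [prec]
  | cons x a ih =>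
    cases b with
    | nil => simp [prec]
    | cons y b =>
      simp only [prec, List.cons.injEq]
      rcases lt_trichotomy x y with h | rfl | h
      · exact Or.inl (Or.inl h)
      · rcases ih b with h | h | h
        · exact Or.inl (Or.inr ⟨rfl, h⟩)
        · exact Or.inr (Or.inl ⟨rfl, h⟩)
        · exact Or.inr (Or.inr (Or.inr ⟨rfl, h⟩))
      · exact Or.inr (Or.inr (Or.inl h))

lemma prec_child_iff (s : List ℕ) (k : ℕ) (a : List ℕ)
    (h : ∀ m l, k ≤ m → a ≠ s ++ m :: l) : prec a (s ++ [k]) ↔ prec a s := by
  induction s generalizing a with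
  | nil =>
    cases a with
    | nil => simp [prec]
    | cons x a =>
      have hx : x < k := by
        by_contra hx
        exact h x a (not_lt.mp hx) rfl
      simp [prec, hx]
  | cons y s ih =>
    cases a with
    | nil => simp [prec]
    | cons x a =>
      simp only [List.cons_append, prec]
      by_cases hxy : x = y
      · subst hxy
        rw [ih a (fun m l hm hal => h m l hm (by rw [hal]; rfl))]
      · simp [hxy]

/-- An injective code in which parents and left siblings come first. -/
def code (a : List ℕ) : ℕ := a.foldl (fun c n => Nat.pair c n + 1) 0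

lemma code_nil : code [] = 0 := rfl

lemma code_snoc (s : List ℕ) (k : ℕ) : code (s ++ [k]) = Nat.pair (code s) k + 1 := by
  simp [code, List.foldl_append]

lemma code_injective : Function.Injective code := by
  intro a
  induction a using List.reverseRecOn with
  | nil =>
    intro b hb
    induction b using List.reverseRecOn with
    | nil => rfl
    | append_singleton t k _ => rw [code_nil, code_snoc] at hb; omega
  | append_singleton s k ih =>
    intro b hb
    induction b using List.reverseRecOn with
    | nil => rw [code_nil, code_snoc] at hb; omega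
    | append_singleton t m _ =>
      rw [code_snoc, code_snoc] at hb
      have := Nat.pair_eq_pair.mp (Nat.add_right_cancel hb)
      rw [ih this.1, this.2]

lemma code_le_append (s l : List ℕ) : code s ≤ code (s ++ l) := by
  induction l using List.reverseRecOn with
  | nil => simp
  | append_singleton t k ih =>
    rw [← List.append_assoc, code_snoc]
    have := Nat.left_le_pair (code (s ++ t)) k
    omega

lemma code_child_le (s : List ℕ) (k m : ℕ) (l : List ℕ) (h : k ≤ m) :
    code (s ++ [k]) ≤ code (s ++ m :: l) := by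
  have h1 : s ++ m :: l = (s ++ [m]) ++ l := by simp
  rw [h1]
  refine le_trans ?_ (code_le_append _ _)
  rw [code_snoc, code_snoc]
  rcases h.eq_or_lt with rfl | h
  · exact le_rfl
  · have := Nat.pair_lt_pair_right (code s) h
    omega

lemma code_lt_child (s : List ℕ) (k : ℕ) : code s < code (s ++ [k]) := by
  rw [code_snoc]
  have := Nat.left_le_pair (code s) k
  omega

/-- An invariant system for the three-token game. -/
structure Sys (X : Type*) where
  D : X → Filter X
  Fit : X → Shape → Prop
  R111 : X → X → X → Prop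
  R21 : X → X → Prop
  R12 : X → X → Prop
  R3 : X → Prop
  fit_ne : ∀ x ch, Fit x (Shape.node ch) → (D x).NeBot
  fit : ∀ x ch n, Fit x (Shape.node ch) → ∀ᶠ x' in D x, Fit x' (ch n)
  h111a : ∀ a b c, R111 a b c → ∀ᶠ a' in D a, R111 a' b c
  h111b : ∀ a b c, R111 a b c → ∀ᶠ b' in D b, R111 a b' c
  h111c : ∀ a b c, R111 a b c → ∀ᶠ c' in D c, R111 a b c'
  h21 : ∀ a c, R21 a c → ∀ᶠ a' in D a, R111 a' a c ∧ R21 a' c
  h21c : ∀ a c, R21 a c → ∀ᶠ c' in D c, R21 a c'
  h12a : ∀ a b, R12 a b → ∀ᶠ a' in D a, R12 a' b
  h12 : ∀ a b, R12 a b → ∀ᶠ b' in D b, R111 a b' b ∧ R12 a b'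
  h3 : ∀ a, R3 a → ∀ᶠ a' in D a, R12 a' a ∧ R21 a' a ∧ R3 a'

variable {X : Type*}

/-- The invariant after the addresses of code below `n` have been assigned. -/
structure Inv (S : Sys X) (σ : Shape) (g : List ℕ → X) (n : ℕ) : Prop where
  fit : ∀ a τ, code a < n → σ.sub a = some τ → S.Fit (g a) τ
  r3 : ∀ a, code a < n → (σ.sub a).isSome → S.R3 (g a)
  r21 : ∀ a c, code a < n → code c < n → (σ.sub a).isSome → (σ.sub c).isSome → prec a c →
    S.R21 (g a) (g c)
  r12 : ∀ a c, code a < n → code c < n → (σ.sub a).isSome → (σ.sub c).isSome → prec a c →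
    S.R12 (g a) (g c)
  r111 : ∀ a b c, code a < n → code b < n → code c < n → (σ.sub a).isSome → (σ.sub b).isSome →
    (σ.sub c).isSome → prec a b → prec b c → S.R111 (g a) (g b) (g c)

lemma finite_code_lt (n : ℕ) : {a : List ℕ | code a < n}.Finite :=
  (Set.finite_Iio n).preimage code_injective.injOn

lemma Inv.step (S : Sys X) (σ : Shape) (g : List ℕ → X) (n : ℕ) (hn : 0 < n)
    (h : Inv S σ g n) :
    ∃ g' : List ℕ → X, (∀ a, code a ≠ n → g' a = g a) ∧ Inv S σ g' (n + 1) := by
  classical
  by_cases hq : ∃ q, code q = n ∧ (σ.sub q).isSome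
  swap
  · refine ⟨g, fun _ _ => rfl, ?_⟩
    have key : ∀ a, code a < n + 1 → (σ.sub a).isSome → code a < n := by
      intro a ha hv
      rcases Nat.lt_succ_iff_lt_or_eq.mp ha with h1 | h1
      · exact h1
      · exact absurd ⟨a, h1, hv⟩ hq
    constructor
    · intro a τ ha hτ
      exact h.fit a τ (key a ha (by simp [hτ])) hτ
    · intro a ha hv; exact h.r3 a (key a ha hv) hv
    · intro a c ha hc hva hvc; exact h.r21 a c (key a ha hva) (key c hc hvc) hva hvc
    · intro a c ha hc hva hvc; exact h.r12 a c (key a ha hva) (key c hc hvc) hva hvc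
    · intro a b c ha hb hc hva hvb hvc
      exact h.r111 a b c (key a ha hva) (key b hb hvb) (key c hc hvc) hva hvb hvc
  obtain ⟨q, hqn, hqv⟩ := hq
  induction q using List.reverseRecOn with
  | nil => rw [code_nil] at hqn; omega
  | append_singleton s k _ =>
  obtain ⟨τ, hτ⟩ := Option.isSome_iff_exists.mp hqv
  obtain ⟨ch, hs, rfl⟩ := Shape.sub_append_singleton σ s k τ hτ
  have hsn : code s < n := hqn ▸ code_lt_child s k
  have hsv : (σ.sub s).isSome := by simp [hs]
  have hfit := h.fit s _ hsn hs
  have := S.fit_ne _ _ hfit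
  have hF := finite_code_lt n
  have hFF := hF.prod hF
  have e0 := S.fit _ _ k hfit
  have e1 := S.h3 _ (h.r3 s hsn hsv)
  have e2 : ∀ᶠ x' in S.D (g s), ∀ c ∈ {a : List ℕ | code a < n}, (σ.sub c).isSome → prec s c →
      (S.R111 x' (g s) (g c) ∧ S.R21 x' (g c)) ∧ S.R12 x' (g c) := by
    rw [eventually_all_finite hF]
    intro c hc
    by_cases h1 : (σ.sub c).isSome ∧ prec s c
    · filter_upwards [S.h21 _ _ (h.r21 s c hsn hc hsv h1.1 h1.2),
        S.h12a _ _ (h.r12 s c hsn hc hsv h1.1 h1.2)] with x' hx hx' _ _ using ⟨hx, hx'⟩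
    · exact Eventually.of_forall fun _ h2 h3 => absurd ⟨h2, h3⟩ h1
  have e3 : ∀ᶠ x' in S.D (g s), ∀ a ∈ {a : List ℕ | code a < n}, (σ.sub a).isSome → prec a s →
      (S.R111 (g a) x' (g s) ∧ S.R12 (g a) x') ∧ S.R21 (g a) x' := by
    rw [eventually_all_finite hF]
    intro c hc
    by_cases h1 : (σ.sub c).isSome ∧ prec c s
    · filter_upwards [S.h12 _ _ (h.r12 c s hc hsn h1.1 hsv h1.2),
        S.h21c _ _ (h.r21 c s hc hsn h1.1 hsv h1.2)] with x' hx hx' _ _ using ⟨hx, hx'⟩
    · exact Eventually.of_forall fun _ h2 h3 => absurd ⟨h2, h3⟩ h1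
  have e4 : ∀ᶠ x' in S.D (g s), ∀ p ∈ {a : List ℕ | code a < n} ×ˢ {a : List ℕ | code a < n},
      (σ.sub p.1).isSome → (σ.sub p.2).isSome →
      (prec p.1 p.2 → prec p.2 s → S.R111 (g p.1) (g p.2) x') ∧
      (prec p.1 s → prec s p.2 → S.R111 (g p.1) x' (g p.2)) ∧
      (prec s p.1 → prec p.1 p.2 → S.R111 x' (g p.1) (g p.2)) := by
    rw [eventually_all_finite hFF]
    rintro ⟨a, b⟩ ⟨ha, hb⟩
    by_cases h1 : (σ.sub a).isSome ∧ (σ.sub b).isSome
    · have f1 : ∀ᶠ x' in S.D (g s), prec a b → prec b s → S.R111 (g a) (g b) x' := by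
        by_cases h2 : prec a b ∧ prec b s
        · filter_upwards [S.h111c _ _ _ (h.r111 a b s ha hb hsn h1.1 h1.2 hsv h2.1 h2.2)]
            with x' hx _ _ using hx
        · exact Eventually.of_forall fun _ h3 h4 => absurd ⟨h3, h4⟩ h2
      have f2 : ∀ᶠ x' in S.D (g s), prec a s → prec s b → S.R111 (g a) x' (g b) := by
        by_cases h2 : prec a s ∧ prec s b
        · filter_upwards [S.h111b _ _ _ (h.r111 a s b ha hsn hb h1.1 hsv h1.2 h2.1 h2.2)]
            with x' hx _ _ using hx
        · exact Eventually.of_forall fun _ h3 h4 => absurd ⟨h3, h4⟩ h2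
      have f3 : ∀ᶠ x' in S.D (g s), prec s a → prec a b → S.R111 x' (g a) (g b) := by
        by_cases h2 : prec s a ∧ prec a b
        · filter_upwards [S.h111a _ _ _ (h.r111 s a b hsn ha hb hsv h1.1 h1.2 h2.1 h2.2)]
            with x' hx _ _ using hx
        · exact Eventually.of_forall fun _ h3 h4 => absurd ⟨h3, h4⟩ h2
      filter_upwards [f1, f2, f3] with x' h1 h2 h3 _ _ using ⟨h1, h2, h3⟩
    · exact Eventually.of_forall fun _ h2 h3 => absurd ⟨h2, h3⟩ h1
  obtain ⟨x, ⟨hx0, hx1⟩, ⟨hx2, hx3⟩, hx4⟩ := ((e0.and e1).and ((e2.and e3).and e4)).exists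
  set q := s ++ [k] with hqdef
  have hcase : ∀ a, code a < n + 1 → a = q ∨ code a < n := by
    intro a ha
    rcases Nat.lt_succ_iff_lt_or_eq.mp ha with h1 | h1
    · exact Or.inr h1
    · exact Or.inl (code_injective (h1.trans hqn.symm))
  have hne : ∀ a, code a < n → a ≠ q := fun a ha h1 => by rw [h1, hqn] at ha; exact lt_irrefl _ ha
  have hlo : ∀ a, code a < n → (prec a q ↔ prec a s) := by
    intro a ha
    refine prec_child_iff s k a fun m l hm hal => ?_
    have := code_child_le s k m l hm
    rw [← hal, ← hqdef, hqn] at this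
    omega
  have hhi : ∀ a, code a < n → prec q a → a = s ∨ prec s a := by
    intro a ha hqa
    rcases prec_trichotomy a s with h1 | h1 | h1
    · exact absurd (prec_trans hqa ((hlo a ha).mpr h1)) (prec_irrefl _)
    · exact Or.inl h1
    · exact Or.inr h1
  have gq : Function.update g q x q = x := Function.update_self ..
  have go : ∀ a, code a < n → Function.update g q x a = g a :=
    fun a ha => Function.update_of_ne (hne a ha) ..
  refine ⟨Function.update g q x, fun a ha => Function.update_of_ne (fun h1 => ha (by rw [h1]; exact hqn)) .., ?_⟩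
  constructor
  · intro a τ' ha hτ'
    rcases hcase a ha with rfl | ha
    · rw [gq]
      rw [hτ] at hτ'
      cases hτ'
      exact hx0
    · rw [go a ha]; exact h.fit a τ' ha hτ'
  · intro a ha hv
    rcases hcase a ha with rfl | ha
    · rw [gq]; exact hx1.2.2
    · rw [go a ha]; exact h.r3 a ha hv
  · intro a c ha hc hva hvc hac
    rcases hcase a ha with rfl | ha
    · rcases hcase c hc with rfl | hc
      · exact absurd hac (prec_irrefl _)
      · rw [gq, go c hc]
        rcases hhi c hc hac with rfl | h1
        · exact hx1.2.1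
        · exact (hx2 c hc hvc h1).1.2
    · rcases hcase c hc with rfl | hc
      · rw [gq, go a ha]; exact (hx3 a ha hva ((hlo a ha).mp hac)).2
      · rw [go a ha, go c hc]; exact h.r21 a c ha hc hva hvc hac
  · intro a c ha hc hva hvc hac
    rcases hcase a ha with rfl | ha
    · rcases hcase c hc with rfl | hc
      · exact absurd hac (prec_irrefl _)
      · rw [gq, go c hc]
        rcases hhi c hc hac with rfl | h1
        · exact hx1.1
        · exact (hx2 c hc hvc h1).2
    · rcases hcase c hc with rfl | hc
      · rw [gq, go a ha]; exact (hx3 a ha hva ((hlo a ha).mp hac)).1.2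
      · rw [go a ha, go c hc]; exact h.r12 a c ha hc hva hvc hac
  · intro a b c ha hb hc hva hvb hvc hab hbc
    rcases hcase a ha with rfl | ha
    · rcases hcase b hb with rfl | hb
      · exact absurd hab (prec_irrefl _)
      rcases hcase c hc with rfl | hc
      · exact absurd (prec_trans hab hbc) (prec_irrefl _)
      rw [gq, go b hb, go c hc]
      rcases hhi b hb hab with rfl | h1
      · exact (hx2 c hc hvc hbc).1.1
      · exact (hx4 (b, c) ⟨hb, hc⟩ hvb hvc).2.2 h1 hbc
    · rcases hcase b hb with rfl | hb
      · rcases hcase c hc with rfl | hc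
        · exact absurd hbc (prec_irrefl _)
        rw [gq, go a ha, go c hc]
        rcases hhi c hc hbc with rfl | h1
        · exact (hx3 a ha hva ((hlo a ha).mp hab)).1.1
        · exact (hx4 (a, c) ⟨ha, hc⟩ hva hvc).2.1 ((hlo a ha).mp hab) h1
      · rcases hcase c hc with rfl | hc
        · rw [gq, go a ha, go b hb]
          exact (hx4 (a, b) ⟨ha, hb⟩ hva hvb).1 hab ((hlo b hb).mp hbc)
        · rw [go a ha, go b hb, go c hc]
          exact h.r111 a b c ha hb hc hva hvb hvc hab hbc

/-- The selection lemma. -/
theorem Sys.select (S : Sys X) (σ : Shape) (root : X) (hfit : S.Fit root σ) (h3 : S.R3 root) :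
    ∃ g : List ℕ → X, (∀ a τ, σ.sub a = some τ → S.Fit (g a) τ) ∧
      (∀ a c, (σ.sub a).isSome → (σ.sub c).isSome → prec a c → S.R21 (g a) (g c)) ∧
      ∀ a b c, (σ.sub a).isSome → (σ.sub b).isSome → (σ.sub c).isSome →
        prec a b → prec b c → S.R111 (g a) (g b) (g c) := by
  have h0 : Inv S σ (fun _ => root) 1 := by
    have key : ∀ a, code a < 1 → a = [] := fun a ha =>
      code_injective (by rw [code_nil]; omega)
    constructor
    · intro a τ ha hτ
      rw [key a ha] at hτ
      cases σ <;> (simp only [Shape.sub, Option.some.injEq] at hτ; rw [← hτ]; exact hfit)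
    · intro _ _ _; exact h3
    · intro a c ha _ _ _ hac; rw [key a ha] at hac; exact absurd hac (by simp [prec])
    · intro a c ha _ _ _ hac; rw [key a ha] at hac; exact absurd hac (by simp [prec])
    · intro a b c ha _ _ _ _ _ hab; rw [key a ha] at hab; exact absurd hab (by simp [prec])
  let G : (n : ℕ) → {g : List ℕ → X // Inv S σ g (n + 1)} := fun n =>
    Nat.rec ⟨fun _ => root, h0⟩
      (fun m p => ⟨(Inv.step S σ p.1 (m + 1) (Nat.succ_pos m) p.2).choose,
        (Inv.step S σ p.1 (m + 1) (Nat.succ_pos m) p.2).choose_spec.2⟩) n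
  have hG : ∀ m a, code a ≠ m + 1 → (G (m + 1)).1 a = (G m).1 a := fun m a ha =>
    (Inv.step S σ (G m).1 (m + 1) (Nat.succ_pos m) (G m).2).choose_spec.1 a ha
  have hst : ∀ a m, code a ≤ m → (G m).1 a = (G (code a)).1 a := by
    intro a m hm
    induction m, hm using Nat.le_induction with
    | base => rfl
    | succ m hm ih => rw [hG m a (by omega), ih]
  refine ⟨fun a => (G (code a)).1 a, ?_, ?_, ?_⟩
  · intro a τ hτ
    exact (G (code a)).2.fit a τ (Nat.lt_succ_self _) hτ
  · intro a c ha hc hac
    have := (G (code a + code c)).2.r21 a c (by omega) (by omega) ha hc hac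
    rwa [hst a _ (by omega), hst c _ (by omega)] at this
  · intro a b c ha hb hc hab hbc
    have := (G (code a + code b + code c)).2.r111 a b c (by omega) (by omega) (by omega)
      ha hb hc hab hbc
    rwa [hst a _ (by omega), hst b _ (by omega), hst c _ (by omega)] at this

end Pool.Agent.MP_71094f_lc
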