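import Mathlib
import Pool.Agent.MP_71094f_lc.Props
import Pool.Agent.MP_71094f_lc.Select

set_option autoImplicit false

/-!
Descents in the tower and two-level frames.
-/

namespace Pool.Agent.MP_71094f_lc

open Filter Set

variable {Ω : Type} [LinearOrder Ω] [hΩ : OmOne Ω] (B : Ω → Ω → Ω → Prop)

/-- Descent by a number of steps. -/
noncomputable def Dn : ℕ → Ty Ω → Ω → Ultrafilter Ω
  | 0, _, w => pure w
  | n + 1, l, w => (TC B l w).bind fun v => Dn n (ch l) v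

/-- The type allows the given number of steps. -/
def Deep (n : ℕ) (l : Ty Ω) : Prop := ∀ m, m < n → ch^[m] l ≠ Sum.inl 0

variable {B}

lemma Deep.ne {n : ℕ} {l : Ty Ω} (h : Deep (n + 1) l) : l ≠ Sum.inl 0 := h 0 (Nat.succ_pos n)

lemma Deep.tail {n : ℕ} {l : Ty Ω} (h : Deep (n + 1) l) : Deep n (ch l) := fun m hm =>
  h (m + 1) (Nat.succ_lt_succ hm)

lemma Deep.mono {n m : ℕ} {l : Ty Ω} (h : Deep n l) (hm : m ≤ n) : Deep m l := fun k hk =>
  h k (hk.trans_le hm)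

lemma Dn_add (a b : ℕ) : ∀ (l : Ty Ω) (w : Ω) (P : Ω → Prop),
    (∀ᶠ x in (Dn B (a + b) l w : Filter Ω), P x) ↔
      ∀ᶠ v in (Dn B a l w : Filter Ω), ∀ᶠ x in (Dn B b (ch^[a] l) v : Filter Ω), P x := by
  induction a with
  | zero => intro l w P; simp [Dn]
  | succ a ih =>
    intro l w P
    rw [Nat.succ_add]
    simp only [Dn, eventually_ubind, ih, Function.iterate_succ_apply]

lemma Dn_spec (n : ℕ) : ∀ (l : Ty Ω) (w : Ω), Deep n l → TG B l w →
    (∀ᶠ v in (Dn B n l w : Filter Ω), TG B (ch^[n] l) v ∧ v ≤ w) ∧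
    (∀ η, η < w → ∀ᶠ v in (Dn B n l w : Filter Ω), η < v) ∧
    (∀ i, keyI i < w → ∀ᶠ v in (Dn B n l w : Filter Ω), (TP B i v ↔ TP B i w)) ∧
    (∀ P : Ω → Prop, (∀ᶠ x in (TU B l w : Filter Ω), P x) ↔
      ∀ᶠ v in (Dn B n l w : Filter Ω), ∀ᶠ x in (TU B (ch^[n] l) v : Filter Ω), P x) := by
  induction n with
  | zero => intro l w _ hG; simp [Dn, hG]
  | succ n ih =>
    intro l w hd hG
    have hC := hG.hasC B hd.ne
    simp only [Dn, eventually_ubind, Function.iterate_succ_apply]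
    refine ⟨?_, fun η hη => ?_, fun i hi => ?_, fun P => ?_⟩
    · filter_upwards [TC_G hC, TC_lt hC] with v hv hv'
      exact (ih _ v hd.tail hv.1).1.mono fun u hu => ⟨hu.1, hu.2.trans hv'.le⟩
    · filter_upwards [TC_G hC, TC_gt hC hη] with v hv hv'
      exact (ih _ v hd.tail hv.1).2.1 η hv'
    · filter_upwards [TC_G hC, TC_gt hC hi, TC_faith hC hi] with v hv hv' hv''
      exact ((ih _ v hd.tail hv.1).2.2.1 i hv').mono fun u hu => hu.trans hv''
    · rw [TU_bind B hG hd.ne, eventually_ubind]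
      refine eventually_congr ?_
      filter_upwards [TC_G hC] with v hv
      exact (ih _ v hd.tail hv.1).2.2.2 P

lemma Dn_lt {n : ℕ} {l : Ty Ω} {w : Ω} (hd : Deep (n + 1) l) (hG : TG B l w) :
    ∀ᶠ v in (Dn B (n + 1) l w : Filter Ω), v < w := by
  have hC := hG.hasC B hd.ne
  simp only [Dn, eventually_ubind]
  filter_upwards [TC_G hC, TC_lt hC] with v hv hv'
  exact (Dn_spec n _ v hd.tail hv.1).1.mono fun u hu => hu.2.trans_lt hv'

/-- A two-level frame. -/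
structure Frame (Ω : Type) [LinearOrder Ω] [OmOne Ω] where
  l2 : Ty Ω
  n : ℕ
  η : Ω
  deep : Deep (n + 2) l2
  hk : ∀ m v, key (ch^[m] l2, v) ≤ max η v

namespace Frame

variable (F : Frame Ω)

/-- The type at each rank. -/
noncomputable def typ : ℕ → Ty Ω
  | 0 => Sum.inl 0
  | 1 => ch^[F.n + 1] F.l2
  | _ + 2 => F.l2

variable (B)

/-- The point ultrafilter at a position. -/
noncomputable def W (a : ℕ × Ω) : Ultrafilter Ω := TU B (F.typ a.1) a.2

/-- Good positions. -/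
def Gd (a : ℕ × Ω) : Prop := TG B (F.typ a.1) a.2 ∧ F.η < a.2

/-- The move filter. -/
noncomputable def Mv : ℕ × Ω → Filter (ℕ × Ω)
  | (0, _) => ⊥
  | (1, w) => map (fun x => (0, x)) (TU B (F.typ 1) w)
  | (_ + 2, w) => map (fun v => (1, v)) (Dn B (F.n + 1) F.l2 w)

variable {B}

lemma typ_one_ne : F.typ 1 ≠ Sum.inl 0 := F.deep (F.n + 1) (by omega)

lemma W_zero (x : Ω) : F.W B (0, x) = pure x := TU_zero B x

lemma key_typ (r : ℕ) (v : Ω) : key (F.typ r, v) ≤ max F.η v := by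
  match r with
  | 0 => exact le_max_right _ _
  | 1 => exact F.hk _ v
  | _ + 2 => exact F.hk 0 v

variable {F}

lemma Gd.key_lt {a : ℕ × Ω} (h : F.Gd B a) {w : Ω} (hw : a.2 < w) : key (F.typ a.1, a.2) < w :=
  (F.key_typ _ _).trans_lt (max_lt (h.2.trans hw) hw)

lemma Gd.mv_gt {a : ℕ × Ω} (h : F.Gd B a) {e : Ω} (he : e < a.2) :
    ∀ᶠ a' in F.Mv B a, e < a'.2 := by
  match a, h, he with
  | (0, _), _, _ => exact eventually_bot
  | (1, w), _, he => exact TU_gt w he _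
  | (_ + 2, w), h, he => exact (Dn_spec _ _ w (F.deep.mono (Nat.le_succ (F.n + 1))) h.1).2.1 e he

lemma Gd.mv_gd {a : ℕ × Ω} (h : F.Gd B a) : ∀ᶠ a' in F.Mv B a, F.Gd B a' ∧ a'.2 < a.2 := by
  have h1 := h.mv_gt h.2
  match a, h, h1 with
  | (0, _), _, _ => exact eventually_bot
  | (1, w), h, h1 =>
    have h2 := TU_lt h.1 F.typ_one_ne
    simp only [Mv, eventually_map] at h1 ⊢
    filter_upwards [h1, h2] with x hx hx' using ⟨⟨TG_zero B x, hx⟩, hx'⟩
  | (_ + 2, w), h, h1 =>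
    have h2 := (Dn_spec _ _ w (F.deep.mono (by omega : F.n + 1 ≤ F.n + 2)) h.1).1
    have h3 := Dn_lt (F.deep.mono (by omega : F.n + 1 ≤ F.n + 2)) h.1
    simp only [Mv, eventually_map] at h1 ⊢
    filter_upwards [h1, h2, h3] with x hx hx' hx'' using ⟨⟨hx'.1, hx⟩, hx''⟩

lemma Gd.mv_faith {a : ℕ × Ω} (h : F.Gd B a) {i : Ix Ω} (hi : keyI i < a.2) :
    ∀ᶠ a' in F.Mv B a, (TP B i a'.2 ↔ TP B i a.2) := by
  match a, h, hi with
  | (0, _), _, _ => exact eventually_bot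
  | (1, w), _, hi => exact TU_faith w hi _
  | (_ + 2, w), h, hi => exact (Dn_spec _ _ w (F.deep.mono (Nat.le_succ (F.n + 1))) h.1).2.2.1 i hi

lemma Gd.mv_W {a : ℕ × Ω} (h : F.Gd B a) {P : Ω → Prop}
    (hP : ∀ᶠ x in (F.W B a : Filter Ω), P x) :
    ∀ᶠ a' in F.Mv B a, ∀ᶠ x in (F.W B a' : Filter Ω), P x := by
  match a, h, hP with
  | (0, _), _, _ => exact eventually_bot
  | (1, w), _, hP =>
    simp only [Mv, eventually_map, W_zero]
    exact hP.mono fun x hx => by simpa using hx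
  | (_ + 2, w), h, hP =>
    exact ((Dn_spec _ _ w (F.deep.mono (Nat.le_succ (F.n + 1))) h.1).2.2.2 P).mp hP

lemma mv_rank (a : ℕ × Ω) :
    ∀ᶠ a' in F.Mv B a, (a.1 = 1 ∧ a'.1 = 0) ∨ (2 ≤ a.1 ∧ a'.1 = 1) := by
  match a with
  | (0, _) => exact eventually_bot
  | (1, w) => exact eventually_map.mpr (Eventually.of_forall fun _ => Or.inl ⟨rfl, rfl⟩)
  | (_ + 2, w) =>
    exact eventually_map.mpr (Eventually.of_forall fun _ => Or.inr ⟨by simp, rfl⟩)

lemma Gd.mv_LM {a b c : ℕ × Ω} (ha : F.Gd B a) (hb : F.Gd B b) (hc : F.Gd B c) (hac : a.2 < c.2)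
    (hbc : b.2 < c.2) : ∀ᶠ c' in F.Mv B c,
      (LM B (F.W B a) (F.W B b) c'.2 ↔ LM B (F.W B a) (F.W B b) c.2) := by
  have := hc.mv_faith (i := (true, (F.typ a.1, a.2), (F.typ b.1, b.2)))
    (max_lt (ha.key_lt hac) (hb.key_lt hbc))
  simpa only [TP_true, W] using this

lemma Gd.mv_ML {a b c : ℕ × Ω} (ha : F.Gd B a) (hb : F.Gd B b) (hc : F.Gd B c) (hac : a.2 < c.2)
    (hbc : b.2 < c.2) : ∀ᶠ c' in F.Mv B c,
      (ML B (F.W B a) (F.W B b) c'.2 ↔ ML B (F.W B a) (F.W B b) c.2) := by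
  have := hc.mv_faith (i := (false, (F.typ a.1, a.2), (F.typ b.1, b.2)))
    (max_lt (ha.key_lt hac) (hb.key_lt hbc))
  simpa only [TP_false, W] using this

end Frame

/-- The regular shapes of finite rank. -/
def sig : ℕ → Shape
  | 0 => Shape.leaf
  | r + 1 => Shape.node fun _ => sig r

/-- Addresses of the points of a set of type omega squared plus one. -/
def Val (a : List ℕ) : Prop := a = [] ∨ ∃ i j, a = [i, j]

/-- Existence of a red set of type omega squared plus one. -/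
def Red (B : Ω → Ω → Ω → Prop) : Prop :=
  ∃ h : List ℕ → Ω, (∀ a c, Val a → Val c → prec a c → h a < h c) ∧
    ∀ a b c, Val a → Val b → Val c → prec a b → prec b c → ¬ B (h a) (h b) (h c)

theorem Frame.red (F : Frame Ω) (R111 : ℕ × Ω → ℕ × Ω → ℕ × Ω → Prop)
    (R21 R12 : ℕ × Ω → ℕ × Ω → Prop) (R3 : ℕ × Ω → Prop)
    (h111a : ∀ a b c, R111 a b c → ∀ᶠ a' in F.Mv B a, R111 a' b c)
    (h111b : ∀ a b c, R111 a b c → ∀ᶠ b' in F.Mv B b, R111 a b' c)
    (h111c : ∀ a b c, R111 a b c → ∀ᶠ c' in F.Mv B c, R111 a b c')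
    (h21 : ∀ a c, R21 a c → ∀ᶠ a' in F.Mv B a, R111 a' a c ∧ R21 a' c)
    (h21c : ∀ a c, R21 a c → ∀ᶠ c' in F.Mv B c, R21 a c')
    (h12a : ∀ a b, R12 a b → ∀ᶠ a' in F.Mv B a, R12 a' b)
    (h12 : ∀ a b, R12 a b → ∀ᶠ b' in F.Mv B b, R111 a b' b ∧ R12 a b')
    (h3 : ∀ a, R3 a → ∀ᶠ a' in F.Mv B a, R12 a' a ∧ R21 a' a ∧ R3 a')
    (w : Ω) (hw : R3 (2, w)) (t21 : ∀ a c, R21 a c → a.2 < c.2)
    (t111 : ∀ x z c, R111 (0, x) (0, z) c → ¬ B x z c.2) : Red B := by
  let S : Sys (ℕ × Ω) :=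
    { D := F.Mv B
      Fit := fun a τ => τ = sig a.1 ∧ a.1 ≤ 2
      R111 := R111, R21 := R21, R12 := R12, R3 := R3
      fit_ne := by
        rintro ⟨r, x⟩ c ⟨h, -⟩
        match r, h with
        | 0, h => exact absurd h (by simp [sig])
        | 1, _ => exact map_neBot
        | _ + 2, _ => exact map_neBot
      fit := by
        rintro ⟨r, x⟩ c n ⟨h, h2⟩
        filter_upwards [Frame.mv_rank (F := F) (B := B) (r, x)] with a' ha'
        rcases ha' with ⟨h3, h4⟩ | ⟨h3, h4⟩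
        · have : r = 1 := h3
          subst this
          simp only [sig, Shape.node.injEq] at h
          rw [h4, h]; exact ⟨rfl, by omega⟩
        · have : r = 2 := le_antisymm h2 h3
          subst this
          simp only [sig, Shape.node.injEq] at h
          rw [h4, h]; exact ⟨rfl, by omega⟩
      h111a := h111a, h111b := h111b, h111c := h111c, h21 := h21, h21c := h21c, h12a := h12a
      h12 := h12, h3 := h3 }
  obtain ⟨g, hg1, hg2, hg3⟩ := S.select (sig 2) (2, w) ⟨rfl, le_rfl⟩ hw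
  have hv : ∀ a, Val a → ((sig 2).sub a).isSome := by
    rintro a (rfl | ⟨i, j, rfl⟩) <;> simp [sig, Shape.sub]
  have hz : ∀ a c, Val a → prec a c → g a = (0, (g a).2) := by
    rintro a c (rfl | ⟨i, j, rfl⟩) hp
    · exact absurd hp (by simp [prec])
    · have := (hg1 [i, j] Shape.leaf (by simp [sig, Shape.sub])).1
      rcases hr : (g [i, j]).1 with _ | r
      · exact Prod.ext hr rfl
      · rw [hr] at this; exact absurd this (by simp [sig])
  refine ⟨fun a => (g a).2, fun a c ha hc hac => t21 _ _ (hg2 a c (hv a ha) (hv c hc) hac),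
    fun a b c ha hb hc hab hbc => ?_⟩
  have := hg3 a b c (hv a ha) (hv b hb) (hv c hc) hab hbc
  rw [hz a b ha hab, hz b c hb hbc] at this
  exact t111 _ _ _ this

end Pool.Agent.MP_71094f_lc
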