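import Mathlib
import Pool.Agent.MP_71094f_lc.Frame

set_option autoImplicit false

/-!
A failure code yields a red set: a clique in the link of an ultrafilter.
-/

namespace Pool.Agent.MP_71094f_lc

open Filter Set

variable {Ω : Type} [LinearOrder Ω]

/-- No blue four-element set. -/
def K4Free (B : Ω → Ω → Ω → Prop) : Prop :=
  ∀ a b d e, a < b → b < d → d < e → B a b d → B a b e → B a d e → ¬ B b d e

variable [hΩ : OmOne Ω] {B : Ω → Ω → Ω → Prop}

theorem clique_frame (hK : K4Free B) (F : Frame Ω) (p : Par Ω) (hp : key p ≤ F.η) (w : Ω)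
    (hw : F.Gd B (2, w)) (h1 : ML B (TU B p.1 p.2) (F.W B (2, w)) w)
    (h2 : ∀ᶠ a' in F.Mv B (2, w), ML B (TU B p.1 p.2) (F.W B a') a'.2) : Red B := by
  let G : ℕ × Ω → Prop := fun a => F.Gd B a ∧ (1 ≤ a.1 → ML B (TU B p.1 p.2) (F.W B a) a.2) ∧
    (2 ≤ a.1 → ∀ᶠ a' in F.Mv B a, ML B (TU B p.1 p.2) (F.W B a') a'.2)
  let Adj : ℕ × Ω → ℕ × Ω → Prop := fun a c => a.2 < c.2 ∧ ML B (TU B p.1 p.2) (F.W B a) c.2
  have hG : ∀ a, G a → ∀ᶠ a' in F.Mv B a, G a' := by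
    intro a ha
    by_cases h : 2 ≤ a.1
    · filter_upwards [ha.1.mv_gd, ha.2.2 h, Frame.mv_rank (F := F) (B := B) a] with a' e1 e2 e3
      exact ⟨e1.1, fun _ => e2, fun h' => by omega⟩
    · filter_upwards [ha.1.mv_gd, Frame.mv_rank (F := F) (B := B) a] with a' e1 e3
      exact ⟨e1.1, fun h' => by omega, fun h' => by omega⟩
  have hl : ∀ a c, G a → Adj a c → ∀ᶠ a' in F.Mv B a, Adj a' c := by
    intro a c ha hac
    filter_upwards [ha.1.mv_gd, ha.1.mv_W hac.2] with a' e1 e2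
    exact ⟨e1.2.trans hac.1, e2⟩
  have hr : ∀ a c, G a → G c → Adj a c → ∀ᶠ c' in F.Mv B c, Adj a c' := by
    intro a c ha hc hac
    have := hc.1.mv_faith (i := (false, p, (F.typ a.1, a.2)))
      (max_lt (hp.trans_lt hc.1.2) (ha.1.key_lt hac.1))
    filter_upwards [hc.1.mv_gt hac.1, this] with c' e1 e2
    rw [TP_false, TP_false] at e2
    exact ⟨e1, e2.mpr hac.2⟩
  have hs : ∀ a, G a → ∀ᶠ a' in F.Mv B a, Adj a' a := by
    intro a ha
    by_cases h : 1 ≤ a.1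
    · filter_upwards [ha.1.mv_gd, ha.1.mv_W (ha.2.1 h)] with a' e1 e2
      exact ⟨e1.2, e2⟩
    · filter_upwards [Frame.mv_rank (F := F) (B := B) a] with a' e3
      omega
  refine F.red (fun a b c => (G a ∧ G b ∧ G c) ∧ Adj a b ∧ Adj a c ∧ Adj b c)
    (fun a c => G a ∧ G c ∧ Adj a c) (fun a c => G a ∧ G c ∧ Adj a c) G
    ?_ ?_ ?_ ?_ ?_ ?_ ?_ ?_ w ⟨hw, fun _ => h1, fun _ => h2⟩ (fun a c h => h.2.2.1) ?_
  · rintro a b c ⟨⟨ha, hb, hc⟩, hab, hac, hbc⟩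
    filter_upwards [hG a ha, hl a b ha hab, hl a c ha hac] with a' e1 e2 e3
    exact ⟨⟨e1, hb, hc⟩, e2, e3, hbc⟩
  · rintro a b c ⟨⟨ha, hb, hc⟩, hab, hac, hbc⟩
    filter_upwards [hG b hb, hr a b ha hb hab, hl b c hb hbc] with a' e1 e2 e3
    exact ⟨⟨ha, e1, hc⟩, e2, hac, e3⟩
  · rintro a b c ⟨⟨ha, hb, hc⟩, hab, hac, hbc⟩
    filter_upwards [hG c hc, hr a c ha hc hac, hr b c hb hc hbc] with a' e1 e2 e3
    exact ⟨⟨ha, hb, e1⟩, hab, e2, e3⟩
  · rintro a c ⟨ha, hc, hac⟩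
    filter_upwards [hG a ha, hs a ha, hl a c ha hac] with a' e1 e2 e3
    exact ⟨⟨⟨e1, ha, hc⟩, e2, e3, hac⟩, e1, hc, e3⟩
  · rintro a c ⟨ha, hc, hac⟩
    filter_upwards [hG c hc, hr a c ha hc hac] with a' e1 e2
    exact ⟨ha, e1, e2⟩
  · rintro a c ⟨ha, hc, hac⟩
    filter_upwards [hG a ha, hl a c ha hac] with a' e1 e2
    exact ⟨e1, hc, e2⟩
  · rintro a c ⟨ha, hc, hac⟩
    filter_upwards [hG c hc, hr a c ha hc hac, hs c hc] with a' e1 e2 e3
    exact ⟨⟨⟨ha, e1, hc⟩, e2, hac, e3⟩, ha, e1, e2⟩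
  · intro a ha
    filter_upwards [hG a ha, hs a ha] with a' e1 e2
    exact ⟨⟨e1, ha, e2⟩, ⟨e1, ha, e2⟩, e1⟩
  · rintro x z c ⟨⟨ha, -, -⟩, hab, hac, hbc⟩
    have e1 := hab.2
    have e2 := hac.2
    have e3 := hbc.2
    simp only [ML, Frame.W_zero, Ultrafilter.coe_pure, eventually_pure] at e1 e2 e3
    obtain ⟨u, ⟨u1, u2⟩, u3, u4⟩ := ((e1.and e2).and (e3.and (TU_le p.2 p.1))).exists
    exact hK u x z c.2 (u4.trans_lt (((le_key p).trans hp).trans_lt ha.1.2)) hab.1 hbc.1 u1 u2 u3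

lemma ch_iter_inr (η : Ω) (j : ℕ) (k : ℕ) : ∀ m, ch^[k] (Sum.inr (η, j, m + k) : Ty Ω) =
    Sum.inr (η, j, m) := by
  induction k with
  | zero => intro m; rfl
  | succ k ih => intro m; rw [Function.iterate_succ_apply, ← Nat.add_assoc]; exact ih m

lemma deep_inr (η : Ω) (j m : ℕ) : Deep (m + 1) (Sum.inr (η, j, m) : Ty Ω) := by
  intro k hk
  obtain ⟨r, rfl⟩ : ∃ r, m = r + k := ⟨m - k, by omega⟩
  rw [ch_iter_inr]; simp

lemma key_iter (η : Ω) (k : ℕ) : ∀ l : Ty Ω, (∀ v, key (l, v) ≤ max η v) →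
    ∀ v, key (ch^[k] l, v) ≤ max η v := by
  induction k with
  | zero => intro l h; exact h
  | succ k ih =>
    intro l h
    rw [Function.iterate_succ_apply]
    refine ih _ fun v => ?_
    match l, h with
    | Sum.inl _, _ => exact le_max_right _ _
    | Sum.inr (_, _, 0), _ => exact le_max_right _ _
    | Sum.inr (_, _, _ + 1), h => exact h v

lemma Dn_F (η : Ω) (j : ℕ) (k : ℕ) : ∀ m v, k ≤ m → TG B (Sum.inr (η, j, m)) v →
    ∀ᶠ u in (Dn B (k + 1) (Sum.inr (η, j, m)) v : Filter Ω), (tower B u).F (enum η j) := by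
  induction k with
  | zero =>
    intro m v _ hG
    simp only [Dn, eventually_ubind, Ultrafilter.coe_pure, eventually_pure]
    exact (TC_G (hG.hasC B (by simp))).mono fun u hu => hu.2
  | succ k ih =>
    intro m v hm hG
    obtain ⟨m, rfl⟩ : ∃ r, m = r + 1 := ⟨m - 1, by omega⟩
    rw [Dn, eventually_ubind]
    exact (TC_G (hG.hasC B (by simp))).mono fun u hu => ih m u (by omega) hu.1

lemma raw_colour {η : Ω} {j m : ℕ} {v : Ω} (hb : Bd (enum η j) η) (hη : η < v)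
    (hG : TG B (Sum.inr (η, j, m)) v) (hF : (tower B v).F (enum η j)) :
    ∃ p ∈ (enum η j).2.2.1, ML B (TU B p.1 p.2) (TU B (Sum.inr (η, j, m)) v) v := by
  have hs := Dn_spec (m + 1) _ v (deep_inr η j m) hG
  have hc : ch^[m + 1] (Sum.inr (η, j, m) : Ty Ω) = Sum.inl (enum η j).1 := by
    rw [Function.iterate_succ_apply']
    have := ch_iter_inr η j m 0
    rw [Nat.zero_add] at this
    rw [this]; rfl
  rw [hc] at hs
  have h1 : ∀ᶠ u in (Dn B (m + 1) (Sum.inr (η, j, m)) v : Filter Ω),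
      ∃ p ∈ ((enum η j).2.2.1 : Set (Par Ω)),
        ML B (TU B p.1 p.2) (TU B (Sum.inl (enum η j).1) u) v := by
    filter_upwards [hs.1, hs.2.1 η hη, Dn_lt (deep_inr η j m) hG, Dn_F η j m m v le_rfl hG]
      with u e1 e2 e3 e4
    exact ((TF_iff B _ v).mp hF).2.2.2 u (hb.2.2.trans_lt e2) e3 e1.1
      ((TF_iff B _ u).mp e4).2.2.1
  obtain ⟨p, hp, h2⟩ := (Ultrafilter.eventually_exists_mem_iff (Finset.finite_toSet _)).mp h1
  exact ⟨p, hp, (hs.2.2.2 _).mpr h2⟩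

theorem red_of_fail (hK : K4Free B) {η : Ω} {j : ℕ} (hb : Bd (enum η j) η)
    (h : ∃ᶠ w in club Ω, TG B (Sum.inl (enum η j).1) w ∧ (tower B w).F (enum η j)) : Red B := by
  classical
  set P := (enum η j).2.2.1 with hP
  set R := P.card with hR
  obtain ⟨w, ⟨hw1, hw2⟩, hw3⟩ := ((h.and_eventually (raw_good η j _ (fun _ h => h) R)).and_eventually
    (club_gt η)).exists
  have hG := hw2 hw1
  have h1 : ∀ k, k ≤ R → ∀ᶠ v in (Dn B k (Sum.inr (η, j, R)) w : Filter Ω),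
      TG B (Sum.inr (η, j, R - k)) v ∧ η < v ∧ (tower B v).F (enum η j) := by
    intro k hk
    have hs := Dn_spec k _ w ((deep_inr η j R).mono (by omega)) hG
    have hc : ch^[k] (Sum.inr (η, j, R) : Ty Ω) = Sum.inr (η, j, R - k) := by
      have := ch_iter_inr η j k (R - k)
      rwa [Nat.sub_add_cancel hk] at this
    rw [hc] at hs
    have hF : ∀ᶠ v in (Dn B k (Sum.inr (η, j, R)) w : Filter Ω), (tower B v).F (enum η j) := by
      rcases k with _ | k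
      · simpa [Dn] using hw1.2
      · exact Dn_F η j k R w (by omega) hG
    filter_upwards [hs.1, hs.2.1 η hw3, hF] with v e1 e2 e3 using ⟨e1.1, e2, e3⟩
  have h2 : ∀ k : Fin (R + 1), ∃ p ∈ P, ∀ᶠ v in (Dn B k (Sum.inr (η, j, R)) w : Filter Ω),
      ML B (TU B p.1 p.2) (TU B (Sum.inr (η, j, R - k)) v) v := by
    intro k
    refine (Ultrafilter.eventually_exists_mem_iff (Finset.finite_toSet P)).mp ?_
    exact (h1 k (by omega)).mono fun v hv => raw_colour hb hv.2.1 hv.1 hv.2.2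
  choose c hc1 hc2 using h2
  obtain ⟨k1, k2, hne, heq⟩ : ∃ k1 k2 : Fin (R + 1), k1 < k2 ∧ c k1 = c k2 := by
    obtain ⟨x, -, y, -, hxy, hc⟩ := Finset.exists_ne_map_eq_of_card_lt_of_maps_to
      (s := (Finset.univ : Finset (Fin (R + 1)))) (t := P) (f := c) (by simp [hR])
      (fun x _ => hc1 x)
    rcases lt_or_gt_of_ne hxy with h | h
    · exact ⟨x, y, h, hc⟩
    · exact ⟨y, x, h, hc.symm⟩
  obtain ⟨n, hn⟩ : ∃ n, (k2 : ℕ) = k1 + (n + 1) := ⟨k2 - k1 - 1, by have : (k1 : ℕ) < k2 := hne; omega⟩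
  have hk2 : (k2 : ℕ) ≤ R := by omega
  have e2 := hc2 k2
  rw [hn, Dn_add] at e2
  have hc : ch^[k1] (Sum.inr (η, j, R) : Ty Ω) = Sum.inr (η, j, R - k1) := by
    have := ch_iter_inr η j k1 (R - k1)
    rwa [Nat.sub_add_cancel (by omega)] at this
  rw [hc] at e2
  obtain ⟨s, ⟨s1, s2⟩, s3⟩ := (((h1 k1 (by omega)).and (hc2 k1)).and e2).exists
  let F : Frame Ω :=
    { l2 := Sum.inr (η, j, R - k1), n := n, η := η
      deep := (deep_inr η j _).mono (by omega)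
      hk := fun m => key_iter η m _ fun v => le_rfl }
  have ht : F.typ 1 = Sum.inr (η, j, R - (k1 + (n + 1))) := by
    have := ch_iter_inr η j (n + 1) (R - (k1 + (n + 1)))
    rw [show R - (k1 + (n + 1)) + (n + 1) = R - k1 by omega] at this
    exact this
  refine clique_frame hK F (c k1) (hb.2.1 _ (hc1 k1)) s ⟨s1.1, s1.2.1⟩ s2 ?_
  simp only [Frame.Mv, eventually_map, Frame.W, ht]
  rw [heq]
  exact s3

end Pool.Agent.MP_71094f_lc
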