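import Mathlib

set_option autoImplicit false

/-!
End-homogenisation and the resulting Ramsey theorems (infinite and finite) for decreasing lists.
-/

namespace Pool.Agent.MP_71094f_lc.H37

open Set

section StepUp

variable {K A C : Type} [LinearOrder K] [WellFoundedLT K] [LinearOrder A] [WellFoundedLT A]

/-- Candidates for the next term of the canonical sequence. -/
def cand (r : ℕ) (f : List A → C) (y : A) (j : K) (u : K → A) : Set A :=
  {z | (∀ i, i < j → u i < z) ∧ ∀ s : List K, s.length ≤ r → (∀ i ∈ s, i < j) →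
    f (z :: s.map u) = f (y :: s.map u)}

open Classical in
/-- One step of the canonical sequence. -/
noncomputable def nxt (r : ℕ) (f : List A → C) (y : A) (j : K) (u : K → A) : A :=
  if h : (cand r f y j u).Nonempty then wellFounded_lt.min _ h else y

omit [WellFoundedLT K] [WellFoundedLT A] in
lemma cand_congr (r : ℕ) (f : List A → C) (y : A) (j : K) {u u' : K → A}
    (h : ∀ i, i < j → u i = u' i) : cand r f y j u = cand r f y j u' := by
  ext z
  simp only [cand, mem_ofPred_eq]
  refine and_congr (forall₂_congr fun i hi => by rw [h i hi]) (forall₃_congr fun s _ hs => ?_)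
  rw [List.map_congr_left (fun i hi => h i (hs i hi))]

open Classical in
/-- The canonical sequence towards `y`. -/
noncomputable def cseq (r : ℕ) (f : List A → C) (y : A) : K → A :=
  (wellFounded_lt (α := K)).fix fun j rec => nxt r f y j fun i => if h : i < j then rec i h else y

lemma cseq_eq (r : ℕ) (f : List A → C) (y : A) (j : K) :
    cseq r f y j = nxt r f y j (cseq r f y) := by
  unfold cseq
  rw [WellFounded.fix_eq]
  unfold nxt
  rw [cand_congr r f y j (u' := (wellFounded_lt (α := K)).fix fun j rec =>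
    nxt r f y j fun i => if h : i < j then rec i h else y) (fun i hi => by rw [dif_pos hi]; rfl)]
  rfl

lemma cseq_spec (r : ℕ) (f : List A → C) (y : A) (j : K) (h : ∀ i, i < j → cseq r f y i < y) :
    cseq r f y j ∈ cand r f y j (cseq r f y) ∧ ∀ z ∈ cand r f y j (cseq r f y), cseq r f y j ≤ z := by
  have hy : y ∈ cand r f y j (cseq r f y) := ⟨h, fun _ _ _ => rfl⟩
  have hne : (cand r f y j (cseq r f y)).Nonempty := ⟨y, hy⟩
  have e : cseq r f y j = wellFounded_lt.min _ hne := by
    rw [cseq_eq]; unfold nxt; rw [dif_pos hne]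
  rw [e]
  exact ⟨wellFounded_lt.min_mem _ hne, fun z hz => not_lt.mp (wellFounded_lt.not_lt_min _ hz)⟩

theorem stepUp (r : ℕ) (f : List A → C)
    (hcard : ∀ c : A → K × ({l : List K // l.length ≤ r} → C), ¬ Function.Injective c) :
    ∃ (x : K → A) (y : A), StrictMono x ∧ ∀ j, ∀ s : List K, s.length ≤ r → (∀ i ∈ s, i < j) →
      f (x j :: s.map x) = f (y :: s.map x) := by
  by_contra hcon
  have h1 : ∀ y : A, ∃ j : K, ¬ cseq r f y j < y := by
    intro y
    by_contra h
    push Not at h
    refine hcon ⟨cseq r f y, y, fun i j hij => ?_, fun j => ?_⟩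
    · exact (cseq_spec r f y j fun i _ => h i).1.1 i hij
    · exact (cseq_spec r f y j fun i _ => h i).1.2
  let J : A → K := fun y => wellFounded_lt.min {j | ¬ cseq r f y j < y} (h1 y)
  have hJ1 : ∀ y i, i < J y → cseq r f y i < y := by
    intro y i hi
    by_contra h
    exact wellFounded_lt.not_lt_min {j | ¬ cseq r f y j < y} h hi
  have hJ2 : ∀ y, cseq r f y (J y) = y := by
    intro y
    have h2 : ¬ cseq r f y (J y) < y := wellFounded_lt.min_mem {j | ¬ cseq r f y j < y} (h1 y)
    exact le_antisymm ((cseq_spec r f y (J y) (hJ1 y)).2 y ⟨hJ1 y, fun _ _ _ => rfl⟩) (not_lt.mp h2)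
  refine hcard (fun y => (J y, fun s => f (y :: s.1.map (cseq r f y)))) fun y y' hyy => ?_
  have e1 : J y = J y' := congrArg Prod.fst hyy
  have e2 : ∀ s : List K, s.length ≤ r →
      f (y :: s.map (cseq r f y)) = f (y' :: s.map (cseq r f y')) := fun s hs =>
    congrFun (congrArg Prod.snd hyy) ⟨s, hs⟩
  have key : ∀ j, j ≤ J y → cseq r f y j = cseq r f y' j := by
    intro j
    induction j using WellFoundedLT.induction with
    | _ j ih =>
    intro hj
    have hc : cand r f y j (cseq r f y) = cand r f y' j (cseq r f y') := by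
      rw [← cand_congr r f y' j (fun i hi => ih i hi (hi.le.trans hj))]
      ext z
      simp only [cand, mem_ofPred_eq]
      refine and_congr_right fun _ => forall₃_congr fun s hs hs' => ?_
      rw [e2 s hs, List.map_congr_left (fun i hi => (ih i (hs' i hi) ((hs' i hi).le.trans hj)).symm)]
    have s1 := cseq_spec r f y j fun i hi => hJ1 y i (hi.trans_le hj)
    have s2 := cseq_spec r f y' j fun i hi => hJ1 y' i (e1 ▸ hi.trans_le hj)
    rw [hc] at s1
    exact le_antisymm (s1.2 _ s2.1) (s2.2 _ s1.1)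
  rw [← hJ2 y, key _ le_rfl, e1, hJ2]

end StepUp

lemma exists_big (T : Type) : ∃ (A : Type) (_ : LinearOrder A), WellFoundedLT A ∧
    (Finite T → Finite A) ∧ ∀ c : A → T, ¬ Function.Injective c := by
  obtain ⟨o, ho⟩ := exists_wellFoundedLT (Set T)
  exact ⟨Set T, o, ho, fun _ => inferInstance, fun c => Function.cantor_injective c⟩

/-- Homogeneous sets for decreasing lists of bounded length. -/
theorem exists_hom (r : ℕ) (C : Type) : ∀ (K : Type) [LinearOrder K] [WellFoundedLT K],
    ∃ (A : Type) (_ : LinearOrder A), WellFoundedLT A ∧ (Finite K → Finite C → Finite A) ∧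
      ∀ f : List A → C, ∃ H : K → A, StrictMono H ∧ ∀ l l' : List K, l.Pairwise (· > ·) →
        l'.Pairwise (· > ·) → l.length = l'.length → l.length ≤ r →
        f (l.map H) = f (l'.map H) := by
  induction r with
  | zero =>
    intro K _ _
    refine ⟨K, inferInstance, inferInstance, fun h _ => h, fun f => ⟨id, strictMono_id, ?_⟩⟩
    intro l l' _ _ h1 h2
    have e1 : l = [] := List.length_eq_zero_iff.mp (by omega)
    have e2 : l' = [] := List.length_eq_zero_iff.mp (by omega)
    rw [e1, e2]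
  | succ r ih =>
    intro K _ _
    obtain ⟨K', _, hwf, hfin, hK'⟩ := ih K
    obtain ⟨A, o, ho, hA, hA'⟩ := exists_big (K' × ({l : List K' // l.length ≤ r} → C))
    refine ⟨A, o, ho, fun h1 h2 => hA ?_, fun f => ?_⟩
    · have := hfin h1 h2
      have : Finite {l : List K' // l.length ≤ r} := (List.finite_length_le K' r).to_subtype
      infer_instance
    · obtain ⟨x, y, hx, hxy⟩ := stepUp r f hA'
      obtain ⟨H, hH, hH'⟩ := hK' fun s => f (y :: s.map x)
      refine ⟨x ∘ H, hx.comp hH, fun l l' h1 h2 h3 h4 => ?_⟩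
      have aux : ∀ (j : K) (s : List K), (j :: s).Pairwise (· > ·) → s.length ≤ r →
          f ((j :: s).map (x ∘ H)) = f (y :: (s.map H).map x) := by
        intro j s hs hl
        have := hxy (H j) (s.map H) (by simpa using hl) (by
          intro i hi
          obtain ⟨k, hk, rfl⟩ := List.mem_map.mp hi
          exact hH ((List.pairwise_cons.mp hs).1 k hk))
        rw [← this]; simp
      match l, l', h1, h2, h3, h4 with
      | [], [], _, _, _, _ => rfl
      | j :: s, j' :: s', h1, h2, h3, h4 =>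
        simp only [List.length_cons] at h3 h4
        rw [aux j s h1 (by omega), aux j' s' h2 (by omega)]
        exact hH' s s' (List.pairwise_cons.mp h1).2 (List.pairwise_cons.mp h2).2 (by omega) (by omega)

lemma exists_strictMono_ext (n : ℕ) (f : ℕ → ℕ) (hf : StrictMonoOn f (Iic n)) :
    ∃ g : ℕ → ℕ, StrictMono g ∧ ∀ i, i ≤ n → g i = f i := by
  refine ⟨fun i => if i ≤ n then f i else f n + (i - n), fun i j hij => ?_, fun i hi => if_pos hi⟩
  by_cases hi : i ≤ n <;> by_cases hj : j ≤ n
  · simp only [if_pos hi, if_pos hj]; exact hf hi hj hij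
  · simp only [if_pos hi, if_neg hj]
    have := hf.monotoneOn hi (mem_Iic.mpr le_rfl) hi
    omega
  · omega
  · simp only [if_neg hi, if_neg hj]; omega

/-- A finite nonempty set of a linear order is enumerated increasingly. -/
lemma exists_enum_fin {A : Type} [LinearOrder A] (G : Set A) (hG : G.Finite) (hne : G.Nonempty) :
    ∃ (M : ℕ) (e : ℕ → A), StrictMonoOn e (Iic M) ∧ ∀ x ∈ G, ∃ i, i ≤ M ∧ e i = x := by
  classical
  have hc : 0 < hG.toFinset.card := Finset.card_pos.mpr (by simpa using hne)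
  obtain ⟨M, hM⟩ : ∃ M, hG.toFinset.card = M + 1 := ⟨_, (Nat.succ_pred_eq_of_pos hc).symm⟩
  let E := hG.toFinset.orderEmbOfFin hM
  refine ⟨M, fun i => E ⟨min i M, by omega⟩, fun i hi j hj hij => E.strictMono ?_, fun x hx => ?_⟩
  · simp only [mem_Iic] at hi hj
    simp only [Fin.mk_lt_mk]; omega
  · have : x ∈ range E := by rw [Finset.range_orderEmbOfFin]; simpa using hx
    obtain ⟨i, rfl⟩ := this
    refine ⟨i, by omega, ?_⟩
    exact congrArg E (Fin.ext (by simp only; omega))

lemma exists_pullback {A : Type} [LinearOrder A] {M n : ℕ} {e f : ℕ → A}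
    (he : StrictMonoOn e (Iic M)) (hf : StrictMonoOn f (Iic n))
    (h : ∀ i, i ≤ n → ∃ k, k ≤ M ∧ e k = f i) :
    ∃ ι : ℕ → ℕ, StrictMono ι ∧ ∀ i, i ≤ n → ι i ≤ M ∧ e (ι i) = f i := by
  have h' : ∀ i, ∃ k, i ≤ n → k ≤ M ∧ e k = f i := by
    intro i
    by_cases hi : i ≤ n
    · obtain ⟨k, hk⟩ := h i hi; exact ⟨k, fun _ => hk⟩
    · exact ⟨0, fun h => absurd h hi⟩
  choose k hk using h'
  obtain ⟨g, hg, hg'⟩ := exists_strictMono_ext n k fun i hi j hj hij => by
    have := hf hi hj hij
    rw [← (hk i hi).2, ← (hk j hj).2] at this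
    exact (he.lt_iff_lt (hk i hi).1 (hk j hj).1).mp this
  exact ⟨g, hg, fun i hi => by rw [hg' i hi]; exact hk i hi⟩

/-- The finite Ramsey theorem for decreasing lists of bounded length. -/
theorem finite_ramsey (r K : ℕ) (C : Type) [Finite C] : ∃ M : ℕ, ∀ f : List ℕ → C,
    ∃ g : ℕ → ℕ, StrictMono g ∧ g K ≤ M ∧ ∀ l l' : List ℕ, l.Pairwise (· > ·) →
      l'.Pairwise (· > ·) → (∀ i ∈ l, i ≤ K) → (∀ i ∈ l', i ≤ K) → l.length = l'.length →
      l.length ≤ r → f (l.map g) = f (l'.map g) := by
  classical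
  obtain ⟨A, _, -, hfin, hA⟩ := exists_hom r C (Fin (K + 1))
  have := hfin inferInstance inferInstance
  rcases isEmpty_or_nonempty C with hC | ⟨⟨c⟩⟩
  · exact ⟨0, fun f => hC.elim (f [])⟩
  have hne : (univ : Set A).Nonempty := by
    obtain ⟨H, -, -⟩ := hA fun _ => c
    exact ⟨H 0, trivial⟩
  obtain ⟨M, e, he, he'⟩ := exists_enum_fin (univ : Set A) finite_univ hne
  choose idx hi1 hi2 using fun x => he' x trivial
  have hidx : StrictMono idx := fun a b hab => by
    rw [← hi2 a, ← hi2 b] at hab
    exact (he.lt_iff_lt (hi1 a) (hi1 b)).mp hab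
  refine ⟨M, fun f => ?_⟩
  obtain ⟨H, hH, hH'⟩ := hA fun l => f (l.map idx)
  let t : ℕ → Fin (K + 1) := fun i => ⟨min i K, by omega⟩
  have ht : StrictMonoOn t (Iic K) := fun i hi j hj hij => by
    simp only [mem_Iic] at hi hj
    simp only [t, Fin.mk_lt_mk]; omega
  obtain ⟨g, hg, hg'⟩ := exists_strictMono_ext K (fun i => idx (H (t i)))
    fun i hi j hj hij => hidx (hH (ht hi hj hij))
  refine ⟨g, hg, by rw [hg' K le_rfl]; exact hi1 _, fun l l' h1 h2 h3 h4 h5 h6 => ?_⟩
  have aux : ∀ s : List ℕ, (∀ i ∈ s, i ≤ K) → s.map g = ((s.map t).map H).map idx := by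
    intro s hs
    rw [List.map_map, List.map_map]
    exact List.map_congr_left fun i hi => hg' i (hs i hi)
  have aux2 : ∀ s : List ℕ, (∀ i ∈ s, i ≤ K) → s.Pairwise (· > ·) → (s.map t).Pairwise (· > ·) := by
    intro s hs hp
    rw [List.pairwise_map]
    exact hp.imp_of_mem fun {a b} ha hb hab => ht (hs b hb) (hs a ha) hab
  rw [aux l h3, aux l' h4]
  exact hH' _ _ (aux2 l h3 h1) (aux2 l' h4 h2) (by simpa using h5) (by simpa using h6)

end Pool.Agent.MP_71094f_lc.H37
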