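import Mathlib
import Pool.Agent.MP_71094f_lc.H37Ramsey

set_option autoImplicit false

/-!
The greedy demand system on a large well-order and the resulting dichotomy.
-/

namespace Pool.Agent.MP_71094f_lc.H37

open Set

/-- A nonempty decreasing list of levels below `t`. -/
def DecLt (t : ℕ) (μ : List ℕ) : Prop := μ ≠ [] ∧ (t :: μ).Pairwise (· > ·)

lemma DecLt.lt {t : ℕ} {μ : List ℕ} (h : DecLt t μ) : ∀ r ∈ μ, r < t :=
  (List.pairwise_cons.mp h.2).1

lemma DecLt.pw {t : ℕ} {μ : List ℕ} (h : DecLt t μ) : μ.Pairwise (· > ·) :=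
  (List.pairwise_cons.mp h.2).2

lemma DecLt.mono {t t' : ℕ} {μ : List ℕ} (h : DecLt t μ) (ht : t ≤ t') : DecLt t' μ :=
  ⟨h.1, List.pairwise_cons.mpr ⟨fun r hr => (h.lt r hr).trans_le ht, h.pw⟩⟩

lemma DecLt.pos {t : ℕ} {μ : List ℕ} (h : DecLt t μ) : 0 < t := by
  obtain ⟨r, hr⟩ := List.exists_mem_of_ne_nil μ h.1
  have := h.lt r hr
  omega

lemma DecLt.map {t : ℕ} {μ : List ℕ} (h : DecLt t μ) {ι : ℕ → ℕ} (hι : StrictMono ι) :
    DecLt (ι t) (μ.map ι) := by
  refine ⟨by simpa using h.1, ?_⟩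
  rw [← List.map_cons, List.pairwise_map]
  exact h.2.imp fun hab => hι hab

lemma dec_finite (n : ℕ) : {l : List ℕ | (n :: l).Pairwise (· > ·)}.Finite ∧
    ∀ l : List ℕ, (n :: l).Pairwise (· > ·) → l.length ≤ n := by
  induction n with
  | zero =>
    have : ∀ l : List ℕ, (0 :: l).Pairwise (· > ·) → l = [] := by
      intro l hl
      cases l with
      | nil => rfl
      | cons a l => exact absurd ((List.pairwise_cons.mp hl).1 a (by simp)) (by simp)
    exact ⟨(finite_singleton []).subset fun l hl => this l hl, fun l hl => by rw [this l hl]; rfl⟩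
  | succ n ih =>
    have : ∀ l : List ℕ, ((n + 1) :: l).Pairwise (· > ·) →
        (n :: l).Pairwise (· > ·) ∨ ∃ l', (n :: l').Pairwise (· > ·) ∧ l = n :: l' := by
      intro l hl
      cases l with
      | nil => left; simp
      | cons a l =>
        have h1 := List.pairwise_cons.mp hl
        have h2 := List.pairwise_cons.mp h1.2
        have h3 : a < n + 1 := h1.1 a (by simp)
        by_cases ha : a = n
        · subst ha; exact Or.inr ⟨l, h1.2, rfl⟩
        · refine Or.inl (List.pairwise_cons.mpr ⟨fun b hb => ?_, h1.2⟩)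
          rcases List.mem_cons.mp hb with rfl | hb
          · omega
          · have := h2.1 b hb; omega
    constructor
    · refine (ih.1.union (ih.1.image (List.cons n))).subset fun l hl => ?_
      rcases this l hl with h | ⟨l', h, rfl⟩
      · exact Or.inl h
      · exact Or.inr ⟨l', h, rfl⟩
    · intro l hl
      rcases this l hl with h | ⟨l', h, rfl⟩
      · have := ih.2 l h; omega
      · have := ih.2 l' h; simp; omega

lemma DecLt.length_le {t : ℕ} {μ : List ℕ} (h : DecLt t μ) : μ.length ≤ t :=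
  (dec_finite t).2 μ h.2

lemma decLt_finite (t : ℕ) : {μ | DecLt t μ}.Finite := (dec_finite t).1.subset fun _ h => h.2

/-- All demands up to level `n`. -/
def Full (n : ℕ) : Set (ℕ × List ℕ) := {d | d.1 ≤ n ∧ DecLt d.1 d.2}

lemma full_finite (n : ℕ) : (Full n).Finite :=
  ((finite_Iic n).prod (decLt_finite n)).subset fun _ hd => ⟨hd.1, hd.2.mono hd.1⟩

lemma map_inj_of {A : Type} [LinearOrder A] {n : ℕ} {e : ℕ → A} (he : StrictMonoOn e (Iic n)) :
    ∀ {l l' : List ℕ}, (∀ i ∈ l, i ≤ n) → (∀ i ∈ l', i ≤ n) → l.map e = l'.map e → l = l'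
  | [], [], _, _, _ => rfl
  | [], _ :: _, _, _, h => by simp at h
  | _ :: _, [], _, _, h => by simp at h
  | a :: l, b :: l', h1, h2, h => by
    simp only [List.map_cons, List.cons.injEq] at h
    rw [he.injOn (h1 a (by simp)) (h2 b (by simp)) h.1,
      map_inj_of he (fun i hi => h1 i (by simp [hi])) (fun i hi => h2 i (by simp [hi])) h.2]

section Greedy

variable (E : ℕ → Set (ℕ × List ℕ) → Prop) {A : Type} [LinearOrder A]

/-- All finite substructures of a demand system are realisable. -/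
def Ok (𝒜 : Set (A × List A)) : Prop :=
  ∀ n (e : ℕ → A) (D : Set (ℕ × List ℕ)), StrictMonoOn e (Iic n) → D ⊆ Full n →
    (∀ d ∈ D, (e d.1, d.2.map e) ∈ 𝒜) → E n D

theorem exists_greedy [WellFoundedLT A] (h0 : E 0 ∅)
    (h1 : ∀ n D, D ⊆ Full n → E n D → E (n + 1) D) :
    ∃ 𝒟 : Set (A × List A), Ok E 𝒟 ∧ ∀ l, l ∉ 𝒟 → ∃ c : ℕ × Set (ℕ × List ℕ) × List ℕ,
      c.2.1 ⊆ Full c.1 ∧ DecLt c.1 c.2.2 ∧ ¬ E c.1 (insert (c.1, c.2.2) c.2.1) ∧
      ∃ e : ℕ → A, StrictMonoOn e (Iic c.1) ∧ e c.1 = l.1 ∧ c.2.2.map e = l.2 ∧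
        ∀ d ∈ c.2.1, (e d.1, d.2.map e) ∈ 𝒟 := by
  classical
  let key : A × List A → A ×ₗ Cardinal.{0} := fun l => toLex (l.1, embeddingToCardinal l.2)
  have hkey : Function.Injective key := by
    intro a b hab
    have := toLex.injective hab
    simp only [Prod.mk.injEq] at this
    exact Prod.ext this.1 (embeddingToCardinal.injective this.2)
  have hwf : WellFounded fun a b : A × List A => key a < key b := InvImage.wf key wellFounded_lt
  let P : A × List A → Prop := hwf.fix fun l rec => Ok E (insert l {l' | ∃ h : key l' < key l, rec l' h})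
  have hP : ∀ l, P l ↔ Ok E (insert l {l' | key l' < key l ∧ P l'}) := by
    intro l
    have : P l = Ok E (insert l {l' | ∃ _ : key l' < key l, P l'}) := hwf.fix_eq _ l
    rw [this]
    simp only [exists_prop]
  have hE : ∀ n, E n ∅ := by
    intro n
    induction n with
    | zero => exact h0
    | succ n ih => exact h1 n ∅ (empty_subset _) ih
  have hok : Ok E {l | P l} := by
    intro n e D he hD hD'
    rcases D.eq_empty_or_nonempty with rfl | hne
    · exact hE n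
    obtain ⟨d, hd, hmax⟩ := exists_max_image D (fun d => key (e d.1, d.2.map e))
      ((full_finite n).subset hD) hne
    refine (hP _).mp (hD' d hd) n e D he hD fun d' hd' => ?_
    rcases (hmax d' hd').eq_or_lt with h | h
    · exact Or.inl (hkey h)
    · exact Or.inr ⟨h, hD' d' hd'⟩
  refine ⟨{l | P l}, hok, fun l hl => ?_⟩
  have hex : ∃ n, ∃ (e : ℕ → A) (D : Set (ℕ × List ℕ)), StrictMonoOn e (Iic n) ∧ D ⊆ Full n ∧
      (∀ d ∈ D, (e d.1, d.2.map e) ∈ insert l {l' | key l' < key l ∧ P l'}) ∧ ¬ E n D := by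
    by_contra h
    push Not at h
    exact hl ((hP l).mpr h)
  obtain ⟨e, D, he, hD, hD', hnE⟩ := Nat.find_spec hex
  have hmin := fun m (hm : m < Nat.find hex) => Nat.find_min hex hm
  generalize Nat.find hex = n at *
  have ht : ∃ d ∈ D, d.1 = n := by
    by_contra h
    push Not at h
    cases n with
    | zero =>
      have : D = ∅ := eq_empty_of_forall_notMem fun d hd => h d hd (Nat.le_zero.mp (hD hd).1)
      exact hnE (this ▸ h0)
    | succ n =>
      have hD2 : D ⊆ Full n := fun d hd =>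
        ⟨by have := (hD hd).1; have := h d hd; omega, (hD hd).2⟩
      refine hnE (h1 n D hD2 ?_)
      by_contra h2
      exact hmin n (Nat.lt_succ_self n)
        ⟨e, D, he.mono (Iic_subset_Iic.mpr (Nat.le_succ n)), hD2, hD', h2⟩
  obtain ⟨d, hd, hdn⟩ := ht
  have hle : e n ≤ l.1 := by
    rcases hD' d hd with h | h
    · rw [← h, hdn]
    · have := h.1
      simp only [key, Prod.Lex.toLex_lt_toLex, hdn] at this
      rcases this with h | h
      · exact h.le
      · exact h.1.le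
  have hl' : ∃ d' ∈ D, (e d'.1, d'.2.map e) = l := by
    by_contra h
    push Not at h
    exact hnE (hok n e D he hD fun d' hd' => ((hD' d' hd').resolve_left (h d' hd')).2)
  obtain ⟨⟨t, μ⟩, hd', rfl⟩ := hl'
  have htn : t = n := le_antisymm (hD hd').1 ((he.le_iff_le (mem_Iic.mpr le_rfl) (hD hd').1).mp hle)
  subst htn
  refine ⟨(t, D \ {(t, μ)}, μ), fun x hx => hD hx.1, (hD hd').2, ?_, e, he, rfl, rfl, ?_⟩
  · rwa [insert_sdiff_singleton, insert_eq_of_mem hd']
  · rintro ⟨s, ν⟩ ⟨hx, hx'⟩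
    refine ((hD' _ hx).resolve_left fun h => hx' ?_).2
    simp only [Prod.mk.injEq] at h
    have e1 : s = t := he.injOn (hD hx).1 (mem_Iic.mpr le_rfl) h.1
    have e2 : ν = μ := map_inj_of he (fun i hi => ((hD hx).2.lt i hi).le.trans (hD hx).1)
      (fun i hi => ((hD hd').2.lt i hi).le) h.2
    rw [e1, e2]; rfl

end Greedy

/-- The dichotomy: complete structures of every height, or one obstruction met by all tuples. -/
theorem greedy_dichotomy (E : ℕ → Set (ℕ × List ℕ) → Prop) (h0 : E 0 ∅)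
    (h1 : ∀ n D, D ⊆ Full n → E n D → E (n + 1) D) :
    (∀ r, E r (Full r)) ∨ ∃ (n : ℕ) (D : Set (ℕ × List ℕ)) (μ₀ : List ℕ), D ⊆ Full n ∧
      DecLt n μ₀ ∧ ¬ E n (insert (n, μ₀) D) ∧ ∀ N, ∃ (M : ℕ) (D' : Set (ℕ × List ℕ)) (η : ℕ → ℕ),
        D' ⊆ Full M ∧ E M D' ∧ StrictMono η ∧ η N ≤ M ∧
        (∀ t μ, t ≤ N → DecLt t μ → μ.length < μ₀.length → (η t, μ.map η) ∈ D') ∧
        (∀ t μ, t ≤ N → DecLt t μ → μ.length = μ₀.length → ∃ ι : ℕ → ℕ, StrictMono ι ∧
          ι n = η t ∧ μ₀.map ι = μ.map η ∧ ∀ d ∈ D, (ι d.1, d.2.map ι) ∈ D') := by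
  classical
  rw [or_iff_not_imp_left]
  intro hr
  push Not at hr
  obtain ⟨r, hr⟩ := hr
  obtain ⟨A, _, _, -, hA⟩ := exists_hom (r + 1) (Option (ℕ × Set (ℕ × List ℕ) × List ℕ)) ℕ
  obtain ⟨𝒟, hok, h𝒟⟩ := exists_greedy E (A := A) h0 h1
  choose! c hc using h𝒟
  obtain ⟨H, hH, hH'⟩ := hA fun l => match l with
    | [] => none
    | t :: μ => if (t, μ) ∈ 𝒟 then none else some (c (t, μ))
  have hex : ∃ h, h ≤ r ∧ ∃ t μ, DecLt t μ ∧ μ.length = h ∧ (H t, μ.map H) ∉ 𝒟 := by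
    by_contra h
    push Not at h
    exact hr (hok r H _ (hH.strictMonoOn _) subset_rfl fun d hd =>
      h _ (hd.2.length_le.trans hd.1) _ _ hd.2 rfl)
  obtain ⟨hh, t₀, ν₀, hν, hνl, hνD⟩ := Nat.find_spec hex
  have hmin := fun m (hm : m < Nat.find hex) => Nat.find_min hex hm
  generalize Nat.find hex = h at *
  have hall : ∀ t μ, DecLt t μ → μ.length = h →
      (H t, μ.map H) ∉ 𝒟 ∧ c (H t, μ.map H) = c (H t₀, ν₀.map H) := by
    intro t μ hμ hl
    have := hH' (t :: μ) (t₀ :: ν₀) hμ.2 hν.2 (by simp [hl, hνl]) (by simp; omega)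
    simp only [List.map_cons, if_neg hνD] at this
    by_cases h2 : (H t, μ.map H) ∈ 𝒟
    · rw [if_pos h2] at this; cases this
    · rw [if_neg h2] at this; exact ⟨h2, Option.some.inj this⟩
  obtain ⟨c1, c2, c3, e₀, -, -, c4, -⟩ := hc _ hνD
  have hlen : (c (H t₀, ν₀.map H)).2.2.length = h := by
    have := congrArg List.length c4
    simpa [hνl] using this
  set n := (c (H t₀, ν₀.map H)).1
  set D := (c (H t₀, ν₀.map H)).2.1
  set μ₀ := (c (H t₀, ν₀.map H)).2.2
  refine ⟨n, D, μ₀, c1, c2, c3, fun N => ?_⟩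
  have hch : ∀ d : ℕ × List ℕ, ∃ e : ℕ → A, DecLt d.1 d.2 → d.2.length = h →
      StrictMonoOn e (Iic n) ∧ e n = H d.1 ∧ μ₀.map e = d.2.map H ∧
        ∀ x ∈ D, (e x.1, x.2.map e) ∈ 𝒟 := by
    intro d
    by_cases hd : DecLt d.1 d.2 ∧ d.2.length = h
    · obtain ⟨h2, h3⟩ := hall _ _ hd.1 hd.2
      obtain ⟨-, -, -, e, he⟩ := hc _ h2
      rw [h3] at he
      exact ⟨e, fun _ _ => he⟩
    · exact ⟨H, fun h2 h3 => absurd ⟨h2, h3⟩ hd⟩
  choose e he using hch
  obtain ⟨M, e', he', hG⟩ := exists_enum_fin (H '' Iic N ∪ ⋃ d ∈ Full N, e d '' Iic n)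
    (((finite_Iic N).image _).union ((full_finite N).biUnion fun d _ => (finite_Iic n).image _))
    ⟨H 0, Or.inl ⟨0, Nat.zero_le N, rfl⟩⟩
  obtain ⟨η, hη, hη'⟩ := exists_pullback he' (hH.strictMonoOn (Iic N))
    fun i hi => hG _ (Or.inl ⟨i, hi, rfl⟩)
  have hmapη : ∀ t μ, t ≤ N → DecLt t μ → (μ.map η).map e' = μ.map H := by
    intro t μ ht hμ
    rw [List.map_map]
    exact List.map_congr_left fun i hi => (hη' i ((hμ.lt i hi).le.trans ht)).2
  refine ⟨M, {d | d ∈ Full M ∧ (e' d.1, d.2.map e') ∈ 𝒟}, η, fun d hd => hd.1,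
    hok M e' _ he' (fun d hd => hd.1) fun d hd => hd.2, hη, (hη' N le_rfl).1, ?_, ?_⟩
  · intro t μ ht hμ hl
    refine ⟨⟨(hη' t ht).1, hμ.map hη⟩, ?_⟩
    simp only
    rw [hmapη t μ ht hμ, (hη' t ht).2]
    by_contra h2
    exact hmin μ.length (by omega) ⟨by omega, t, μ, hμ, rfl, h2⟩
  · intro t μ ht hμ hl
    obtain ⟨g1, g2, g3, g4⟩ := he (t, μ) hμ (by simp only; omega)
    obtain ⟨ι, hι, hι'⟩ := exists_pullback he' g1
      fun i hi => hG _ (Or.inr (mem_biUnion (x := (t, μ)) ⟨ht, hμ⟩ ⟨i, hi, rfl⟩))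
    have hmapι : ∀ s ν, s ≤ n → DecLt s ν → (ν.map ι).map e' = ν.map (e (t, μ)) := by
      intro s ν hs hν
      rw [List.map_map]
      exact List.map_congr_left fun i hi => (hι' i ((hν.lt i hi).le.trans hs)).2
    refine ⟨ι, hι, he'.injOn (hι' n le_rfl).1 (hη' t ht).1 ?_, map_inj_of he' ?_ ?_ ?_, ?_⟩
    · rw [(hι' n le_rfl).2, (hη' t ht).2, g2]
    · intro i hi
      obtain ⟨k, hk, rfl⟩ := List.mem_map.mp hi
      exact (hι' k (c2.lt k hk).le).1
    · intro i hi
      obtain ⟨k, hk, rfl⟩ := List.mem_map.mp hi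
      exact (hη' k ((hμ.lt k hk).le.trans ht)).1
    · rw [hmapι n μ₀ le_rfl c2, hmapη t μ ht hμ, g3]
    · intro d hd
      refine ⟨⟨(hι' _ (c1 hd).1).1, (c1 hd).2.map hι⟩, ?_⟩
      simp only
      rw [hmapι _ _ (c1 hd).1 (c1 hd).2, (hι' _ (c1 hd).1).2]
      exact g4 d hd

end Pool.Agent.MP_71094f_lc.H37
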