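import Mathlib
import Pool.Agent.MP_71094f_lc.H37Greedy

set_option autoImplicit false

/-!
Measured trees of finite rank, descents, collapses and level words.
-/

namespace Pool.Agent.MP_71094f_lc.H37

open Filter Set

/-- Measured trees of a given rank. -/
def Nd (Ω : Type) : ℕ → Type
  | 0 => Ω
  | n + 1 => Ω × Ultrafilter (Nd Ω n)

/-- Measured trees. -/
def Node (Ω : Type) : Type := Σ n, Nd Ω n

variable {Ω : Type}

lemma ev_bind {α β : Type} (f : Ultrafilter α) (m : α → Ultrafilter β) (p : β → Prop) :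
    (∀ᶠ y in (f.bind m : Filter β), p y) ↔ ∀ᶠ x in (f : Filter α), ∀ᶠ y in (m x : Filter β), p y :=
  Iff.rfl

lemma ev_map {α β : Type} (f : Ultrafilter α) (m : α → β) (p : β → Prop) :
    (∀ᶠ y in (f.map m : Filter β), p y) ↔ ∀ᶠ x in (f : Filter α), p (m x) :=
  Iff.rfl

lemma ev_pure {α : Type} (a : α) (p : α → Prop) :
    (∀ᶠ y in ((pure a : Ultrafilter α) : Filter α), p y) ↔ p a :=
  Iff.rfl

lemma uext {α : Type} {f g : Ultrafilter α}
    (h : ∀ p : α → Prop, (∀ᶠ y in (f : Filter α), p y) ↔ ∀ᶠ y in (g : Filter α), p y) : f = g := by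
  apply Ultrafilter.coe_injective
  ext s
  exact h fun y => y ∈ s

namespace Node

/-- The rank. -/
def rank (x : Node Ω) : ℕ := x.1

/-- The apex. -/
def apex : Node Ω → Ω
  | ⟨0, w⟩ => w
  | ⟨_ + 1, z⟩ => z.1

/-- The ultrafilter of children. -/
def ch : Node Ω → Ultrafilter (Node Ω)
  | ⟨0, w⟩ => pure ⟨0, w⟩
  | ⟨n + 1, z⟩ => z.2.map (Sigma.mk n)

/-- A leaf. -/
def leaf (w : Ω) : Node Ω := ⟨0, w⟩

/-- A default tree. -/
def dflt (w : Ω) : ∀ n, Nd Ω n
  | 0 => w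
  | n + 1 => (w, pure (dflt w n))

/-- Retraction to a given rank. -/
def retr (w : Ω) (n : ℕ) (x : Node Ω) : Nd Ω n := if h : x.1 = n then h ▸ x.2 else dflt w n

/-- A tree with a given apex and ultrafilter of children. -/
def mk (w : Ω) (n : ℕ) (U : Ultrafilter (Node Ω)) : Node Ω := ⟨n + 1, (w, U.map (retr w n))⟩

@[simp] lemma rank_leaf (w : Ω) : (leaf w).rank = 0 := rfl
@[simp] lemma apex_leaf (w : Ω) : (leaf w).apex = w := rfl
@[simp] lemma rank_mk (w : Ω) (n : ℕ) (U : Ultrafilter (Node Ω)) : (mk w n U).rank = n + 1 := rfl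
@[simp] lemma apex_mk (w : Ω) (n : ℕ) (U : Ultrafilter (Node Ω)) : (mk w n U).apex = w := rfl

lemma ch_mk (w : Ω) (n : ℕ) (U : Ultrafilter (Node Ω)) (h : ∀ᶠ x in (U : Filter (Node Ω)), x.rank = n) :
    (mk w n U).ch = U := by
  refine uext fun p => ?_
  change (∀ᶠ x in (U : Filter (Node Ω)), p ⟨n, retr w n x⟩) ↔ _
  refine eventually_congr (h.mono ?_)
  rintro ⟨m, x⟩ rfl
  simp [retr, rank]

lemma rank_ch : ∀ x : Node Ω, 0 < x.rank → ∀ᶠ c in (x.ch : Filter (Node Ω)), c.rank + 1 = x.rank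
  | ⟨0, _⟩, h => absurd h (lt_irrefl 0)
  | ⟨_ + 1, z⟩, _ => (ev_map z.2 _ _).mpr (Eventually.of_forall fun _ => rfl)

/-- Descent by a number of steps. -/
def descN : ℕ → Node Ω → Ultrafilter (Node Ω)
  | 0, x => pure x
  | k + 1, x => x.ch.bind (descN k)

/-- Descent to a given level. -/
def desc (x : Node Ω) (r : ℕ) : Ultrafilter (Node Ω) := descN (x.rank - r) x

lemma desc_of_le {x : Node Ω} {r : ℕ} (h : x.rank ≤ r) : x.desc r = pure x := by
  unfold desc; rw [Nat.sub_eq_zero_of_le h]; rfl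

lemma ev_desc_of_le {x : Node Ω} {r : ℕ} (h : x.rank ≤ r) (P : Node Ω → Prop) :
    (∀ᶠ c in (x.desc r : Filter (Node Ω)), P c) ↔ P x := by
  rw [desc_of_le h, ev_pure]

lemma ev_desc_of_lt {x : Node Ω} {r : ℕ} (h : r < x.rank) (P : Node Ω → Prop) :
    (∀ᶠ c in (x.desc r : Filter (Node Ω)), P c) ↔
      ∀ᶠ d in (x.ch : Filter (Node Ω)), ∀ᶠ c in (d.desc r : Filter (Node Ω)), P c := by
  obtain ⟨k, hk⟩ : ∃ k, x.rank - r = k + 1 := ⟨x.rank - r - 1, by omega⟩
  unfold desc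
  rw [hk, descN, ev_bind]
  refine eventually_congr ((rank_ch x (by omega)).mono fun d hd => ?_)
  rw [show d.rank - r = k by omega]

/-- Induction along descents. -/
lemma desc_ind {P : Node Ω → Prop} (hP : ∀ x, P x → 0 < x.rank → ∀ᶠ c in (x.ch : Filter (Node Ω)), P c)
    (r : ℕ) (x : Node Ω) (hx : P x) : ∀ᶠ c in (x.desc r : Filter (Node Ω)), P c := by
  induction h : x.rank generalizing x with
  | zero => rwa [ev_desc_of_le (by omega)]
  | succ n ih =>
    by_cases hr : r < x.rank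
    · rw [ev_desc_of_lt hr]
      filter_upwards [hP x hx (by omega), rank_ch x (by omega)] with d h1 h2
      exact ih d h1 (by omega)
    · rwa [ev_desc_of_le (by omega)]

lemma desc_rank (x : Node Ω) (r : ℕ) :
    ∀ᶠ c in (x.desc r : Filter (Node Ω)), c.rank = min r x.rank := by
  induction h : x.rank generalizing x with
  | zero => rw [ev_desc_of_le (by omega)]; omega
  | succ n ih =>
    by_cases hr : r < x.rank
    · rw [ev_desc_of_lt hr]
      filter_upwards [rank_ch x (by omega)] with d h2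
      exact (ih d (by omega)).mono fun c hc => by omega
    · rw [ev_desc_of_le (by omega)]; omega

lemma ev_desc_desc {r s : ℕ} (hrs : r ≤ s) (x : Node Ω) (P : Node Ω → Prop) :
    (∀ᶠ c in (x.desc r : Filter (Node Ω)), P c) ↔
      ∀ᶠ d in (x.desc s : Filter (Node Ω)), ∀ᶠ c in (d.desc r : Filter (Node Ω)), P c := by
  induction h : x.rank generalizing x with
  | zero => rw [ev_desc_of_le (r := s) (by omega)]
  | succ n ih =>
    by_cases hs : s < x.rank
    · rw [ev_desc_of_lt hs, ev_desc_of_lt (hrs.trans_lt hs)]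
      refine eventually_congr ((rank_ch x (by omega)).mono fun d hd => ih d (by omega))
    · rw [ev_desc_of_le (r := s) (by omega)]

lemma ev_ch {x : Node Ω} {r : ℕ} (h : x.rank = r + 1) (P : Node Ω → Prop) :
    (∀ᶠ c in (x.ch : Filter (Node Ω)), P c) ↔ ∀ᶠ c in (x.desc r : Filter (Node Ω)), P c := by
  rw [ev_desc_of_lt (by omega)]
  exact eventually_congr ((rank_ch x (by omega)).mono fun d hd => (ev_desc_of_le (by omega) P).symm)

/-- The collapse of a tree to the levels enumerated by `ι`. -/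
def col (ι : ℕ → ℕ) : ℕ → Node Ω → Node Ω
  | 0, b => leaf b.apex
  | t + 1, b => mk b.apex t ((b.desc (ι t)).map (col ι t))

@[simp] lemma rank_col (ι : ℕ → ℕ) : ∀ (t : ℕ) (b : Node Ω), (col ι t b).rank = t
  | 0, _ => rfl
  | _ + 1, _ => rfl

@[simp] lemma apex_col (ι : ℕ → ℕ) : ∀ (t : ℕ) (b : Node Ω), (col ι t b).apex = b.apex
  | 0, _ => rfl
  | _ + 1, _ => rfl

lemma ch_col (ι : ℕ → ℕ) (t : ℕ) (b : Node Ω) :
    (col ι (t + 1) b).ch = (b.desc (ι t)).map (col ι t) :=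
  ch_mk _ _ _ ((ev_map _ _ _).mpr (Eventually.of_forall fun c => rank_col ι t c))

lemma ev_desc_col_lt {ι : ℕ → ℕ} (hι : StrictMono ι) {r : ℕ} (P : Node Ω → Prop) :
    ∀ (t : ℕ) (b : Node Ω), r < t → ((∀ᶠ c in ((col ι t b).desc r : Filter (Node Ω)), P c) ↔
      ∀ᶠ c in (b.desc (ι r) : Filter (Node Ω)), P (col ι r c))
  | 0, _, h => absurd h (Nat.not_lt_zero r)
  | t + 1, b, h => by
    rw [ev_desc_of_lt (by simpa using h), ch_col, ev_map]
    by_cases hr : r = t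
    · subst hr
      exact eventually_congr (Eventually.of_forall fun c => ev_desc_of_le (by simp) P)
    · rw [ev_desc_desc (hι.monotone (by omega : r ≤ t)) b]
      exact eventually_congr (Eventually.of_forall fun c => ev_desc_col_lt hι P t c (by omega))

lemma ev_desc_col {ι : ℕ → ℕ} (hι : StrictMono ι) {t : ℕ} {b : Node Ω} (hb : b.rank = ι t) (r : ℕ)
    (P : Node Ω → Prop) : (∀ᶠ c in ((col ι t b).desc r : Filter (Node Ω)), P c) ↔
      ∀ᶠ c in (b.desc (ι r) : Filter (Node Ω)), P (col ι (min r t) c) := by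
  by_cases h : r < t
  · rw [ev_desc_col_lt hι P t b h, min_eq_left h.le]
  · rw [ev_desc_of_le (by simp; omega), ev_desc_of_le (hb ▸ hι.monotone (by omega)),
      min_eq_right (by omega)]

lemma desc_rank_col {ι : ℕ → ℕ} (hι : StrictMono ι) {t : ℕ} {b : Node Ω} (hb : b.rank = ι t) (r : ℕ) :
    ∀ᶠ c in (b.desc (ι r) : Filter (Node Ω)), c.rank = ι (min r t) :=
  (desc_rank b (ι r)).mono fun c hc => by rw [hc, hb, hι.monotone.map_min]

lemma col_congr {ι ι' : ℕ → ℕ} : ∀ (t : ℕ) (b : Node Ω), (∀ i, i < t → ι i = ι' i) →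
    col ι t b = col ι' t b
  | 0, _, _ => rfl
  | t + 1, b, h => by
    have : (col ι t : Node Ω → Node Ω) = col ι' t :=
      funext fun c => col_congr t c fun i hi => h i (by omega)
    rw [col, col, this, h t (by omega)]

lemma col_col {ι ν : ℕ → ℕ} (hι : StrictMono ι) (hν : StrictMono ν) :
    ∀ (s t : ℕ) (b : Node Ω), (∀ i, i < s → ν i < t) → col ν s (col ι t b) = col (ι ∘ ν) s b
  | 0, _, _, _ => by simp [col]
  | s + 1, t, b, h => by
    rw [col, col, apex_col]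
    congr 1
    refine uext fun P => ?_
    rw [ev_map, ev_map, ev_desc_col_lt hι _ t b (h s (by omega))]
    refine eventually_congr (Eventually.of_forall fun c => ?_)
    rw [col_col hι hν s (ν s) c fun i hi => hν hi]

end Node

open Node

variable (B : Ω → Ω → Ω → Prop)

/-- Blue wins along a level word: the middle token moves, then the lower token, and so on. -/
def H : Node Ω → Node Ω → List (ℕ × ℕ) → Ω → Prop
  | p, v, [], y => B p.apex v.apex y
  | p, v, e :: ω, y => ∀ᶠ c in (v.desc e.1 : Filter (Node Ω)),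
      ∀ᶠ q in (p.desc e.2 : Filter (Node Ω)), H q c ω y

variable {B}

lemma H_nil (p v : Node Ω) (y : Ω) : H B p v [] y ↔ B p.apex v.apex y := Iff.rfl

lemma H_cons (p v : Node Ω) (r a : ℕ) (ω : List (ℕ × ℕ)) (y : Ω) : H B p v ((r, a) :: ω) y ↔
    ∀ᶠ c in (v.desc r : Filter (Node Ω)), ∀ᶠ q in (p.desc a : Filter (Node Ω)), H B q c ω y :=
  Iff.rfl

lemma H_desc {p v : Node Ω} {r a s : ℕ} (h : r ≤ s) (ω : List (ℕ × ℕ)) (y : Ω) :
    H B p v ((r, a) :: ω) y ↔ ∀ᶠ c in (v.desc s : Filter (Node Ω)), H B p c ((r, a) :: ω) y := by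
  simp only [H_cons]
  exact ev_desc_desc h v _

lemma H_ch {p v : Node Ω} {r a : ℕ} (h : r < v.rank) (ω : List (ℕ × ℕ)) (y : Ω) :
    H B p v ((r, a) :: ω) y ↔ ∀ᶠ c in (v.ch : Filter (Node Ω)), H B p c ((r, a) :: ω) y := by
  simp only [H_cons]
  exact ev_desc_of_lt h _

lemma H_colM {ι : ℕ → ℕ} (hι : StrictMono ι) (y : Ω) : ∀ (ω : List (ℕ × ℕ)) (p v : Node Ω) (t : ℕ),
    v.rank = ι t → (H B p (col ι t v) ω y ↔ H B p v (ω.map (Prod.map ι id)) y)
  | [], p, v, t, _ => by simp [H_nil]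
  | (r, a) :: ω, p, v, t, hv => by
    rw [List.map_cons, Prod.map_apply, H_cons, H_cons, ev_desc_col hι hv]
    refine eventually_congr ((desc_rank_col hι hv r).mono fun c hc => ?_)
    exact eventually_congr (Eventually.of_forall fun q => H_colM hι y ω q c _ hc)

lemma H_col {ι : ℕ → ℕ} (hι : StrictMono ι) (y : Ω) :
    ∀ (ω : List (ℕ × ℕ)) (p v : Node Ω) (s t : ℕ), p.rank = ι s → v.rank = ι t →
      (H B (col ι s p) (col ι t v) ω y ↔ H B p v (ω.map (Prod.map ι ι)) y)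
  | [], p, v, s, t, _, _ => by simp [H_nil]
  | (r, a) :: ω, p, v, s, t, hp, hv => by
    rw [List.map_cons, Prod.map_apply, H_cons, H_cons, ev_desc_col hι hv]
    refine eventually_congr ((desc_rank_col hι hv r).mono fun c hc => ?_)
    rw [ev_desc_col hι hp]
    exact eventually_congr ((desc_rank_col hι hp a).mono fun q hq => H_col hι y ω q c _ _ hq hc)

lemma H_zip_col {ι : ℕ → ℕ} (hι : StrictMono ι) (y : Ω) (μ α : List ℕ) (p v : Node Ω) (t : ℕ)
    (hv : v.rank = ι t) : H B p (col ι t v) (μ.zip α) y ↔ H B p v ((μ.map ι).zip α) y := by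
  rw [H_colM hι y _ p v t hv, List.zip_map_left]

lemma H_zip_ch {p v : Node Ω} {μ α : List ℕ} (h : DecLt v.rank μ) (hl : α.length = μ.length) (y : Ω) :
    H B p v (μ.zip α) y ↔ ∀ᶠ c in (v.ch : Filter (Node Ω)), H B p c (μ.zip α) y := by
  match μ, α, h, hl with
  | [], _, h, _ => exact absurd rfl h.1
  | r :: μ, a :: α, h, _ => exact H_ch (h.lt r (by simp)) _ y

lemma H_zip_desc {p v : Node Ω} {μ α : List ℕ} {s : ℕ} (h : DecLt (s + 1) μ)
    (hl : α.length = μ.length) (y : Ω) :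
    H B p v (μ.zip α) y ↔ ∀ᶠ c in (v.desc s : Filter (Node Ω)), H B p c (μ.zip α) y := by
  match μ, α, h, hl with
  | [], _, h, _ => exact absurd rfl h.1
  | r :: μ, a :: α, h, _ => exact H_desc (Nat.lt_succ_iff.mp (h.lt r (by simp))) _ y

/-- Normal words. -/
inductive Norm : ℕ → ℕ → List (ℕ × ℕ) → Prop
  | last (i j : ℕ) : Norm i j [(0, 0)]
  | cons {i j r a : ℕ} {ω : List (ℕ × ℕ)} : r < j → a < i → Norm a r ω → Norm i j ((r + 1, a) :: ω)

lemma Norm.mono {i j j' : ℕ} {ω : List (ℕ × ℕ)} (h : Norm i j ω) (hj : j ≤ j') : Norm i j' ω := by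
  cases h with
  | last => exact Norm.last _ _
  | cons h1 h2 h3 => exact Norm.cons (h1.trans_le hj) h2 h3

lemma norm_finite : ∀ j i : ℕ, {ω | Norm i j ω}.Finite := by
  intro j
  induction j using Nat.strong_induction_on with
  | _ j ih =>
  intro i
  refine (((finite_Iio j).prod (finite_Iio i)).biUnion (t := fun e : ℕ × ℕ =>
    List.cons (e.1 + 1, e.2) '' {ω | Norm e.2 e.1 ω}) fun e he => (ih e.1 he.1 e.2).image _).insert
    [(0, 0)] |>.subset fun ω hω => ?_
  cases hω with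
  | last => exact Or.inl rfl
  | @cons _ _ r a ω h1 h2 h3 => exact Or.inr (mem_biUnion (x := (r, a)) ⟨h1, h2⟩ ⟨ω, h3, rfl⟩)

lemma Norm.decLt {i j : ℕ} {ω : List (ℕ × ℕ)} (h : Norm i j ω) : DecLt (j + 1) (ω.map Prod.fst) := by
  induction h with
  | last => exact ⟨by simp, by simp⟩
  | cons h1 _ _ ih =>
    refine ⟨by simp, List.pairwise_cons.mpr ⟨fun s hs => ?_, ih.2⟩⟩
    rcases List.mem_cons.mp hs with rfl | hs
    · simp only; omega
    · have := ih.lt s hs; omega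

lemma Norm.le {i j : ℕ} {ω : List (ℕ × ℕ)} (h : Norm i j ω) : ∀ e ∈ ω, e.1 ≤ j ∧ e.2 ≤ i := by
  induction h with
  | last => simp
  | cons h1 h2 _ ih =>
    intro e he
    rcases List.mem_cons.mp he with rfl | he
    · simp only; omega
    · have := ih e he; omega

variable (B)

/-- Blue wins the pair game. -/
def Win (p v : Node Ω) (y : Ω) : Prop := ∃ ω, Norm p.rank v.rank ω ∧ H B p v ω y

/-- Words for a game that starts with a split of the two lower tokens. -/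
def AWord (s : ℕ) (ω : List (ℕ × ℕ)) : Prop :=
  ∃ r a ω₀, s = r + 1 ∧ a < s ∧ Norm a r ω₀ ∧ ω = (s, a) :: ω₀

variable {B}

lemma AWord.norm {s : ℕ} {ω : List (ℕ × ℕ)} (h : AWord s ω) : Norm s s ω := by
  obtain ⟨r, a, ω₀, rfl, h1, h2, rfl⟩ := h
  exact Norm.cons (Nat.lt_succ_self r) h1 h2

lemma aWord_finite (s : ℕ) : {ω | AWord s ω}.Finite := (norm_finite s s).subset fun _ h => h.norm

lemma ev_exists_finite {α β : Type} (U : Ultrafilter α) {s : Set β} (hs : s.Finite)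
    {P : β → α → Prop} (h : ∀ᶠ x in (U : Filter α), ∃ b ∈ s, P b x) :
    ∃ b ∈ s, ∀ᶠ x in (U : Filter α), P b x :=
  (Ultrafilter.eventually_exists_mem_iff hs).mp h

lemma win_M_gen {p : Node Ω} {y : Ω} (U : Ultrafilter (Node Ω)) {j : ℕ}
    (hU : ∀ᶠ c in (U : Filter (Node Ω)), c.rank = j) (h : ∀ᶠ c in (U : Filter (Node Ω)), Win B p c y) :
    ∃ ω, Norm p.rank j ω ∧ ∀ᶠ c in (U : Filter (Node Ω)), H B p c ω y := by
  refine ev_exists_finite U (norm_finite j p.rank) ?_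
  filter_upwards [hU, h] with c h1 h2
  obtain ⟨ω, h3, h4⟩ := h2
  exact ⟨ω, h1 ▸ h3, h4⟩

lemma win_M {p v : Node Ω} {y : Ω} (hv : 0 < v.rank) (h : ¬ Win B p v y) :
    ∀ᶠ c in (v.ch : Filter (Node Ω)), ¬ Win B p c y := by
  rw [Ultrafilter.eventually_not]
  intro h1
  obtain ⟨ω, h2, h3⟩ := win_M_gen v.ch (j := v.rank - 1)
    ((rank_ch v hv).mono fun c hc => by omega) h1
  refine h ⟨ω, h2.mono (by omega), ?_⟩
  cases h2 with
  | last => exact (H_ch hv _ y).mpr h3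
  | cons h4 _ _ => exact (H_ch (by omega) _ y).mpr h3

lemma win_L_gen {p v : Node Ω} {y : Ω} (hp : 0 < p.rank)
    (h : ∀ᶠ q in (p.ch : Filter (Node Ω)), Win B q v y) :
    (v.rank = 0 ∧ H B p v [(0, 0)] y) ∨ ∃ r a ω₀, v.rank = r + 1 ∧ a < p.rank ∧ Norm a r ω₀ ∧
      H B p v ((r + 1, a) :: ω₀) y := by
  obtain ⟨i, hi⟩ : ∃ i, p.rank = i + 1 := ⟨p.rank - 1, by omega⟩
  obtain ⟨ω, h2, h3⟩ : ∃ ω ∈ {ω | Norm i v.rank ω}, ∀ᶠ q in (p.ch : Filter (Node Ω)), H B q v ω y := by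
    refine ev_exists_finite p.ch (norm_finite v.rank i) ?_
    filter_upwards [rank_ch p hp, h] with q h1 h2
    obtain ⟨ω, h3, h4⟩ := h2
    exact ⟨ω, by rwa [show q.rank = i by omega] at h3, h4⟩
  have merge : ∀ a ω₀, a ≤ i → (∀ᶠ q in (p.ch : Filter (Node Ω)), H B q v ((v.rank, a) :: ω₀) y) →
      H B p v ((v.rank, a) :: ω₀) y := by
    intro a ω₀ ha h4
    rw [H_cons, ev_desc_of_le le_rfl, ev_desc_of_lt (by omega)]
    exact h4.mono fun q hq => by rwa [H_cons, ev_desc_of_le le_rfl] at hq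
  have add : ∀ ω₀, (∀ᶠ q in (p.ch : Filter (Node Ω)), H B q v ω₀ y) →
      H B p v ((v.rank, i) :: ω₀) y := by
    intro ω₀ h4
    rw [H_cons, ev_desc_of_le le_rfl, ← ev_ch hi]
    exact h4
  rcases hr : v.rank with _ | r
  · left
    rw [hr] at h2 merge
    cases h2 with
    | last => exact ⟨rfl, merge 0 [] (Nat.zero_le i) h3⟩
    | cons h4 _ _ => omega
  · right
    rw [hr] at h2 merge add
    cases h2 with
    | last => exact ⟨r, i, _, rfl, by omega, Norm.last _ _, add _ h3⟩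
    | @cons _ _ r' a ω₀ h4 h5 h6 =>
      by_cases h7 : r' = r
      · subst h7
        exact ⟨r', a, ω₀, rfl, by omega, h6, merge a ω₀ h5.le h3⟩
      · exact ⟨r, i, _, rfl, by omega, Norm.cons (by omega) h5 h6, add _ h3⟩

lemma win_L {p v : Node Ω} {y : Ω} (hp : 0 < p.rank) (h : ¬ Win B p v y) :
    ∀ᶠ q in (p.ch : Filter (Node Ω)), ¬ Win B q v y := by
  rw [Ultrafilter.eventually_not]
  intro h1
  rcases win_L_gen hp h1 with ⟨_, h3⟩ | ⟨r, a, ω₀, h2, h3, h4, h5⟩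
  · exact h ⟨_, Norm.last _ _, h3⟩
  · exact h ⟨_, Norm.cons (by omega) h3 h4, h5⟩

lemma win_A {p : Node Ω} {y : Ω} (hp : 0 < p.rank) (h : ∀ ω, AWord p.rank ω → ¬ H B p p ω y) :
    ∀ᶠ q in (p.ch : Filter (Node Ω)), ¬ Win B q p y := by
  rw [Ultrafilter.eventually_not]
  intro h1
  rcases win_L_gen hp h1 with ⟨h2, _⟩ | ⟨r, a, ω₀, h2, h3, h4, h5⟩
  · omega
  · exact h _ ⟨r, a, ω₀, h2, h3, h4, by rw [h2]⟩ h5

lemma win_leaf {p v : Node Ω} {y : Ω} (hp : p.rank = 0) (hv : v.rank = 0) (h : ¬ Win B p v y) :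
    ¬ B p.apex v.apex y := fun h1 =>
  h ⟨_, Norm.last _ _, by rwa [H_cons, ev_desc_of_le hv.le, ev_desc_of_le hp.le]⟩

end Pool.Agent.MP_71094f_lc.H37
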