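import Mathlib
import Pool.Agent.MP_71094f_lc.Club
import Pool.Agent.MP_71094f_lc.H37Node

set_option autoImplicit false

/-!
The family of faithful measured trees, built by recursion on the apex.
-/

namespace Pool.Agent.MP_71094f_lc.H37

open Filter Set Node

/-- Finite sets of parameters with level lists. -/
abbrev Prm (Ω : Type) := Set (Node Ω × List ℕ)

/-- Atomic tracked relations. -/
abbrev Rel1 (Ω : Type) := Node Ω → Node Ω → Ω → Prop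

/-- Relations between a candidate child and a top. -/
abbrev Rel2 (Ω : Type) := Prm Ω → Prm Ω → Node Ω → Ω → Prop

variable {Ω : Type} [LinearOrder Ω] (B : Ω → Ω → Ω → Prop)

/-- A demand at a node. -/
def Dem (S : Set (Node Ω)) (b : Node Ω) (μ : List ℕ) : Prop :=
  ∀ p ∈ S, p.apex < b.apex → ∀ α : List ℕ, α.length = μ.length → ¬ H B p b (μ.zip α) b.apex

/-- A tree satisfying a system of demands. -/
def Sat (S : Set (Node Ω)) (D : Set (ℕ × List ℕ)) (v : Node Ω) : Prop :=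
  ∀ r, ∀ᶠ c in (v.desc r : Filter (Node Ω)),
    c.apex ≤ v.apex ∧ c ∈ S ∧ ∀ μ, (c.rank, μ) ∈ D → Dem B S c μ

/-- Finite bounded parameter sets. -/
def FinP (S : Set (Node Ω)) (η : Ω) (W : Prm Ω) : Prop :=
  W.Finite ∧ ∀ x ∈ W, x.1 ∈ S ∧ x.1.apex ≤ η

/-- Existence of a candidate below a top. -/
def ExF (S : Set (Node Ω)) (ψ : Ω → Prop) (R : Rel2 Ω) (W P : Prm Ω) (n : ℕ)
    (D : Set (ℕ × List ℕ)) (w : Ω) : Prop :=
  ∃ v : Node Ω, v.apex < w ∧ ψ v.apex ∧ v.rank = n ∧ Sat B S D v ∧ R W P v w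

variable (R1 : Set (Rel1 Ω)) (R2 : Set (Rel2 Ω))

/-- Tracked predicates of bounded depth. -/
def TrN (S : Set (Node Ω)) (η : Ω) : ℕ → Set (Ω → Prop)
  | 0 => {φ | ∃ R ∈ R1, ∃ p ∈ S, ∃ q ∈ S, p.apex ≤ η ∧ q.apex ≤ η ∧ φ = R p q}
  | k + 1 => {φ | φ ∈ TrN S η k ∨ (∃ ψ ∈ TrN S η k, φ = fun y => ¬ ψ y) ∨
      (∃ ψ ∈ TrN S η k, ∃ χ ∈ TrN S η k, φ = fun y => ψ y ∧ χ y) ∨
      ∃ ψ ∈ TrN S η k, ∃ R ∈ R2, ∃ W, FinP S η W ∧ ∃ P, FinP S η P ∧ ∃ n D, D.Finite ∧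
        φ = ExF B S ψ R W P n D}

/-- Tracked predicates. -/
def Tr (S : Set (Node Ω)) (η : Ω) : Set (Ω → Prop) := {φ | ∃ k, φ ∈ TrN B R1 R2 S η k}

/-- An admissible ultrafilter of children. -/
def IsC (S : Set (Node Ω)) (D : Set (ℕ × List ℕ)) (n : ℕ) (w : Ω) (U : Ultrafilter (Node Ω)) : Prop :=
  (∀ η, η < w → ∀ φ ∈ Tr B R1 R2 S η, φ w → ∀ᶠ v in (U : Filter (Node Ω)), φ v.apex) ∧
  (∀ᶠ v in (U : Filter (Node Ω)), v.apex < w ∧ v.rank = n ∧ Sat B S D v) ∧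
  ∀ μ, (n + 1, μ) ∈ D → ∀ p ∈ S, p.apex < w → ∀ α : List ℕ, α.length = μ.length →
    ∀ᶠ v in (U : Filter (Node Ω)), ¬ H B p v (μ.zip α) w

/-- The chosen trees at an apex. -/
def base (S : Set (Node Ω)) (w : Ω) : Set (Node Ω) :=
  insert (leaf w) {b | ∃ n D, D.Finite ∧ (∃ U, IsC B R1 R2 S D n w U) ∧
    b = mk w n (@Classical.epsilon _ ⟨pure (leaf w)⟩ (IsC B R1 R2 S D n w))}

/-- The chosen trees at an apex and their collapses. -/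
def step (S : Set (Node Ω)) (w : Ω) : Set (Node Ω) :=
  base B R1 R2 S w ∪ {b | ∃ b₀ ∈ base B R1 R2 S w, ∃ ι t, StrictMono ι ∧
    (∀ i, i < t → ι i < b₀.rank) ∧ b = col ι t b₀}

/-- Agreement below a point. -/
def Agree (S S' : Set (Node Ω)) (w : Ω) : Prop := ∀ x : Node Ω, x.apex < w → (x ∈ S ↔ x ∈ S')

variable {B R1 R2}

lemma Agree.symm {S S' : Set (Node Ω)} {w : Ω} (h : Agree S S' w) : Agree S' S w :=
  fun x hx => (h x hx).symm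

lemma Sat.congr {S S' : Set (Node Ω)} {w : Ω} (h : Agree S S' w) {D : Set (ℕ × List ℕ)}
    {v : Node Ω} (hv : v.apex < w) (hs : Sat B S D v) : Sat B S' D v := by
  intro r
  refine (hs r).mono fun c hc => ⟨hc.1, (h c (hc.1.trans_lt hv)).mp hc.2.1, fun μ hμ p hp hpc => ?_⟩
  exact hc.2.2 μ hμ p ((h p (hpc.trans (hc.1.trans_lt hv))).mpr hp) hpc

lemma FinP.congr {S S' : Set (Node Ω)} {w η : Ω} (h : Agree S S' w) (hη : η < w) {W : Prm Ω}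
    (hW : FinP S η W) : FinP S' η W :=
  ⟨hW.1, fun x hx => ⟨(h _ ((hW.2 x hx).2.trans_lt hη)).mp (hW.2 x hx).1, (hW.2 x hx).2⟩⟩

lemma FinP.mono {S : Set (Node Ω)} {η η' : Ω} (hη : η ≤ η') {W : Prm Ω}
    (hW : FinP S η W) : FinP S η' W :=
  ⟨hW.1, fun x hx => ⟨(hW.2 x hx).1, (hW.2 x hx).2.trans hη⟩⟩

lemma TrN_congr {S S' : Set (Node Ω)} {w η : Ω} (h : Agree S S' w) (hη : η < w) (k : ℕ) :
    ∀ φ ∈ TrN B R1 R2 S η k, ∃ φ' ∈ TrN B R1 R2 S' η k, ∀ y, y ≤ w → (φ y ↔ φ' y) := by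
  induction k with
  | zero =>
    rintro φ ⟨R, hR, p, hp, q, hq, h1, h2, rfl⟩
    exact ⟨_, ⟨R, hR, p, (h p (h1.trans_lt hη)).mp hp, q, (h q (h2.trans_lt hη)).mp hq, h1, h2, rfl⟩,
      fun _ _ => Iff.rfl⟩
  | succ k ih =>
    rintro φ (hφ | ⟨ψ, hψ, rfl⟩ | ⟨ψ, hψ, χ, hχ, rfl⟩ | ⟨ψ, hψ, R, hR, W, hW, P, hP, n, D, hD, rfl⟩)
    · obtain ⟨φ', h1, h2⟩ := ih φ hφ
      exact ⟨φ', Or.inl h1, h2⟩
    · obtain ⟨ψ', h1, h2⟩ := ih ψ hψ
      exact ⟨_, Or.inr (Or.inl ⟨ψ', h1, rfl⟩), fun y hy => (h2 y hy).not⟩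
    · obtain ⟨ψ', h1, h2⟩ := ih ψ hψ
      obtain ⟨χ', h3, h4⟩ := ih χ hχ
      exact ⟨_, Or.inr (Or.inr (Or.inl ⟨ψ', h1, χ', h3, rfl⟩)),
        fun y hy => and_congr (h2 y hy) (h4 y hy)⟩
    · obtain ⟨ψ', h1, h2⟩ := ih ψ hψ
      refine ⟨_, Or.inr (Or.inr (Or.inr ⟨ψ', h1, R, hR, W, hW.congr h hη, P, hP.congr h hη,
        n, D, hD, rfl⟩)), fun y hy => exists_congr fun v => and_congr_right fun hv => ?_⟩
      refine and_congr (h2 _ (hv.le.trans hy)) (and_congr_right fun _ => and_congr_left fun _ => ?_)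
      exact ⟨Sat.congr h (hv.trans_le hy), Sat.congr h.symm (hv.trans_le hy)⟩

lemma IsC.congr {S S' : Set (Node Ω)} {w : Ω} (h : Agree S S' w) {D : Set (ℕ × List ℕ)} {n : ℕ}
    {U : Ultrafilter (Node Ω)} (hU : IsC B R1 R2 S D n w U) : IsC B R1 R2 S' D n w U := by
  refine ⟨?_, hU.2.1.mono fun v hv => ⟨hv.1, hv.2.1, hv.2.2.congr h hv.1⟩,
    fun μ hμ p hp hpw => hU.2.2 μ hμ p ((h p hpw).mpr hp) hpw⟩
  rintro η hη φ ⟨k, hφ⟩ hw
  obtain ⟨φ', h1, h2⟩ := TrN_congr h.symm hη k φ hφ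
  filter_upwards [hU.1 η hη φ' ⟨k, h1⟩ ((h2 w le_rfl).mp hw), hU.2.1] with v h3 h4
  exact (h2 _ h4.1.le).mpr h3

lemma step_congr {S S' : Set (Node Ω)} {w : Ω} (h : Agree S S' w) :
    step B R1 R2 S w = step B R1 R2 S' w := by
  have : ∀ D n, IsC B R1 R2 S D n w = IsC B R1 R2 S' D n w := fun D n =>
    funext fun U => propext ⟨IsC.congr h, IsC.congr h.symm⟩
  simp only [step, base, this]

lemma base_apex {S : Set (Node Ω)} {w : Ω} {b : Node Ω} (h : b ∈ base B R1 R2 S w) : b.apex = w := by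
  rcases h with rfl | ⟨n, D, -, -, rfl⟩ <;> rfl

lemma step_apex {S : Set (Node Ω)} {w : Ω} {b : Node Ω} (h : b ∈ step B R1 R2 S w) : b.apex = w := by
  rcases h with h | ⟨b₀, h, ι, t, -, -, rfl⟩
  · exact base_apex h
  · rw [apex_col]; exact base_apex h

lemma countable_fin_sets {α : Type} {s : Set α} (hs : s.Countable) :
    {t : Set α | t.Finite ∧ t ⊆ s}.Countable := countable_ofPred_finite_subset hs

lemma step_countable (S : Set (Node Ω)) (w : Ω) : (step B R1 R2 S w).Countable := by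
  have h1 : (base B R1 R2 S w).Countable := by
    refine Countable.insert _ ?_
    refine (((countable_univ (α := ℕ)).prod (countable_fin_sets
      (countable_univ (α := ℕ × List ℕ)))).image fun z => mk w z.1
        (@Classical.epsilon _ ⟨pure (leaf w)⟩ (IsC B R1 R2 S z.2 z.1 w))).mono ?_
    rintro b ⟨n, D, hD, -, rfl⟩
    exact ⟨(n, D), ⟨trivial, hD, subset_univ _⟩, rfl⟩
  refine h1.union (((h1.prod (countable_univ (α := List ℕ))).image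
    fun z => col (fun i => z.2.getD i 0) z.2.length z.1).mono ?_)
  rintro b ⟨b₀, h, ι, t, -, -, rfl⟩
  refine ⟨(b₀, (List.range t).map ι), ⟨h, trivial⟩, ?_⟩
  simp only [List.length_map, List.length_range]
  exact col_congr t b₀ fun i hi => by simp [List.getD_eq_getElem?_getD, hi]

lemma TrN_mono {S : Set (Node Ω)} {η : Ω} {k k' : ℕ} (h : k ≤ k') :
    TrN B R1 R2 S η k ⊆ TrN B R1 R2 S η k' := by
  induction k', h using Nat.le_induction with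
  | base => exact subset_rfl
  | succ m _ ih => exact fun φ hφ => Or.inl (ih hφ)

lemma tr_atom {S : Set (Node Ω)} {η : Ω} {R : Rel1 Ω} (hR : R ∈ R1) {p q : Node Ω} (hp : p ∈ S)
    (hq : q ∈ S) (h1 : p.apex ≤ η) (h2 : q.apex ≤ η) : R p q ∈ Tr B R1 R2 S η :=
  ⟨0, R, hR, p, hp, q, hq, h1, h2, rfl⟩

lemma tr_not {S : Set (Node Ω)} {η : Ω} {φ : Ω → Prop} (h : φ ∈ Tr B R1 R2 S η) :
    (fun y => ¬ φ y) ∈ Tr B R1 R2 S η := by
  obtain ⟨k, hk⟩ := h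
  exact ⟨k + 1, Or.inr (Or.inl ⟨φ, hk, rfl⟩)⟩

lemma tr_and {S : Set (Node Ω)} {η : Ω} {φ ψ : Ω → Prop} (h : φ ∈ Tr B R1 R2 S η)
    (h' : ψ ∈ Tr B R1 R2 S η) : (fun y => φ y ∧ ψ y) ∈ Tr B R1 R2 S η := by
  obtain ⟨k, hk⟩ := h
  obtain ⟨k', hk'⟩ := h'
  exact ⟨max k k' + 1, Or.inr (Or.inr (Or.inl ⟨φ, TrN_mono (le_max_left _ _) hk, ψ,
    TrN_mono (le_max_right _ _) hk', rfl⟩))⟩

lemma tr_ex {S : Set (Node Ω)} {η : Ω} {φ : Ω → Prop} (h : φ ∈ Tr B R1 R2 S η) {R : Rel2 Ω}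
    (hR : R ∈ R2) {W P : Prm Ω} (hW : FinP S η W) (hP : FinP S η P) (n : ℕ)
    {D : Set (ℕ × List ℕ)} (hD : D.Finite) : ExF B S φ R W P n D ∈ Tr B R1 R2 S η := by
  obtain ⟨k, hk⟩ := h
  exact ⟨k + 1, Or.inr (Or.inr (Or.inr ⟨φ, hk, R, hR, W, hW, P, hP, n, D, hD, rfl⟩))⟩

lemma tr_mono {S : Set (Node Ω)} {η η' : Ω} (hη : η ≤ η') {φ : Ω → Prop}
    (h : φ ∈ Tr B R1 R2 S η) : φ ∈ Tr B R1 R2 S η' := by
  obtain ⟨k, hk⟩ := h
  refine ⟨k, ?_⟩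
  induction k generalizing φ with
  | zero =>
    obtain ⟨R, hR, p, hp, q, hq, h1, h2, rfl⟩ := hk
    exact ⟨R, hR, p, hp, q, hq, h1.trans hη, h2.trans hη, rfl⟩
  | succ k ih =>
    rcases hk with hφ | ⟨ψ, hψ, rfl⟩ | ⟨ψ, hψ, χ, hχ, rfl⟩ |
      ⟨ψ, hψ, R, hR, W, hW, P, hP, n, D, hD, rfl⟩
    · exact Or.inl (ih hφ)
    · exact Or.inr (Or.inl ⟨ψ, ih hψ, rfl⟩)
    · exact Or.inr (Or.inr (Or.inl ⟨ψ, ih hψ, χ, ih hχ, rfl⟩))
    · exact Or.inr (Or.inr (Or.inr ⟨ψ, ih hψ, R, hR, W, hW.mono hη, P, hP.mono hη, n, D, hD, rfl⟩))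

lemma finP_countable {S : Set (Node Ω)} {η : Ω} (hS : {x ∈ S | x.apex ≤ η}.Countable) :
    {W | FinP S η W}.Countable :=
  (countable_fin_sets (hS.prod (countable_univ (α := List ℕ)))).mono fun _ hW =>
    And.intro hW.1 fun x hx => ⟨hW.2 x hx, trivial⟩

lemma tr_countable (h1 : R1.Countable) (h2 : R2.Countable) {S : Set (Node Ω)} {η : Ω}
    (hS : {x ∈ S | x.apex ≤ η}.Countable) : (Tr B R1 R2 S η).Countable := by
  have : ∀ k, (TrN B R1 R2 S η k).Countable := by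
    intro k
    induction k with
    | zero =>
      refine ((h1.prod (hS.prod hS)).image fun z => z.1 z.2.1 z.2.2).mono ?_
      rintro φ ⟨R, hR, p, hp, q, hq, e1, e2, rfl⟩
      exact ⟨(R, p, q), ⟨hR, ⟨hp, e1⟩, ⟨hq, e2⟩⟩, rfl⟩
    | succ k ih =>
      refine (ih.union ((ih.image fun ψ y => ¬ ψ y).union
        (((ih.prod ih).image fun z y => z.1 y ∧ z.2 y).union
        ((ih.prod (h2.prod ((finP_countable hS).prod ((finP_countable hS).prod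
          ((countable_univ (α := ℕ)).prod (countable_fin_sets
            (countable_univ (α := ℕ × List ℕ)))))))).image
          fun z => ExF B S z.1 z.2.1 z.2.2.1 z.2.2.2.1 z.2.2.2.2.1 z.2.2.2.2.2)))).mono ?_
      rintro φ (hφ | ⟨ψ, hψ, rfl⟩ | ⟨ψ, hψ, χ, hχ, rfl⟩ |
        ⟨ψ, hψ, R, hR, W, hW, P, hP, n, D, hD, rfl⟩)
      · exact Or.inl hφ
      · exact Or.inr (Or.inl ⟨ψ, hψ, rfl⟩)
      · exact Or.inr (Or.inr (Or.inl ⟨(ψ, χ), ⟨hψ, hχ⟩, rfl⟩))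
      · exact Or.inr (Or.inr (Or.inr ⟨(ψ, R, W, P, n, D),
          ⟨hψ, hR, hW, hP, trivial, hD, subset_univ _⟩, rfl⟩))
  exact (countable_iUnion this).mono fun φ ⟨k, hk⟩ => mem_iUnion.mpr ⟨k, hk⟩

variable (B R1 R2)

/-- The properties of the family. -/
structure IsFam (N : Set (Node Ω)) : Prop where
  cnt : ∀ η, {x ∈ N | x.apex ≤ η}.Countable
  leaf_mem : ∀ w, leaf w ∈ N
  col_mem : ∀ b ∈ N, ∀ ι t, StrictMono ι → (∀ i, i < t → ι i < b.rank) → col ι t b ∈ N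
  ch_mem : ∀ b ∈ N, 0 < b.rank → ∀ᶠ c in (b.ch : Filter (Node Ω)), c ∈ N ∧ c.apex < b.apex
  faith : ∀ b ∈ N, 0 < b.rank → ∀ η, η < b.apex → ∀ φ ∈ Tr B R1 R2 N η, φ b.apex →
    ∀ᶠ c in (b.ch : Filter (Node Ω)), φ c.apex
  node : ∀ D n w U, D.Finite → IsC B R1 R2 N D n w U →
    ∃ U', IsC B R1 R2 N D n w U' ∧ mk w n U' ∈ N

theorem exists_fam [hΩ : OmOne Ω] (hlt : (fun p _ y => p.apex < y) ∈ R1) :
    ∃ N, IsFam B R1 R2 N := by
  let F : Ω → Set (Node Ω) := hΩ.wf.fix fun w rec =>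
    step B R1 R2 {x | ∃ v, ∃ h : v < w, x ∈ rec v h} w
  have hF0 : ∀ w, F w = step B R1 R2 {x | ∃ v, ∃ _ : v < w, x ∈ F v} w := fun w =>
    hΩ.wf.fix_eq _ w
  have hFa : ∀ w, ∀ x ∈ F w, x.apex = w := fun w x hx => step_apex (hF0 w ▸ hx)
  let N : Set (Node Ω) := {x | x ∈ F x.apex}
  have hF : ∀ w, F w = step B R1 R2 N w := by
    intro w
    rw [hF0]
    refine step_congr fun x hx => ⟨?_, fun h => ⟨_, hx, h⟩⟩
    rintro ⟨v, -, h⟩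
    change x ∈ F x.apex
    rwa [hFa v x h]
  have hN : ∀ x, x ∈ N ↔ x ∈ step B R1 R2 N x.apex := fun x => by rw [← hF]; rfl
  have hleaf : ∀ w, leaf w ∈ N := fun w => (hN _).mpr (Or.inl (Or.inl rfl))
  have hcol : ∀ b ∈ N, ∀ ι t, StrictMono ι → (∀ i, i < t → ι i < b.rank) → col ι t b ∈ N := by
    intro b hb ι t hι ht
    rw [hN] at hb ⊢
    rw [apex_col]
    rcases hb with hb | ⟨b₀, h, ν, s, hν, hs, rfl⟩
    · exact Or.inr ⟨b, hb, ι, t, hι, ht, rfl⟩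
    · rw [rank_col] at ht
      exact Or.inr ⟨b₀, h, ν ∘ ι, t, hν.comp hι, fun i hi => hs _ (ht i hi), col_col hν hι t s b₀ ht⟩
  have main : ∀ w, ∀ b ∈ N, b.apex = w → 0 < b.rank →
      (∀ᶠ c in (b.ch : Filter (Node Ω)), c ∈ N ∧ c.apex < b.apex) ∧ ∀ η, η < b.apex →
        ∀ φ ∈ Tr B R1 R2 N η, φ b.apex → ∀ᶠ c in (b.ch : Filter (Node Ω)), φ c.apex := by
    intro w
    induction w using hΩ.wf.induction with
    | _ w ih =>
    have hb : ∀ b ∈ base B R1 R2 N w, 0 < b.rank →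
        (∀ᶠ c in (b.ch : Filter (Node Ω)), c ∈ N ∧ c.apex < w) ∧ ∀ η, η < w →
          ∀ φ ∈ Tr B R1 R2 N η, φ w → ∀ᶠ c in (b.ch : Filter (Node Ω)), φ c.apex := by
      rintro b (rfl | ⟨n, D, -, hU, rfl⟩) hr
      · exact absurd hr (lt_irrefl 0)
      · have hU' := @Classical.epsilon_spec _ _ hU
        rw [ch_mk _ _ _ (hU'.2.1.mono fun v hv => hv.2.1)]
        refine ⟨hU'.2.1.mono fun v hv => ⟨?_, hv.1⟩, hU'.1⟩
        exact ((ev_desc_of_le le_rfl _).mp (hv.2.2 v.rank)).2.1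
    intro b hbN hw hr
    rw [hN, hw] at hbN
    rw [hw]
    rcases hbN with h | ⟨b₀, h, ι, t, hι, ht, rfl⟩
    · exact hb b h hr
    obtain ⟨t, rfl⟩ : ∃ s, t = s + 1 := ⟨t - 1, by rw [rank_col] at hr; omega⟩
    have h0 := ht t (Nat.lt_succ_self t)
    obtain ⟨g1, g2⟩ := hb b₀ h (by omega)
    simp only [ch_col, ev_map, apex_col]
    constructor
    · have : ∀ᶠ c in (b₀.desc (ι t) : Filter (Node Ω)), c ∈ N ∧ c.apex < w := by
        rw [ev_desc_of_lt h0]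
        refine g1.mono fun d hd => desc_ind (P := fun c => c ∈ N ∧ c.apex < w) ?_ _ d hd
        intro x hx hx0
        exact (ih _ hx.2 x hx.1 rfl hx0).1.mono fun c hc => ⟨hc.1, hc.2.trans hx.2⟩
      filter_upwards [this, desc_rank b₀ (ι t)] with c h1 h2
      refine ⟨hcol c h1.1 ι t hι fun i hi => ?_, h1.2⟩
      rw [h2, min_eq_left h0.le]; exact hι hi
    · intro η hη φ hφ hφw
      have hlt' : (fun y => η < y) ∈ Tr B R1 R2 N η :=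
        tr_atom hlt (hleaf η) (hleaf η) le_rfl le_rfl
      rw [ev_desc_of_lt h0]
      filter_upwards [g1, g2 η hη φ hφ hφw, g2 η hη _ hlt' hη] with d h1 h2 h3
      refine (desc_ind (P := fun c => (c ∈ N ∧ c.apex < w) ∧ η < c.apex ∧ φ c.apex) ?_ _ d
        ⟨h1, h3, h2⟩).mono fun c hc => hc.2.2
      intro x hx hx0
      obtain ⟨k1, k2⟩ := ih _ hx.1.2 x hx.1.1 rfl hx0
      filter_upwards [k1, k2 η hx.2.1 φ hφ hx.2.2, k2 η hx.2.1 _ hlt' hx.2.1] with c e1 e2 e3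
      exact ⟨⟨e1.1, e1.2.trans hx.1.2⟩, e3, e2⟩
  refine ⟨N, fun η => ?_, hleaf, hcol, fun b hb hr => (main _ b hb rfl hr).1,
    fun b hb hr => (main _ b hb rfl hr).2, fun D n w U hD hU => ?_⟩
  · refine ((hΩ.cnt η).biUnion fun w _ => step_countable (B := B) (R1 := R1) (R2 := R2) N w).mono ?_
    exact fun x hx => mem_biUnion hx.2 ((hN x).mp hx.1)
  · exact ⟨_, @Classical.epsilon_spec _ _ ⟨U, hU⟩,
      (hN _).mpr (Or.inl (Or.inr ⟨n, D, hD, ⟨U, hU⟩, rfl⟩))⟩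

end Pool.Agent.MP_71094f_lc.H37
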