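import Mathlib
import Pool.Agent.MP_71094f_lc.H37Fam

set_option autoImplicit false

/-!
The two constructions of a blue four-element set.
-/

namespace Pool.Agent.MP_71094f_lc.H37

open Filter Set Node

variable {Ω : Type} [LinearOrder Ω] (B : Ω → Ω → Ω → Prop)

/-- No blue four-element set. -/
def NoK4 : Prop :=
  ∀ a b d e, a < b → b < d → d < e → B a b d → B a b e → B a d e → ¬ B b d e

/-- The two lower tokens move jointly to a level and then play a word. -/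
def Phi (p : Node Ω) (s : ℕ) (ω : List (ℕ × ℕ)) (y : Ω) : Prop :=
  ∀ᶠ e in (p.desc s : Filter (Node Ω)), H B e e ω y

/-- Red wins the game in which the two lower tokens start together. -/
def J (a : Node Ω) (y : Ω) : Prop := ∀ s ω, AWord s ω → s ≤ a.rank → ¬ Phi B a s ω y

/-- The witness hits all level tuples of its length. -/
def HitS (m : Node Ω × List ℕ) (a : Node Ω) (y : Ω) : Prop :=
  ∀ μ, DecLt (a.rank + 1) μ → m.2.length = μ.length → H B m.1 a (μ.zip m.2) y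

/-- The atomic tracked relations. -/
def RA : Set (Rel1 Ω) :=
  {fun p _ y => p.apex < y, fun p q y => Win B p q y, fun p _ y => J B p y} ∪
  (range (fun ω : List (ℕ × ℕ) => fun p q y => H B p q ω y) ∪
  (range (fun z : ℕ × List (ℕ × ℕ) => fun p _ y => Phi B p z.1 z.2 y) ∪
  range (fun α : List ℕ => fun p q y => HitS B (p, α) q y)))

lemma RA_countable : (RA B).Countable :=
  (Set.toFinite _).countable.union ((countable_range _).union
    ((countable_range _).union (countable_range _)))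

lemma RA_lt : (fun p _ y => p.apex < y) ∈ RA B := Or.inl (Or.inl rfl)
lemma RA_win : (fun p q y => Win B p q y) ∈ RA B := Or.inl (Or.inr (Or.inl rfl))
lemma RA_J : (fun p _ y => J B p y) ∈ RA B := Or.inl (Or.inr (Or.inr rfl))
lemma RA_H (ω : List (ℕ × ℕ)) : (fun p q y => H B p q ω y) ∈ RA B := Or.inr (Or.inl ⟨ω, rfl⟩)
lemma RA_Phi (s : ℕ) (ω : List (ℕ × ℕ)) : (fun p _ y => Phi B p s ω y) ∈ RA B :=
  Or.inr (Or.inr (Or.inl ⟨(s, ω), rfl⟩))
lemma RA_Hit (α : List ℕ) : (fun p q y => HitS B (p, α) q y) ∈ RA B :=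
  Or.inr (Or.inr (Or.inr ⟨α, rfl⟩))

variable {B} {R2 : Set (Rel2 Ω)} {N : Set (Node Ω)}

namespace IsFam

variable (hN : IsFam B (RA B) R2 N)
include hN

lemma tr_lt (η : Ω) : (fun y => η < y) ∈ Tr B (RA B) R2 N η :=
  tr_atom (RA_lt B) (hN.leaf_mem η) (hN.leaf_mem η) le_rfl le_rfl

lemma desc_mem {b : Node Ω} (hb : b ∈ N) (r : ℕ) :
    ∀ᶠ c in (b.desc r : Filter (Node Ω)), c ∈ N ∧ c.apex ≤ b.apex :=
  desc_ind (P := fun c => c ∈ N ∧ c.apex ≤ b.apex) (fun x hx h0 =>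
    (hN.ch_mem x hx.1 h0).mono fun _ hc => ⟨hc.1, hc.2.le.trans hx.2⟩) r b ⟨hb, le_rfl⟩

lemma desc_lt {b : Node Ω} (hb : b ∈ N) {r : ℕ} (hr : r < b.rank) :
    ∀ᶠ c in (b.desc r : Filter (Node Ω)), c ∈ N ∧ c.apex < b.apex := by
  rw [ev_desc_of_lt hr]
  exact (hN.ch_mem b hb (by omega)).mono fun d hd =>
    (hN.desc_mem hd.1 r).mono fun c hc => ⟨hc.1, hc.2.trans_lt hd.2⟩

lemma desc_faith {b : Node Ω} (hb : b ∈ N) {η : Ω} (hη : η < b.apex) {φ : Ω → Prop}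
    (hφ : φ ∈ Tr B (RA B) R2 N η) (h : φ b.apex) (r : ℕ) :
    ∀ᶠ c in (b.desc r : Filter (Node Ω)), φ c.apex := by
  refine (desc_ind (P := fun c => c ∈ N ∧ η < c.apex ∧ φ c.apex) ?_ r b ⟨hb, hη, h⟩).mono
    fun c hc => hc.2.2
  intro x hx h0
  filter_upwards [hN.ch_mem x hx.1 h0, hN.faith x hx.1 h0 η hx.2.1 φ hφ hx.2.2,
    hN.faith x hx.1 h0 η hx.2.1 _ (hN.tr_lt η) hx.2.1] with c e1 e2 e3
  exact ⟨e1.1, e3, e2⟩

lemma desc_gt {b : Node Ω} (hb : b ∈ N) {η : Ω} (hη : η < b.apex) (r : ℕ) :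
    ∀ᶠ c in (b.desc r : Filter (Node Ω)), η < c.apex :=
  hN.desc_faith hb hη (hN.tr_lt η) hη r

lemma desc_atom {b p q : Node Ω} (hb : b ∈ N) (hp : p ∈ N) (hq : q ∈ N) (h1 : p.apex < b.apex)
    (h2 : q.apex < b.apex) {R : Rel1 Ω} (hR : R ∈ RA B) (h : R p q b.apex) (r : ℕ) :
    ∀ᶠ c in (b.desc r : Filter (Node Ω)), R p q c.apex :=
  hN.desc_faith hb (max_lt h1 h2) (tr_atom hR hp hq (le_max_left _ _) (le_max_right _ _)) h r

lemma desc_H {b p q : Node Ω} (hb : b ∈ N) (hp : p ∈ N) (hq : q ∈ N) (h1 : p.apex < b.apex)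
    (h2 : q.apex < b.apex) {ω : List (ℕ × ℕ)} (h : H B p q ω b.apex) (r : ℕ) :
    ∀ᶠ c in (b.desc r : Filter (Node Ω)), H B p q ω c.apex :=
  hN.desc_atom hb hp hq h1 h2 (RA_H B ω) h r

lemma desc_Phi {b p : Node Ω} (hb : b ∈ N) (hp : p ∈ N) (h1 : p.apex < b.apex)
    {s : ℕ} {ω : List (ℕ × ℕ)} (h : Phi B p s ω b.apex) (r : ℕ) :
    ∀ᶠ c in (b.desc r : Filter (Node Ω)), Phi B p s ω c.apex :=
  hN.desc_atom hb hp hp h1 h1 (RA_Phi B s ω) h r

end IsFam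

/-- Waiting levels of the middle token against the witness. -/
def lz : ℕ → List (ℕ × ℕ) → List ℕ
  | 0, _ => [0]
  | _ + 1, [] => []
  | h + 1, e :: ω => e.1 :: lz h ω

/-- Waiting levels of the lower token against the witness. -/
def lx : ℕ → ℕ → List (ℕ × ℕ) → List ℕ
  | _, 0, _ => [0]
  | _, _ + 1, [] => []
  | i, h + 1, e :: ω => i :: lx e.2 h ω

lemma Norm.lz_spec {i j : ℕ} {ω : List (ℕ × ℕ)} (hω : Norm i j ω) : ∀ h, h < ω.length →
    DecLt (j + 1) (lz h ω) ∧ (lz h ω).length = h + 1 := by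
  induction hω with
  | last =>
    intro h hh
    obtain rfl : h = 0 := by simpa using hh
    exact ⟨⟨by simp [lz], by simp [lz]⟩, rfl⟩
  | cons h1 _ _ ih =>
    intro h hh
    cases h with
    | zero => exact ⟨⟨by simp [lz], by simp [lz]⟩, rfl⟩
    | succ h =>
      obtain ⟨g1, g2⟩ := ih h (by simpa using hh)
      refine ⟨⟨by simp [lz], List.pairwise_cons.mpr ⟨fun s hs => ?_, g1.2⟩⟩, by simp [lz, g2]⟩
      rcases List.mem_cons.mp hs with rfl | hs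
      · simp only; omega
      · have := g1.lt s hs; omega

lemma Norm.lx_spec {i j : ℕ} {ω : List (ℕ × ℕ)} (hω : Norm i j ω) : ∀ h, h < ω.length →
    DecLt (i + 1) (lx i h ω) ∧ (lx i h ω).length = h + 1 := by
  induction hω with
  | last =>
    intro h hh
    obtain rfl : h = 0 := by simpa using hh
    exact ⟨⟨by simp [lx], by simp [lx]⟩, rfl⟩
  | cons _ h2 _ ih =>
    intro h hh
    cases h with
    | zero => exact ⟨⟨by simp [lx], by simp [lx]⟩, rfl⟩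
    | succ h =>
      obtain ⟨g1, g2⟩ := ih h (by simpa using hh)
      refine ⟨⟨by simp [lx], List.pairwise_cons.mpr ⟨fun s hs => ?_, (g1.mono (by omega)).2⟩⟩,
        by simp [lx, g2]⟩
      rcases List.mem_cons.mp hs with rfl | hs
      · omega
      · have := g1.lt s hs; omega

/-- A strong witness kills every long word. -/
theorem killS (hK : NoK4 B) (hN : IsFam B (RA B) R2 N) (y : Ω) {i j : ℕ} {ω : List (ℕ × ℕ)}
    (hω : Norm i j ω) : ∀ (h : ℕ) (α : List ℕ) (a x z : Node Ω), h < ω.length → α.length = h + 1 →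
      a ∈ N → x ∈ N → z ∈ N → a.apex < x.apex → x.apex < z.apex → z.apex < y → x.rank = i →
      H B x z ω y → H B a x ((lx i h ω).zip α) y → H B a x ((lx i h ω).zip α) z.apex →
      H B a z ((lz h ω).zip α) y → False := by
  induction hω with
  | last =>
    intro h α a x z hh hα ha hx hz hax hxz hzy _ g1 g2 g3 g4
    obtain rfl : h = 0 := by simpa using hh
    obtain ⟨a₁, rfl⟩ := List.length_eq_one_iff.mp hα
    simp only [lx, lz, List.zip_cons_cons, List.zip_nil_right] at g2 g3 g4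
    obtain ⟨z', ⟨e1, e2⟩, ⟨e3, e4⟩, e5⟩ := ((g1.and g4).and
      (((hN.desc_mem hz 0).and (hN.desc_gt hz hxz 0)).and
        (hN.desc_H hz ha hx (hax.trans hxz) hxz g3 0))).exists
    obtain ⟨x', ⟨f1, f2⟩, ⟨f3, f4⟩, f5⟩ := ((e1.and g2).and
      (((hN.desc_mem hx 0).and (hN.desc_gt hx hax 0)).and e5)).exists
    obtain ⟨a', ⟨k1, k2⟩, k3, k4⟩ := ((e2.and f2).and (f5.and (hN.desc_mem ha a₁))).exists
    exact hK _ _ _ _ (k4.2.trans_lt f4) (f3.2.trans_lt e4) (e3.2.trans_lt hzy) k3 k2 k1 f1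
  | @cons i j r l ω h1 h2 h3 ih =>
    intro h α a x z hh hα ha hx hz hax hxz hzy hi g1 g2 g3 g4
    cases h with
    | zero =>
      obtain ⟨a₁, rfl⟩ := List.length_eq_one_iff.mp hα
      simp only [lx, lz, List.zip_cons_cons, List.zip_nil_right] at g2 g3 g4
      obtain ⟨z', ⟨e1, e2⟩, ⟨e3, e4⟩, e5⟩ := ((g1.and ((H_desc (Nat.zero_le (r + 1)) _ y).mp g4)).and
        (((hN.desc_mem hz _).and (hN.desc_gt hz hxz _)).and
          (hN.desc_H hz ha hx (hax.trans hxz) hxz g3 _))).exists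
      obtain ⟨x', ⟨f1, f2⟩, ⟨f3, f4⟩, f5, f6⟩ := ((e1.and ((H_desc (Nat.zero_le l) _ y).mp g2)).and
        (((hN.desc_mem hx _).and (hN.desc_gt hx hax _)).and
          (((H_desc (Nat.zero_le l) _ _).mp e5).and (desc_rank x l)))).exists
      exact ih 0 [a₁] a x' z' (List.length_pos_iff.mpr (by rintro rfl; cases h3)) rfl ha f3.1 e3.1
        f4 (f3.2.trans_lt e4) (e3.2.trans_lt hzy) (by omega) f1 f2 f5 e2
    | succ h =>
      obtain ⟨a₁, α', rfl⟩ := List.exists_cons_of_length_eq_add_one hα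
      have hh' : h < ω.length := by simpa using hh
      have hα' : α'.length = h + 1 := by simpa using hα
      obtain ⟨q1, q2⟩ := h3.lx_spec h hh'
      simp only [lx, lz, List.zip_cons_cons] at g2 g3 g4
      obtain ⟨z', ⟨e1, e2⟩, ⟨e3, e4⟩, e5⟩ := ((g1.and g4).and
        (((hN.desc_mem hz _).and (hN.desc_gt hz hxz _)).and
          (hN.desc_H hz ha hx (hax.trans hxz) hxz g3 _))).exists
      rw [H_cons, ev_desc_of_le hi.le] at g2 e5
      obtain ⟨a', ⟨k1, k2⟩, k3, k4⟩ := ((e2.and g2).and (e5.and (hN.desc_mem ha a₁))).exists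
      obtain ⟨x', ⟨f1, f2⟩, ⟨f3, f4⟩, f5, f6⟩ := ((e1.and ((H_zip_desc q1 (by omega) y).mp k2)).and
        (((hN.desc_mem hx _).and (hN.desc_gt hx hax _)).and
          (((H_zip_desc q1 (by omega) _).mp k3).and (desc_rank x l)))).exists
      exact ih h α' a' x' z' hh' hα' k4.1 f3.1 e3.1 (k4.2.trans_lt f4) (f3.2.trans_lt e4)
        (e3.2.trans_lt hzy) (by omega) f1 f2 f5 k1

lemma play2 (hN : IsFam B (RA B) R2 N) (y₁ y₂ : Ω) (P : Node Ω → Prop) {i j : ℕ}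
    {ω : List (ℕ × ℕ)} (hω : Norm i j ω) : ∀ p q : Node Ω, p ∈ N → q ∈ N → p.apex < q.apex →
      H B p q ω y₁ → H B p q ω y₂ → (∀ᶠ x in (p.desc 0 : Filter (Node Ω)), P x) →
      (∀ᶠ x in (q.desc 0 : Filter (Node Ω)), P x) → ∃ x₁ ∈ N, ∃ x₂ ∈ N, x₁.apex < x₂.apex ∧
        x₂.apex ≤ q.apex ∧ B x₁.apex x₂.apex y₁ ∧ B x₁.apex x₂.apex y₂ ∧ P x₁ ∧ P x₂ := by
  induction hω with
  | last =>
    intro p q hp hq hpq g1 g2 g3 g4
    obtain ⟨c, ⟨e1, e2⟩, ⟨e3, e4⟩, e5⟩ := ((g1.and g2).and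
      (((hN.desc_mem hq 0).and (hN.desc_gt hq hpq 0)).and g4)).exists
    obtain ⟨x, ⟨f1, f2⟩, f3, f4⟩ := ((e1.and e2).and ((hN.desc_mem hp 0).and g3)).exists
    exact ⟨x, f3.1, c, e3.1, f3.2.trans_lt e4, e3.2, f1, f2, f4, e5⟩
  | @cons i j r l ω _ _ _ ih =>
    intro p q hp hq hpq g1 g2 g3 g4
    obtain ⟨c, ⟨e1, e2⟩, ⟨e3, e4⟩, e5⟩ := ((g1.and g2).and
      (((hN.desc_mem hq _).and (hN.desc_gt hq hpq _)).and
        ((ev_desc_desc (Nat.zero_le (r + 1)) q P).mp g4))).exists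
    obtain ⟨x, ⟨f1, f2⟩, f3, f4⟩ := ((e1.and e2).and ((hN.desc_mem hp _).and
      ((ev_desc_desc (Nat.zero_le l) p P).mp g3))).exists
    obtain ⟨x₁, k1, x₂, k2, k3, k4, k5⟩ := ih x c f3.1 e3.1 (f3.2.trans_lt e4) f1 f2 f4 e5
    exact ⟨x₁, k1, x₂, k2, k3, k4.trans e3.2, k5⟩

lemma fin2 (hK : NoK4 B) (hN : IsFam B (RA B) R2 N) {b : ℕ} {ω : List (ℕ × ℕ)} (hω : AWord b ω)
    {y : Ω} {j z : Node Ω} (hj : j ∈ N) (hz : z ∈ N) (hjz : j.apex ≤ z.apex) (hzy : z.apex < y)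
    (hb : b < j.rank) (g1 : Phi B j b ω y) (g2 : Phi B j b ω z.apex)
    (g3 : ∀ᶠ x in (j.desc 0 : Filter (Node Ω)), ∀ᶠ c in (z.desc 0 : Filter (Node Ω)),
      B x.apex c.apex y) : False := by
  obtain ⟨r, a, ω₀, hr, ha, hω₀, rfl⟩ := hω
  obtain ⟨e, ⟨e1, e2⟩, ⟨e3, e4⟩, e5⟩ := ((g1.and g2).and (((hN.desc_lt hj hb).and (desc_rank j b)).and
    ((ev_desc_desc (Nat.zero_le b) j _).mp g3))).exists
  rw [H_cons, ev_desc_of_le (by omega)] at e1 e2
  obtain ⟨p, ⟨f1, f2⟩, f3, f4⟩ := ((e1.and e2).and ((hN.desc_lt e3.1 (by omega : a < e.rank)).and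
    ((ev_desc_desc (Nat.zero_le a) e _).mp e5))).exists
  obtain ⟨x₁, k1, x₂, k2, k3, k4, k5, k6, k7, k8⟩ := play2 hN _ _ _ hω₀ p e f3.1 e3.1 f3.2 f1 f2 f4 e5
  have k9 : x₂.apex < z.apex := k4.trans_lt (e3.2.trans_le hjz)
  obtain ⟨c, ⟨l1, l2⟩, ⟨l3, l4⟩, l5⟩ := ((k7.and k8).and
    (((hN.desc_mem hz 0).and (hN.desc_gt hz k9 0)).and
      (hN.desc_H (ω := []) hz k1 k2 (k3.trans k9) k9 k6 0))).exists
  exact hK _ _ _ _ k3 l4 (l3.2.trans_lt hzy) l5 k5 l1 l2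

/-- The upper copy of the levels. -/
def up (b i : ℕ) : ℕ := if i = 0 then 0 else b + i

lemma up_strictMono (b : ℕ) : StrictMono (up b) := by
  intro i j hij
  unfold up
  split_ifs <;> omega

lemma stepA (hK : NoK4 B) (hN : IsFam B (RA B) R2 N) {b : ℕ} {ω : List (ℕ × ℕ)} (hω : AWord b ω)
    {y : Ω} {a r : ℕ} {ω₁ : List (ℕ × ℕ)} (h₁ : Norm a r ω₁) : ∀ j z : Node Ω, j ∈ N → z ∈ N →
      j.apex ≤ z.apex → z.apex < y → b < j.rank → up b a < j.rank → Phi B j b ω y →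
      Phi B j b ω z.apex → (∀ᶠ j' in (j.desc (up b a) : Filter (Node Ω)),
        H B j' z (ω₁.map (Prod.map (up b) (up b))) y) → False := by
  have mv : ∀ {a : ℕ} (j z : Node Ω) (Q : Node Ω → Node Ω → Prop) (s : ℕ), 0 < a → j ∈ N → z ∈ N →
      j.apex ≤ z.apex → z.apex < y → up b a < j.rank → Phi B j b ω y → Phi B j b ω z.apex →
      (∀ᶠ j' in (j.desc (up b a) : Filter (Node Ω)), ∀ᶠ z' in (z.desc s : Filter (Node Ω)), Q j' z') →
      ∃ j' z', j' ∈ N ∧ z' ∈ N ∧ j'.apex ≤ z'.apex ∧ z'.apex < y ∧ j'.rank = up b a ∧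
        z'.rank ≤ s ∧ Phi B j' b ω y ∧ Phi B j' b ω z'.apex ∧ Q j' z' := by
    intro a j z Q s ha hj hz hjz hzy hr g1 g2 g3
    have hb : b ≤ up b a := by unfold up; split_ifs <;> omega
    obtain ⟨j', ⟨e1, e2⟩, ⟨e3, e4⟩, e5⟩ := ((((ev_desc_desc hb j _).mp g1).and
      ((ev_desc_desc hb j _).mp g2)).and (((hN.desc_lt hj hr).and (desc_rank j _)).and g3)).exists
    have e6 := e3.2.trans_le hjz
    obtain ⟨z', ⟨f1, f2⟩, ⟨f3, f4⟩, f5⟩ := ((e5.and (desc_rank z s)).and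
      (((hN.desc_mem hz s).and (hN.desc_gt hz e6 s)).and (hN.desc_Phi hz e3.1 e6 e2 s))).exists
    exact ⟨j', z', e3.1, f3.1, f4.le, f3.2.trans_lt hzy, by omega, by omega, e1, f5, f1⟩
  induction h₁ with
  | last a r =>
    intro j z hj hz hjz hzy hb hr g1 g2 g3
    simp only [List.map_cons, List.map_nil, Prod.map_apply, H_cons, H_nil] at g3
    have u0 : up b 0 = 0 := rfl
    rw [u0] at g3
    rcases Nat.eq_zero_or_pos a with rfl | ha
    · rw [u0] at g3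
      refine fin2 hK hN hω hj hz hjz hzy hb g1 g2 ?_
      filter_upwards [g3, desc_rank j 0] with x h1 h2
      exact h1.mono fun c hc => (ev_desc_of_le (by omega) _).mp hc
    · obtain ⟨j', z', k1, k2, k3, k4, k5, k6, k7, k8, k9⟩ :=
        mv j z _ 0 ha hj hz hjz hzy hr g1 g2 g3
      refine fin2 hK hN hω k1 k2 k3 k4 (by rw [k5]; unfold up; split_ifs <;> omega) k7 k8 ?_
      exact k9.mono fun x hx => (ev_desc_of_le k6 _).mpr hx
  | @cons a r r' a' ω₂ _ h2 _ ih =>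
    intro j z hj hz hjz hzy hb hr g1 g2 g3
    simp only [List.map_cons, Prod.map_apply, H_cons] at g3
    obtain ⟨j', z', k1, k2, k3, k4, k5, -, k7, k8, k9⟩ :=
      mv j z _ _ (by omega) hj hz hjz hzy hr g1 g2 g3
    exact ih j' z' k1 k2 k3 k4 (by rw [k5]; unfold up; split_ifs <;> omega)
      (by rw [k5]; exact up_strictMono b h2) k7 k8 k9

/-- A word that is blue at two nested splits is impossible. -/
theorem killA (hK : NoK4 B) (hN : IsFam B (RA B) R2 N) {b : ℕ} {ω : List (ℕ × ℕ)} (hω : AWord b ω)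
    {d : Node Ω} (hd : d ∈ N) (hr : b + b < d.rank) (g1 : Phi B d b ω d.apex)
    (g2 : Phi B d (b + b) (ω.map (Prod.map (up b) (up b))) d.apex)
    (g3 : ∀ᶠ e in (d.desc (b + b) : Filter (Node Ω)), Phi B e b ω e.apex) : False := by
  obtain ⟨e, ⟨e1, e2⟩, ⟨e3, e4⟩, e5⟩ := ((((ev_desc_desc (Nat.le_add_left b b) d _).mp g1).and g2).and
    (((hN.desc_lt hd hr).and (desc_rank d _)).and g3)).exists
  obtain ⟨r, a, ω₀, hb, ha, hω₀, hω'⟩ := id hω
  have hu : up b b = b + b := by unfold up; split_ifs <;> omega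
  rw [hω', List.map_cons, Prod.map_apply, H_cons, ev_desc_of_le (by omega)] at e2
  have := up_strictMono b ha
  exact stepA hK hN hω hω₀ e e e3.1 e3.1 le_rfl e3.2 (by omega) (by omega) e1 e5 e2

end Pool.Agent.MP_71094f_lc.H37
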