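import Mathlib
import Pool.Agent.MP_71094f_lc.H37Kill

set_option autoImplicit false

/-!
Compactness, pressing down, and the trees delivered by the greedy dichotomy.
-/

namespace Pool.Agent.MP_71094f_lc.H37

open Filter Set Node

variable {Ω : Type}

/-- Hereditary properties. -/
def Her (P : Node Ω → Prop) (b : Node Ω) : Prop := ∀ r, ∀ᶠ c in (b.desc r : Filter (Node Ω)), P c

lemma Her.self {P : Node Ω → Prop} {b : Node Ω} (h : Her P b) : P b :=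
  (ev_desc_of_le le_rfl P).mp (h b.rank)

lemma Her.desc {P : Node Ω → Prop} {b : Node Ω} (h : Her P b) (r : ℕ) :
    ∀ᶠ c in (b.desc r : Filter (Node Ω)), Her P c := by
  have h1 : ∀ᶠ c in (b.desc r : Filter (Node Ω)), ∀ s ∈ Iic r,
      ∀ᶠ e in (c.desc s : Filter (Node Ω)), P e :=
    (eventually_all_finite (finite_Iic r)).mpr fun s hs => (ev_desc_desc hs b P).mp (h s)
  filter_upwards [h1, desc_rank b r] with c h2 h3 s
  by_cases hs : s ≤ r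
  · exact h2 s hs
  · rw [ev_desc_of_le (by omega)]
    exact (ev_desc_of_le (by omega) P).mp (h2 r (mem_Iic.mpr le_rfl))

lemma Her.ch {P : Node Ω → Prop} {b : Node Ω} (h : Her P b) (hb : 0 < b.rank) :
    ∀ᶠ c in (b.ch : Filter (Node Ω)), Her P c := by
  rw [ev_ch (r := b.rank - 1) (by omega)]
  exact h.desc _

lemma Her.mono {P Q : Node Ω → Prop} {b : Node Ω} (h : Her P b) (hPQ : ∀ c, P c → Q c) : Her Q b :=
  fun r => (h r).mono hPQ

lemma Her.and {P Q : Node Ω → Prop} {b : Node Ω} (h : Her P b) (h' : Her Q b) :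
    Her (fun c => P c ∧ Q c) b := fun r => (h r).and (h' r)

lemma her_rank (b : Node Ω) : Her (fun c => c.rank ≤ b.rank) b :=
  fun r => (desc_rank b r).mono fun c hc => by omega

lemma her_col {ι : ℕ → ℕ} (hι : StrictMono ι) {t : ℕ} {b : Node Ω} (hb : b.rank = ι t)
    {P : Node Ω → Prop} (h : ∀ s, s ≤ t → ∀ᶠ c in (b.desc (ι s) : Filter (Node Ω)),
      c.rank = ι s → P (col ι s c)) : Her P (col ι t b) := by
  intro r
  by_cases hr : r ≤ t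
  · rw [ev_desc_col hι hb, min_eq_left hr]
    filter_upwards [h r hr, desc_rank_col hι hb r] with c h1 h2
    exact h1 (by rw [h2, min_eq_left hr])
  · rw [ev_desc_of_le (by simp; omega)]
    exact (ev_desc_of_le hb.le _).mp (h t le_rfl) hb

variable [LinearOrder Ω] (B : Ω → Ω → Ω → Prop)

/-- Small level tuples. -/
def sm (h : ℕ) (μ : List ℕ) : Prop := h = 0 ∨ μ.length < h

/-- The absolute local properties of a good tree. -/
def Loc (m : Node Ω × List ℕ) (c : Node Ω) : Prop :=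
  m.1.apex < c.apex ∧
  (∀ μ, DecLt c.rank μ → m.2.length = μ.length → H B m.1 c (μ.zip m.2) c.apex) ∧
  ∀ s ω, AWord s ω → s < c.rank → ¬ Phi B c s ω c.apex

/-- The relation for demand structures. -/
def RD (n : ℕ) (D : Set (ℕ × List ℕ)) : Rel2 Ω := fun _ P v w =>
  ∀ x ∈ P, ∀ μ, (n + 1, μ) ∈ D → x.2.length = μ.length → ¬ H B x.1 v (μ.zip x.2) w

/-- The relation for good trees. -/
def RG (h : ℕ) : Rel2 Ω := fun W P v w =>
  (∃ m ∈ W, Her (Loc B m) v ∧ HitS B m v w) ∧ J B v w ∧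
  ∀ x ∈ P, ∀ μ, DecLt (v.rank + 1) μ → sm h μ → x.2.length = μ.length → ¬ H B x.1 v (μ.zip x.2) w

/-- The binary tracked relations. -/
def RB : Set (Rel2 Ω) :=
  (fun z : ℕ × Set (ℕ × List ℕ) => RD B z.1 z.2) '' {z | z.2.Finite} ∪ range (RG B)

lemma RB_countable : (RB B).Countable := by
  refine Countable.union (Countable.image ?_ _) (countable_range _)
  exact ((countable_univ (α := ℕ)).prod (countable_fin_sets
    (countable_univ (α := ℕ × List ℕ)))).mono fun z hz =>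
      And.intro trivial (And.intro hz (subset_univ _))

/-- An ultrafilter of candidates. -/
def HasU (N : Set (Node Ω)) (R : Rel2 Ω) (W : Prm Ω) (n : ℕ) (D : Set (ℕ × List ℕ)) (w : Ω)
    (U : Ultrafilter (Node Ω)) : Prop :=
  (∀ η, η < w → ∀ φ ∈ Tr B (RA B) (RB B) N η, φ w → ∀ᶠ v in (U : Filter (Node Ω)), φ v.apex) ∧
  (∀ᶠ v in (U : Filter (Node Ω)), v.apex < w ∧ v.rank = n ∧ Sat B N D v) ∧
  ∀ η, η < w → ∀ P, FinP N η P → ∀ᶠ v in (U : Filter (Node Ω)), R W P v w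

/-- The local properties delivered by the dichotomy. -/
def PreLoc (N : Set (Node Ω)) (h : ℕ) (W : Prm Ω) (c : Node Ω) : Prop :=
  c ∈ N ∧ (∀ μ, DecLt c.rank μ → sm h μ → Dem B N c μ) ∧
  ∀ μ, DecLt c.rank μ → μ.length = h → ∃ x ∈ W, H B x.1 c (μ.zip x.2) c.apex

variable {B} {N : Set (Node Ω)}

lemma sat_iff (hN : IsFam B (RA B) (RB B) N) {D : Set (ℕ × List ℕ)} {b : Node Ω} :
    Sat B N D b ↔ Her (fun c => c ∈ N ∧ ∀ μ, (c.rank, μ) ∈ D → Dem B N c μ) b := by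
  refine ⟨fun h r => (h r).mono fun c hc => hc.2, fun h r => ?_⟩
  filter_upwards [h r, hN.desc_mem h.self.1 r] with c h1 h2 using ⟨h2.2, h1⟩

lemma Dem.col {ι : ℕ → ℕ} (hι : StrictMono ι) {t : ℕ} {c : Node Ω} (hc : c.rank = ι t)
    {μ : List ℕ} (h : Dem B N c (μ.map ι)) : Dem B N (col ι t c) μ := by
  intro p hp hpc α hα
  rw [apex_col] at hpc ⊢
  rw [H_zip_col hι _ _ _ _ _ _ hc]
  exact h p hp hpc α (by simpa using hα)

variable [hΩ : OmOne Ω]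

theorem compact (hN : IsFam B (RA B) (RB B) N) (R : Rel2 Ω) (W : Prm Ω) (n : ℕ)
    (D : Set (ℕ × List ℕ)) (hanti : ∀ P P' v w, P ⊆ P' → R W P' v w → R W P v w) (E : Ω → Prop)
    (h : ∃ᶠ w in club Ω, E w ∧ ¬ ∃ U, HasU B N R W n D w U) :
    ∃ η, ∃ φ ∈ Tr B (RA B) (RB B) N η, ∃ P, FinP N η P ∧
      ∃ᶠ w in club Ω, E w ∧ φ w ∧ ¬ ExF B N φ R W P n D w := by
  obtain ⟨w0, -⟩ := h.exists
  have : Nonempty (Node Ω) := ⟨leaf w0⟩
  obtain ⟨η, a, ha, hf⟩ := club_fodor (A := (Ω → Prop) × Prm Ω)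
    (fun a η => a.1 ∈ Tr B (RA B) (RB B) N η ∧ FinP N η a.2)
    (fun η => (tr_countable (RA_countable B) (RB_countable B) (hN.cnt η)).prod
      (finP_countable (hN.cnt η)))
    (P := fun a w => E w ∧ a.1 w ∧ ¬ ExF B N a.1 R W a.2 n D w) (by
    refine (h.and_eventually (club_gt w0)).mono ?_
    rintro w ⟨⟨hE, hU⟩, hw0⟩
    by_contra hcon
    push Not at hcon
    apply hU
    let I := {t : Ω × (Ω → Prop) × Prm Ω // t.1 < w ∧ t.2.1 ∈ Tr B (RA B) (RB B) N t.1 ∧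
      FinP N t.1 t.2.2 ∧ t.2.1 w}
    let Z : I → Set (Node Ω) := fun t =>
      {v | v.apex < w ∧ t.1.2.1 v.apex ∧ v.rank = n ∧ Sat B N D v ∧ R W t.1.2.2 v w}
    have hne : NeBot (⨅ t : I, 𝓟 (Z t)) := by
      refine iInf_neBot_of_directed ?_ fun t => principal_neBot_iff.mpr
        (hcon t.1.1 t.2.1 t.1.2 ⟨t.2.2.1, t.2.2.2.1⟩ hE t.2.2.2.2)
      rintro ⟨⟨η, φ, P⟩, t1, t2, t3, t4⟩ ⟨⟨η', φ', P'⟩, s1, s2, s3, s4⟩
      refine ⟨⟨(max η η', fun y => φ y ∧ φ' y, P ∪ P'), max_lt t1 s1,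
        tr_and (tr_mono (le_max_left _ _) t2) (tr_mono (le_max_right _ _) s2),
        ⟨t3.1.union s3.1, ?_⟩, t4, s4⟩, ?_, ?_⟩
      · rintro x (hx | hx)
        · exact (t3.mono (le_max_left _ _)).2 x hx
        · exact (s3.mono (le_max_right _ _)).2 x hx
      · exact principal_mono.mpr fun v hv => ⟨hv.1, hv.2.1.1, hv.2.2.1, hv.2.2.2.1,
          hanti _ _ _ _ subset_union_left hv.2.2.2.2⟩
      · exact principal_mono.mpr fun v hv => ⟨hv.1, hv.2.1.2, hv.2.2.1, hv.2.2.2.1,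
          hanti _ _ _ _ subset_union_right hv.2.2.2.2⟩
    obtain ⟨U, hU⟩ := Ultrafilter.exists_le (⨅ t : I, 𝓟 (Z t))
    have hZ : ∀ t : I, ∀ᶠ v in (U : Filter (Node Ω)), v ∈ Z t := fun t =>
      hU (mem_iInf_of_mem t (mem_principal_self _))
    have h0 : ∀ η, FinP N η ∅ := fun η => ⟨finite_empty, by simp⟩
    refine ⟨U, fun η hη φ hφ hw => ?_, ?_, fun η hη P hP => ?_⟩
    · exact (hZ ⟨(η, φ, ∅), hη, hφ, h0 η, hw⟩).mono fun v hv => hv.2.1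
    · exact (hZ ⟨(w0, _, ∅), hw0, hN.tr_lt w0, h0 w0, hw0⟩).mono fun v hv =>
        ⟨hv.1, hv.2.2.1, hv.2.2.2.1⟩
    · exact (hZ ⟨(η, _, P), hη, hN.tr_lt η, hP, hη⟩).mono fun v hv => hv.2.2.2.2)
  exact ⟨η, a.1, ha.1, a.2, ha.2, hf⟩

variable (B N) in
/-- Realisable demand structures. -/
def Ex (n : ℕ) (D : Set (ℕ × List ℕ)) : Prop :=
  ∀ᶠ w in club Ω, ∃ b : Node Ω, b.apex = w ∧ b.rank = n ∧ Sat B N D b

omit hΩ in
lemma node_of_hasU (hN : IsFam B (RA B) (RB B) N) {n : ℕ} {D : Set (ℕ × List ℕ)}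
    (hD : D ⊆ Full (n + 1)) {w : Ω} {U : Ultrafilter (Node Ω)} (hU : HasU B N (RD B n D) ∅ n D w U) :
    ∃ b : Node Ω, b.apex = w ∧ b.rank = n + 1 ∧ Sat B N D b := by
  obtain ⟨U', h1, h2⟩ := hN.node D n w U ((full_finite _).subset hD) ⟨hU.1, hU.2.1,
    fun μ hμ p hp hpw α hα => (hU.2.2 _ hpw {(p, α)} ⟨finite_singleton _, by simpa using hp⟩).mono
      fun v hv => hv (p, α) rfl μ hμ hα⟩
  have hch := ch_mk w n U' (h1.2.1.mono fun v hv => hv.2.1)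
  refine ⟨mk w n U', rfl, rfl, (sat_iff hN).mpr fun r => ?_⟩
  by_cases hr : r < n + 1
  · rw [ev_desc_of_lt (by simpa using hr), hch]
    exact h1.2.1.mono fun v hv => (sat_iff hN).mp hv.2.2 r
  · rw [ev_desc_of_le (by simp; omega)]
    refine ⟨h2, fun μ hμ p hp hpw α hα => ?_⟩
    rw [H_zip_ch (hD hμ).2 hα, hch, ← Ultrafilter.eventually_not]
    exact h1.2.2 μ hμ p hp hpw α hα

lemma fail_of_not_ex (hN : IsFam B (RA B) (RB B) N) {n : ℕ} {D : Set (ℕ × List ℕ)}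
    (hD : D ⊆ Full (n + 1)) (h : ¬ Ex B N (n + 1) D) :
    ∃ η, ∃ φ ∈ Tr B (RA B) (RB B) N η, ∃ P, FinP N η P ∧
      ∃ᶠ w in club Ω, φ w ∧ ¬ ExF B N φ (RD B n D) ∅ P n D w := by
  obtain ⟨η, φ, h1, P, h2, h3⟩ := compact hN (RD B n D) ∅ n D
    (fun P P' v w hP h x hx => h x (hP hx)) (fun _ => True) ((not_eventually.mp h).mono
      fun w hw => ⟨trivial, fun ⟨U, hU⟩ => hw (node_of_hasU hN hD hU)⟩)
  exact ⟨η, φ, h1, P, h2, h3.mono fun w hw => hw.2⟩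

lemma ex_zero (hN : IsFam B (RA B) (RB B) N) : Ex B N 0 ∅ :=
  Eventually.of_forall fun w => ⟨leaf w, rfl, rfl, (sat_iff hN).mpr fun r =>
    (ev_desc_of_le (Nat.zero_le r) _).mpr ⟨hN.leaf_mem w, fun _ h => h.elim⟩⟩

lemma ex_succ (hN : IsFam B (RA B) (RB B) N) (n : ℕ) (D : Set (ℕ × List ℕ)) (hD : D ⊆ Full n)
    (h : Ex B N n D) : Ex B N (n + 1) D := by
  by_contra hcon
  obtain ⟨η, φ, -, P, -, h3⟩ := fail_of_not_ex hN
    (fun d hd => ⟨(hD hd).1.trans (Nat.le_succ n), (hD hd).2⟩) hcon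
  obtain ⟨w, hw, b, rfl, hb⟩ := (h3.and_eventually h).exists
  obtain ⟨w', h4, h5⟩ := frequently_club_exists h3 b.apex
  exact h5.2 ⟨b, h4, hw.1, hb.1, hb.2, fun x _ μ hμ => absurd (hD hμ).1 (by simp)⟩

omit hΩ in
lemma sat_col (hN : IsFam B (RA B) (RB B) N) {D D' : Set (ℕ × List ℕ)} {ι : ℕ → ℕ}
    (hι : StrictMono ι) (hD : ∀ d ∈ D, (ι d.1, d.2.map ι) ∈ D') {t : ℕ} {c : Node Ω}
    (hc : c.rank = ι t) (h : Sat B N D' c) : Sat B N D (col ι t c) := by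
  rw [sat_iff hN] at h ⊢
  refine her_col hι hc fun s _ => (h _).mono fun e he hr => ⟨?_, fun μ hμ => ?_⟩
  · exact hN.col_mem e he.1 ι s hι fun i hi => hr ▸ hι hi
  · rw [rank_col] at hμ
    exact Dem.col hι hr (he.2 _ (hr ▸ hD _ hμ))

theorem exists_pre [Nonempty Ω] (hN : IsFam B (RA B) (RB B) N) :
    ∃ (h : ℕ) (W : Prm Ω) (η₀ : Ω) (ψ : Ω → Prop), FinP N η₀ W ∧ W.Nonempty ∧
      (∀ x ∈ W, x.2.length = h) ∧ (∃ᶠ w in club Ω, ψ w) ∧
      ∀ K η, ∀ φ ∈ Tr B (RA B) (RB B) N η, (∃ᶠ w in club Ω, ψ w ∧ φ w) →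
        ∃ ρ : Node Ω, ρ.rank = K ∧ η < ρ.apex ∧ φ ρ.apex ∧ Her (PreLoc B N h W) ρ := by
  have := club_neBot (Ω := Ω)
  rcases greedy_dichotomy (Ex B N) (ex_zero hN) (ex_succ hN) with hA | ⟨n, D, μ₀, hD, hμ₀, hE, hB⟩
  · obtain ⟨w0⟩ := ‹Nonempty Ω›
    refine ⟨0, {(leaf w0, [])}, w0, fun _ => True,
      ⟨finite_singleton _, by simpa using hN.leaf_mem w0⟩, singleton_nonempty _, by simp,
      (eventually_true _).frequently, fun K η φ _ hf => ?_⟩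
    obtain ⟨w, ⟨h1, b, rfl, h2, h3⟩, h4⟩ :=
      ((hf.and_eventually (hA K)).and_eventually (club_gt η)).exists
    refine ⟨b, h2, h4, h1.2, (((sat_iff hN).mp h3).and (her_rank b)).mono fun c hc =>
      ⟨hc.1.1, fun μ hμ _ => hc.1.2 μ ⟨h2 ▸ hc.2, hμ⟩, fun μ hμ hl => ?_⟩⟩
    exact absurd (List.length_eq_zero_iff.mp hl) hμ.1
  obtain ⟨n, rfl⟩ : ∃ m, n = m + 1 := ⟨n - 1, by have := hμ₀.pos; omega⟩
  have hD' : insert (n + 1, μ₀) D ⊆ Full (n + 1) := insert_subset ⟨le_rfl, hμ₀⟩ hD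
  obtain ⟨η₁, φ₁, h1, P, hP, hf₁⟩ := fail_of_not_ex hN hD' hE
  have hψ := tr_and h1 (tr_not (tr_ex h1 (R := RD B n (insert (n + 1, μ₀) D))
    (Or.inl ⟨(n, insert (n + 1, μ₀) D), (full_finite _).subset hD', rfl⟩)
    (W := ∅) ⟨finite_empty, by simp⟩ hP n ((full_finite _).subset hD')))
  refine ⟨μ₀.length, insert (leaf η₁, List.replicate μ₀.length 0) {x ∈ P | x.2.length = μ₀.length},
    η₁, _, ⟨(hP.1.subset (sep_subset _ _)).insert _, ?_⟩, insert_nonempty _ _, ?_, hf₁,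
    fun K η φ hφ hf => ?_⟩
  · rintro x (rfl | hx)
    · exact ⟨hN.leaf_mem _, le_rfl⟩
    · exact hP.2 x hx.1
  · rintro x (rfl | hx)
    · simp
    · exact hx.2
  obtain ⟨M, D', g, hD'', hE', hg, hgK, hs, hb⟩ := hB K
  obtain ⟨w, ⟨⟨h2, b, rfl, h3, h4⟩, h5⟩, h6⟩ := (((hf.and_eventually hE').and_eventually
    (club_gt η)).and_eventually (club_gt η₁)).exists
  rw [sat_iff hN] at h4
  have hbN := h4.self.1
  obtain ⟨c, ⟨e1, e2⟩, ⟨e3, e4⟩, e5, e6⟩ := (((h4.desc (g K)).and (desc_rank b (g K))).and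
    (((hN.desc_gt hbN h5 _).and (hN.desc_gt hbN h6 _)).and
      ((hN.desc_faith hbN h5 hφ h2.2 _).and (hN.desc_faith hbN h6 hψ h2.1 _)))).exists
  have hc : c.rank = g K := by omega
  refine ⟨col g K c, rank_col _ _ _, by rwa [apex_col], by rwa [apex_col],
    her_col hg hc fun t ht => ?_⟩
  filter_upwards [e1.desc (g t), hN.desc_gt e1.self.1 e4 _, hN.desc_faith e1.self.1 e4 hψ e6 _]
    with d f1 f2 f3 hr
  refine ⟨hN.col_mem d f1.self.1 g t hg fun i hi => hr ▸ hg hi, fun μ hμ hsm => ?_, fun μ hμ hl => ?_⟩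
  · rw [rank_col] at hμ
    have hl : μ.length < μ₀.length :=
      hsm.resolve_left fun h => hμ₀.1 (List.length_eq_zero_iff.mp h)
    exact Dem.col hg hr (f1.self.2 _ (hr ▸ hs t μ ht hμ hl))
  rw [rank_col] at hμ
  obtain ⟨ι, hι, k1, k2, k3⟩ := hb t μ ht hμ hl
  have hdι : d.rank = ι (n + 1) := hr.trans k1.symm
  have k4 := (sat_iff hN).mp (sat_col hN hι k3 hdι ((sat_iff hN).mpr f1))
  have k5 := k4.self.1
  have k0 : 0 < (col ι (n + 1) d).rank := by simp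
  have k6 : ∀ᶠ v in ((col ι (n + 1) d).ch : Filter (Node Ω)),
      ∃ z ∈ P ×ˢ {μ' | DecLt (n + 1) μ'}, (n + 1, z.2) ∈ insert (n + 1, μ₀) D ∧
        z.1.2.length = z.2.length ∧ H B z.1.1 v (z.2.zip z.1.2) d.apex := by
    filter_upwards [k4.ch k0, hN.ch_mem _ k5 k0, rank_ch _ k0,
      hN.faith _ k5 k0 η₁ (by rwa [apex_col]) φ₁ h1 (by rw [apex_col]; exact f3.1)]
      with v l1 l2 l3 l4
    rw [apex_col] at l2
    rw [rank_col] at l3
    by_contra hcon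
    push Not at hcon
    refine f3.2 ⟨v, l2.2, l4, by omega, (sat_iff hN).mpr ((l1.and (her_rank v)).mono fun e he =>
      ⟨he.1.1, fun ν hν => he.1.2 ν (hν.resolve_left fun h => ?_)⟩),
      fun x hx ν hν hl => hcon (x, ν) ⟨hx, (hD' hν).2⟩ hν hl⟩
    have := he.2
    simp only [Prod.mk.injEq] at h
    omega
  obtain ⟨⟨x, ν⟩, ⟨l1, l2⟩, l3⟩ := ev_exists_finite _ (hP.1.prod (decLt_finite (n + 1))) k6
  obtain ⟨_, l4, l5, -⟩ := l3.exists
  have l6 : H B x.1 (col ι (n + 1) d) (ν.zip x.2) d.apex :=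
    (H_zip_ch (by rwa [rank_col]) l5 _).mpr (l3.mono fun v hv => hv.2.2)
  rcases l4 with l4 | l4
  · obtain rfl : ν = μ₀ := congrArg Prod.snd l4
    refine ⟨x, Or.inr ⟨l1, l5⟩, ?_⟩
    rw [apex_col, H_zip_col hg _ _ _ _ _ _ hr, ← k2, ← H_zip_col hι _ _ _ _ _ _ hdι]
    exact l6
  · refine absurd l6 ?_
    have := k4.self.2 ν (by rwa [rank_col]) x.1 (hP.2 x l1).1
      (by rw [apex_col]; exact (hP.2 x l1).2.trans_lt f2) x.2 l5
    rwa [apex_col] at this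

end Pool.Agent.MP_71094f_lc.H37
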