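import Mathlib
import Pool.Agent.MP_71094f_lc.H37Pre

set_option autoImplicit false

/-!
Good trees of every finite rank below one common top.
-/

namespace Pool.Agent.MP_71094f_lc.H37

open Filter Set Node

variable {Ω : Type} [LinearOrder Ω] (B : Ω → Ω → Ω → Prop) (N : Set (Node Ω))

/-- The local properties of a good tree. -/
def GLoc (h : ℕ) (m : Node Ω × List ℕ) (c : Node Ω) : Prop :=
  (c ∈ N ∧ ∀ μ, DecLt c.rank μ → sm h μ → Dem B N c μ) ∧ Loc B m c

/-- An ultrafilter of good trees below a top. -/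
def TopU (h : ℕ) (m : Node Ω × List ℕ) (w : Ω) (j : ℕ) (U : Ultrafilter (Node Ω)) : Prop :=
  (∀ η, η < w → ∀ φ ∈ Tr B (RA B) (RB B) N η, φ w → ∀ᶠ v in (U : Filter (Node Ω)), φ v.apex) ∧
  (∀ᶠ v in (U : Filter (Node Ω)), v.rank = j ∧ Her (GLoc B N h m) v ∧ v.apex < w ∧
    HitS B m v w ∧ J B v w) ∧
  ∀ p ∈ N, p.apex < w → ∀ μ α, DecLt (j + 1) μ → sm h μ → α.length = μ.length →
    ∀ᶠ v in (U : Filter (Node Ω)), ¬ H B p v (μ.zip α) w

variable {B N}

omit [LinearOrder Ω] in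
lemma phi_col {g : ℕ → ℕ} (hg : StrictMono g) {t s : ℕ} {d : Node Ω} (hd : d.rank = g t)
    (_hs : s ≤ t) (ω : List (ℕ × ℕ)) (y : Ω) :
    Phi B (col g t d) s ω y ↔ Phi B d (g s) (ω.map (Prod.map g g)) y := by
  unfold Phi
  rw [ev_desc_col hg hd]
  exact eventually_congr ((desc_rank_col hg hd s).mono fun c hc => H_col hg y ω c c _ _ hc hc)

/-- The decreasing list of the first values of a function. -/
def lu (u : ℕ → ℕ) (b : ℕ) : List ℕ := (List.range (b + 1)).reverse.map u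

/-- Reading a decreasing list from below. -/
def dec (l : List ℕ) (i : ℕ) : ℕ := l.reverse.getD i 0

lemma dec_lu (g u : ℕ → ℕ) {b i : ℕ} (hi : i ≤ b) : dec ((lu u b).map g) i = g (u i) := by
  simp [dec, lu, List.getD_eq_getElem?_getD, List.map_reverse, Nat.lt_succ_of_le hi]

lemma lu_decLt {u : ℕ → ℕ} (hu : StrictMono u) {b t : ℕ} (ht : u b < t) : DecLt t (lu u b) := by
  refine ⟨by simp [lu], List.pairwise_cons.mpr ⟨fun a ha => ?_, ?_⟩⟩
  · obtain ⟨i, hi, rfl⟩ := List.mem_map.mp ha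
    have : i ≤ b := by simpa [Nat.lt_succ_iff] using hi
    exact (hu.monotone this).trans_lt ht
  · unfold lu
    rw [List.pairwise_map, List.pairwise_reverse]
    exact List.pairwise_lt_range.imp fun h => hu h

lemma DecLt.cons_le {t K : ℕ} {μ : List ℕ} (h : DecLt t μ) (ht : t ≤ K) : ∀ i ∈ t :: μ, i ≤ K := by
  intro i hi
  rcases List.mem_cons.mp hi with rfl | hi
  · exact ht
  · exact (h.lt i hi).le.trans ht

theorem good_of_pre (hK : NoK4 B) (hN : IsFam B (RA B) (RB B) N) {h : ℕ} {W : Prm Ω} {η₀ : Ω}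
    (hW : FinP N η₀ W) (hne : W.Nonempty) (hl : ∀ x ∈ W, x.2.length = h) (k : ℕ) :
    ∃ K, ∀ ρ : Node Ω, ρ.rank = K → η₀ < ρ.apex → Her (PreLoc B N h W) ρ →
      ∀ Q : Ω → Prop, Her (fun c => Q c.apex) ρ →
        ∃ d : Node Ω, d.rank = k + 1 ∧ Q d.apex ∧ ∃ m ∈ W, Her (GLoc B N h m) d := by
  have hAW : {z : ℕ × List (ℕ × ℕ) | z.1 ≤ k ∧ AWord z.1 z.2}.Finite :=
    ((finite_Iic k).prod ((finite_Iic k).biUnion fun b _ => aWord_finite b)).subset
      fun z hz => ⟨hz.1, mem_biUnion hz.1 hz.2⟩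
  have := hW.1.to_subtype
  have := hAW.to_subtype
  obtain ⟨M, hM⟩ := finite_ramsey (k + k + 1 + h + 1) (k + k + 1 + h)
    (Set W × Set {z : ℕ × List (ℕ × ℕ) | z.1 ≤ k ∧ AWord z.1 z.2})
  refine ⟨M, fun ρ hρ hη hP Q hQ => ?_⟩
  obtain ⟨g, hg, hgM, hom⟩ := hM fun l => match l with
    | [] => (∅, ∅)
    | t :: μ => ({x | ∀ᶠ c in (ρ.desc t : Filter (Node Ω)), H B x.1.1 c (μ.zip x.1.2) c.apex},
      {z | ∀ᶠ d in (ρ.desc t : Filter (Node Ω)),
        Phi B d (dec μ z.1.1) (z.1.2.map (Prod.map (dec μ) (dec μ))) d.apex})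
  have hom' := fun t μ t' μ' (h1 : DecLt t μ) (h2 : DecLt t' μ') (h3 : t ≤ k + k + 1 + h)
    (h4 : t' ≤ k + k + 1 + h) (h5 : μ.length = μ'.length) =>
    hom (t :: μ) (t' :: μ') h1.2 h2.2 (h1.cons_le h3) (h2.cons_le h4) (by simp [h5])
      (by have := h1.length_le; simp only [List.length_cons]; omega)
  simp only [List.map_cons, Prod.mk.injEq] at hom'
  have hrk : ∀ t, t ≤ k + k + 1 + h → ∀ᶠ c in (ρ.desc (g t) : Filter (Node Ω)), c.rank = g t :=
    fun t ht => (desc_rank ρ _).mono fun c hc => by have := hg.monotone ht; omega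
  have hρN := hP.self.1
  obtain ⟨m, hm, hhit⟩ : ∃ m ∈ W, ∀ t μ, t ≤ k + k + 1 + h → DecLt t μ → m.2.length = μ.length →
      ∀ᶠ c in (ρ.desc (g t) : Filter (Node Ω)), H B m.1 c ((μ.map g).zip m.2) c.apex := by
    rcases h with _ | h
    · obtain ⟨m, hm⟩ := hne
      exact ⟨m, hm, fun t μ _ h1 h2 =>
        absurd (List.length_eq_zero_iff.mp (h2.symm.trans (hl m hm))) h1.1⟩
    · have h1 : DecLt (h + 1) (lu id h) := lu_decLt strictMono_id (Nat.lt_succ_self h)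
      have h2 : (lu id h).length = h + 1 := by simp [lu]
      obtain ⟨m, hm, h3⟩ : ∃ x ∈ W, ∀ᶠ c in (ρ.desc (g (h + 1)) : Filter (Node Ω)),
          H B x.1 c (((lu id h).map g).zip x.2) c.apex := by
        refine ev_exists_finite _ hW.1 ?_
        filter_upwards [hP (g (h + 1)), hrk (h + 1) (by omega)] with c e1 e2
        exact e1.2.2 _ (e2 ▸ h1.map hg) (by simpa using h2)
      refine ⟨m, hm, fun t μ ht h4 h5 => ?_⟩
      have := (hom' _ _ t μ h1 h4 (by omega) ht (by rw [h2, ← h5, hl m hm])).1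
      exact (Set.ext_iff.mp this ⟨m, hm⟩).mp h3
  have hAB : ∀ b ω, b ≤ k → AWord b ω → ∀ t u t' u', StrictMono u → StrictMono u' → u b < t →
      u' b < t' → t ≤ k + k + 1 + h → t' ≤ k + k + 1 + h →
      (∀ᶠ d in (ρ.desc (g t) : Filter (Node Ω)),
        Phi B d (g (u b)) ((ω.map (Prod.map u u)).map (Prod.map g g)) d.apex) →
      ∀ᶠ d in (ρ.desc (g t') : Filter (Node Ω)),
        Phi B d (g (u' b)) ((ω.map (Prod.map u' u')).map (Prod.map g g)) d.apex := by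
    intro b ω hb hω t u t' u' hu hu' h1 h2 h3 h4 h5
    have aux : ∀ v : ℕ → ℕ, ω.map (Prod.map (dec ((lu v b).map g)) (dec ((lu v b).map g))) =
        (ω.map (Prod.map v v)).map (Prod.map g g) := by
      intro v
      rw [List.map_map]
      refine List.map_congr_left fun e he => ?_
      have := hω.norm.le e he
      simp [Prod.map, dec_lu g v this.1, dec_lu g v this.2]
    have := (hom' _ _ _ _ (lu_decLt hu h1) (lu_decLt hu' h2) h3 h4 (by simp [lu])).2
    have := Set.ext_iff.mp this ⟨(b, ω), hb, hω⟩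
    simp only [mem_ofPred_eq, aux, dec_lu g _ le_rfl] at this
    exact this.mp h5
  have hA : ∀ b ω t, b ≤ k → AWord b ω → b < t → t ≤ k + k + 1 + h →
      ∀ᶠ d in (ρ.desc (g t) : Filter (Node Ω)), ¬ Phi B d (g b) (ω.map (Prod.map g g)) d.apex := by
    intro b ω t hb hω hbt ht
    rw [Ultrafilter.eventually_not]
    intro h1
    have hb0 : 0 < b := by obtain ⟨r, _, _, h, _⟩ := hω; omega
    have hu : up b b = b + b := by unfold up; split_ifs <;> omega
    have h2 := fun t' u' => hAB b ω hb hω t id t' u' strictMono_id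
    simp only [Prod.map_id, List.map_id, id] at h2
    have h3 := h2 (b + b + 1) id strictMono_id hbt (by simp only [id]; omega) ht (by omega) h1
    have h4 := h2 (b + b + 1) (up b) (up_strictMono b) hbt (by omega) ht (by omega) h1
    have h5 := h2 (b + b) id strictMono_id hbt (by simp only [id]; omega) ht (by omega) h1
    simp only [Prod.map_id, List.map_id, id, hu] at h3 h4 h5
    obtain ⟨d, ⟨e1, e2⟩, ⟨e3, e4⟩, e5⟩ := ((h3.and h4).and
      (((hN.desc_mem hρN _).and (hrk (b + b + 1) (by omega))).and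
        ((ev_desc_desc (hg.monotone (Nat.le_succ (b + b))) ρ _).mp h5))).exists
    refine killA hK hN hω (d := col g (b + b + 1) d)
      (hN.col_mem d e3.1 g _ hg fun i hi => e4 ▸ hg hi) (by simp) ?_ ?_ ?_
    · rw [apex_col, phi_col hg e4 (by omega)]; exact e1
    · rw [apex_col, phi_col hg e4 (by omega)]; exact e2
    · rw [ev_desc_col hg e4]
      filter_upwards [e5, desc_rank_col hg e4 (b + b)] with e f1 f2
      rw [apex_col, phi_col hg f2 (by omega)]; exact f1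
  have hfact : ∀ s ∈ Iic (k + 1), ∀ᶠ d in (ρ.desc (g (k + 1)) : Filter (Node Ω)),
      ∀ᶠ c in (d.desc (g s) : Filter (Node Ω)), c.rank = g s → GLoc B N h m (col g s c) := by
    intro s hs
    have hs' : s ≤ k + 1 := hs
    rw [← ev_desc_desc (hg.monotone hs')]
    have f1 := (eventually_all_finite (decLt_finite s)).mpr fun μ hμ => eventually_imp_distrib_left.mpr
      fun h' : m.2.length = μ.length => hhit s μ (by omega) hμ h'
    have f2 := (eventually_all_finite hAW).mpr fun z hz => eventually_imp_distrib_left.mpr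
      fun h' : z.1 < s => hA z.1 z.2 s hz.1 hz.2 h' (by omega)
    filter_upwards [f1, f2, hP (g s), hN.desc_gt hρN hη (g s)] with c e1 e2 e3 e4 hr
    refine ⟨⟨hN.col_mem c e3.1 g s hg fun i hi => hr ▸ hg hi, fun μ hμ hsm => ?_⟩, ?_,
      fun μ hμ hl' => ?_, fun b ω hω hb => ?_⟩
    · rw [rank_col] at hμ
      exact Dem.col hg hr (e3.2.1 _ (hr ▸ hμ.map hg) (by simpa [sm] using hsm))
    · rw [apex_col]; exact (hW.2 m hm).2.trans_lt e4
    · rw [rank_col] at hμ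
      rw [apex_col, H_zip_col hg _ _ _ _ _ _ hr]
      exact e1 μ hμ hl'
    · rw [rank_col] at hb
      rw [apex_col, phi_col hg hr hb.le]
      exact e2 (b, ω) ⟨by simp only; omega, hω⟩ hb
  obtain ⟨d, ⟨e1, e2⟩, e3⟩ := ((((eventually_all_finite (finite_Iic (k + 1))).mpr hfact).and
    (hrk (k + 1) (by omega))).and (hQ _)).exists
  exact ⟨col g (k + 1) d, rank_col _ _ _, by rwa [apex_col], m, hm, her_col hg e2 e1⟩

lemma topU_of_good (hN : IsFam B (RA B) (RB B) N) {h : ℕ} {m : Node Ω × List ℕ} {a : Node Ω}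
    (ha : Her (GLoc B N h m) a) {j : ℕ} (hj : a.rank = j + 1) : TopU B N h m a.apex j a.ch := by
  obtain ⟨⟨h1, h2⟩, -, h4, h5⟩ := ha.self
  have h0 : 0 < a.rank := by omega
  refine ⟨hN.faith a h1 h0, ?_, fun p hp hpa μ α hμ hsm hα => ?_⟩
  · have f1 := (eventually_all_finite (decLt_finite a.rank)).mpr fun μ hμ =>
      eventually_imp_distrib_left.mpr fun h' : m.2.length = μ.length =>
        (H_zip_ch hμ h' _).mp (h4 μ hμ h')
    have hAW : {z : ℕ × List (ℕ × ℕ) | z.1 ≤ j ∧ AWord z.1 z.2}.Finite :=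
      ((finite_Iic j).prod ((finite_Iic j).biUnion fun b _ => aWord_finite b)).subset
        fun z hz => ⟨hz.1, mem_biUnion hz.1 hz.2⟩
    have f2 : ∀ᶠ c in (a.ch : Filter (Node Ω)), ∀ z ∈ {z : ℕ × List (ℕ × ℕ) | z.1 ≤ j ∧ AWord z.1 z.2},
        ¬ Phi B c z.1 z.2 a.apex := by
      refine (eventually_all_finite hAW).mpr fun z hz => ?_
      have hz1 : z.1 < a.rank := by have := hz.1; omega
      rw [Ultrafilter.eventually_not]
      exact fun h' => h5 z.1 z.2 hz.2 hz1 ((ev_desc_of_lt hz1 _).mpr h')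
    filter_upwards [f1, f2, ha.ch h0, hN.ch_mem a h1 h0, rank_ch a h0] with c e1 e2 e3 e4 e5
    exact ⟨by omega, e3, e4.2, fun μ hμ hl => e1 μ (e5 ▸ hμ) hl,
      fun s ω hω hs => e2 (s, ω) ⟨by simp only; omega, hω⟩⟩
  · rw [Ultrafilter.eventually_not, ← H_zip_ch (hj ▸ hμ) hα]
    exact h2 μ (hj ▸ hμ) hsm p hp hpa α hα

theorem exists_top [OmOne Ω] [Nonempty Ω] (hK : NoK4 B) (hN : IsFam B (RA B) (RB B) N) :
    ∃ (h : ℕ) (m : Node Ω × List ℕ) (w : Ω), m.1 ∈ N ∧ m.2.length = h ∧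
      ∀ n, ∃ j, n ≤ j ∧ ∃ U, TopU B N h m w j U := by
  obtain ⟨h, W, η₀, ψ, hW, hne, hl, hψ, hpre⟩ := exists_pre hN
  have key : ∀ k ∈ (univ : Set ℕ), ∀ᶠ w in club Ω, ψ w →
      ∃ U, HasU B N (RG B h) W k {d ∈ Full k | sm h d.2} w U := by
    intro k _
    by_contra hcon
    obtain ⟨η, φ, h1, P, hP, hf⟩ := compact hN (RG B h) W k {d ∈ Full k | sm h d.2}
      (fun P P' v w hP h => ⟨h.1, h.2.1, fun x hx => h.2.2 x (hP hx)⟩) ψ
      ((not_eventually.mp hcon).mono fun w hw => Classical.not_imp.mp hw)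
    have h1' := tr_mono (le_max_left η η₀) h1
    have hφ := tr_and h1' (tr_not (tr_ex h1' (R := RG B h) (Or.inr ⟨h, rfl⟩)
      (hW.mono (le_max_right _ _)) (hP.mono (le_max_left _ _)) k
      ((full_finite k).subset (sep_subset _ fun d => sm h d.2))))
    obtain ⟨K, hK'⟩ := good_of_pre hK hN hW hne hl k
    obtain ⟨ρ, e1, e2, e3, e4⟩ := hpre K _ _ hφ hf
    obtain ⟨d, f1, ⟨f2, f3, f4⟩, m, hm, f5⟩ := hK' ρ e1 ((le_max_right _ _).trans_lt e2) e4
      (fun y => max η η₀ < y ∧ φ y ∧ ¬ ExF B N φ (RG B h) W P k {d ∈ Full k | sm h d.2} y)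
      fun r => (hN.desc_gt e4.self.1 e2 r).and (hN.desc_faith e4.self.1 e2 hφ e3 r)
    obtain ⟨g1, g2, g3⟩ := topU_of_good hN f5 f1
    have g4 : ∀ᶠ v in (d.ch : Filter (Node Ω)), ∀ z ∈ P ×ˢ {μ | DecLt (k + 1) μ}, sm h z.2 →
        z.1.2.length = z.2.length → ¬ H B z.1.1 v (z.2.zip z.1.2) d.apex := by
      refine (eventually_all_finite (hP.1.prod (decLt_finite _))).mpr fun z hz => ?_
      exact eventually_imp_distrib_left.mpr fun k1 => eventually_imp_distrib_left.mpr fun k2 =>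
        g3 _ (hP.2 _ hz.1).1 (((hP.2 _ hz.1).2.trans (le_max_left _ _)).trans_lt f2) _ _ hz.2 k1 k2
    obtain ⟨v, ⟨k1, k2⟩, k3⟩ := ((g2.and g4).and (g1 _ f2 φ h1' f3)).exists
    exact f4 ⟨v, k1.2.2.1, k3, k1.1, (sat_iff hN).mpr (k1.2.1.mono fun c hc =>
      ⟨hc.1.1, fun μ hμ => hc.1.2 μ hμ.1.2 hμ.2⟩), ⟨m, hm, k1.2.1.mono fun c hc => hc.2, k1.2.2.2.1⟩,
      k1.2.2.2.2, fun x hx μ hμ => k2 (x, μ) ⟨hx, k1.1 ▸ hμ⟩⟩
  obtain ⟨w, ⟨h1, h2⟩, h3⟩ := ((hψ.and_eventually (club_countable countable_univ key)).and_eventually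
    (club_gt η₀)).exists
  have h4 : ∀ k, ∃ m ∈ W, ∃ U, TopU B N h m w k U := by
    intro k
    obtain ⟨U, u1, u2, u3⟩ := h2 k trivial h1
    have u4 := u3 η₀ h3 ∅ ⟨finite_empty, by simp⟩
    obtain ⟨m, hm, u5⟩ := ev_exists_finite U hW.1 (u4.mono fun v hv => hv.1)
    refine ⟨m, hm, U, u1, ?_, fun p hp hpw μ α hμ hsm hα => ?_⟩
    · filter_upwards [u2, u4, u5] with v e1 e2 e3
      refine ⟨e1.2.1, ((((sat_iff hN).mp e1.2.2).and (her_rank v)).and e3.1).mono fun c hc =>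
        ⟨⟨hc.1.1.1, fun μ hμ hsm => hc.1.1.2 μ ⟨⟨e1.2.1 ▸ hc.1.2, hμ⟩, hsm⟩⟩, hc.2⟩,
        e1.1, e3.2, e2.2.1⟩
    · filter_upwards [u2, u3 _ hpw {(p, α)} ⟨finite_singleton _, by simpa using hp⟩] with v e1 e2
      exact e2.2.2 (p, α) rfl μ (e1.2.1 ▸ hμ) hsm hα
  obtain ⟨m, hm, h5⟩ := (frequently_exists_finite hW.1 (l := atTop)
    (p := fun m k => ∃ U, TopU B N h m w k U)).mp (Frequently.of_forall h4)
  exact ⟨h, m, w, (hW.2 m hm).1, hl m hm, fun n => frequently_atTop.mp h5 n⟩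

end Pool.Agent.MP_71094f_lc.H37
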