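import Mathlib
import Pool.Agent.MP_71094f_lc.Select

set_option autoImplicit false

/-!
Selection lemma with move filters that depend on the index of the child.
-/

namespace Pool.Agent.MP_71094f_lc.H37

open Filter

/-- An invariant system for the three-token game, with move filters indexed by the child. -/
structure Sys (X : Type*) where
  D : X → ℕ → Filter X
  Fit : X → Shape → Prop
  R111 : X → X → X → Prop
  R21 : X → X → Prop
  R12 : X → X → Prop
  R3 : X → Prop
  fit_ne : ∀ x ch n, Fit x (Shape.node ch) → (D x n).NeBot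
  fit : ∀ x ch n, R3 x → Fit x (Shape.node ch) → ∀ᶠ x' in D x n, Fit x' (ch n)
  h111a : ∀ a b c n, R111 a b c → ∀ᶠ a' in D a n, R111 a' b c
  h111b : ∀ a b c n, R111 a b c → ∀ᶠ b' in D b n, R111 a b' c
  h111c : ∀ a b c n, R111 a b c → ∀ᶠ c' in D c n, R111 a b c'
  h21 : ∀ a c n, R21 a c → ∀ᶠ a' in D a n, R111 a' a c ∧ R21 a' c
  h21c : ∀ a c n, R21 a c → ∀ᶠ c' in D c n, R21 a c'
  h12a : ∀ a b n, R12 a b → ∀ᶠ a' in D a n, R12 a' b
  h12 : ∀ a b n, R12 a b → ∀ᶠ b' in D b n, R111 a b' b ∧ R12 a b'
  h3 : ∀ a n, R3 a → ∀ᶠ a' in D a n, R12 a' a ∧ R21 a' a ∧ R3 a'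

variable {X : Type*}

/-- The invariant after the addresses of code below `n` have been assigned. -/
structure Inv (S : Sys X) (σ : Shape) (g : List ℕ → X) (n : ℕ) : Prop where
  fit : ∀ a τ, code a < n → σ.sub a = some τ → S.Fit (g a) τ
  r3 : ∀ a, code a < n → (σ.sub a).isSome → S.R3 (g a)
  r21 : ∀ a c, code a < n → code c < n → (σ.sub a).isSome → (σ.sub c).isSome → prec a c →
    S.R21 (g a) (g c)
  r12 : ∀ a c, code a < n → code c < n → (σ.sub a).isSome → (σ.sub c).isSome → prec a c →
    S.R12 (g a) (g c)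
  r111 : ∀ a b c, code a < n → code b < n → code c < n → (σ.sub a).isSome → (σ.sub b).isSome →
    (σ.sub c).isSome → prec a b → prec b c → S.R111 (g a) (g b) (g c)

lemma Inv.step (S : Sys X) (σ : Shape) (g : List ℕ → X) (n : ℕ) (hn : 0 < n)
    (h : Inv S σ g n) :
    ∃ g' : List ℕ → X, (∀ a, code a ≠ n → g' a = g a) ∧ Inv S σ g' (n + 1) := by
  classical
  by_cases hq : ∃ q, code q = n ∧ (σ.sub q).isSome
  swap
  · refine ⟨g, fun _ _ => rfl, ?_⟩
    have key : ∀ a, code a < n + 1 → (σ.sub a).isSome → code a < n := by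
      intro a ha hv
      rcases Nat.lt_succ_iff_lt_or_eq.mp ha with h1 | h1
      · exact h1
      · exact absurd ⟨a, h1, hv⟩ hq
    constructor
    · intro a τ ha hτ
      exact h.fit a τ (key a ha (by simp [hτ])) hτ
    · intro a ha hv; exact h.r3 a (key a ha hv) hv
    · intro a c ha hc hva hvc; exact h.r21 a c (key a ha hva) (key c hc hvc) hva hvc
    · intro a c ha hc hva hvc; exact h.r12 a c (key a ha hva) (key c hc hvc) hva hvc
    · intro a b c ha hb hc hva hvb hvc
      exact h.r111 a b c (key a ha hva) (key b hb hvb) (key c hc hvc) hva hvb hvc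
  obtain ⟨q, hqn, hqv⟩ := hq
  induction q using List.reverseRecOn with
  | nil => rw [code_nil] at hqn; omega
  | append_singleton s k _ =>
  obtain ⟨τ, hτ⟩ := Option.isSome_iff_exists.mp hqv
  obtain ⟨ch, hs, rfl⟩ := Shape.sub_append_singleton σ s k τ hτ
  have hsn : code s < n := hqn ▸ code_lt_child s k
  have hsv : (σ.sub s).isSome := by simp [hs]
  have hfit := h.fit s _ hsn hs
  have := S.fit_ne _ _ k hfit
  have hF := finite_code_lt n
  have hFF := hF.prod hF
  have e0 := S.fit _ _ k (h.r3 s hsn hsv) hfit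
  have e1 := S.h3 _ k (h.r3 s hsn hsv)
  have e2 : ∀ᶠ x' in S.D (g s) k, ∀ c ∈ {a : List ℕ | code a < n}, (σ.sub c).isSome → prec s c →
      (S.R111 x' (g s) (g c) ∧ S.R21 x' (g c)) ∧ S.R12 x' (g c) := by
    rw [eventually_all_finite hF]
    intro c hc
    by_cases h1 : (σ.sub c).isSome ∧ prec s c
    · filter_upwards [S.h21 _ _ k (h.r21 s c hsn hc hsv h1.1 h1.2),
        S.h12a _ _ k (h.r12 s c hsn hc hsv h1.1 h1.2)] with x' hx hx' _ _ using ⟨hx, hx'⟩
    · exact Eventually.of_forall fun _ h2 h3 => absurd ⟨h2, h3⟩ h1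
  have e3 : ∀ᶠ x' in S.D (g s) k, ∀ a ∈ {a : List ℕ | code a < n}, (σ.sub a).isSome → prec a s →
      (S.R111 (g a) x' (g s) ∧ S.R12 (g a) x') ∧ S.R21 (g a) x' := by
    rw [eventually_all_finite hF]
    intro c hc
    by_cases h1 : (σ.sub c).isSome ∧ prec c s
    · filter_upwards [S.h12 _ _ k (h.r12 c s hc hsn h1.1 hsv h1.2),
        S.h21c _ _ k (h.r21 c s hc hsn h1.1 hsv h1.2)] with x' hx hx' _ _ using ⟨hx, hx'⟩
    · exact Eventually.of_forall fun _ h2 h3 => absurd ⟨h2, h3⟩ h1
  have e4 : ∀ᶠ x' in S.D (g s) k, ∀ p ∈ {a : List ℕ | code a < n} ×ˢ {a : List ℕ | code a < n},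
      (σ.sub p.1).isSome → (σ.sub p.2).isSome →
      (prec p.1 p.2 → prec p.2 s → S.R111 (g p.1) (g p.2) x') ∧
      (prec p.1 s → prec s p.2 → S.R111 (g p.1) x' (g p.2)) ∧
      (prec s p.1 → prec p.1 p.2 → S.R111 x' (g p.1) (g p.2)) := by
    rw [eventually_all_finite hFF]
    rintro ⟨a, b⟩ ⟨ha, hb⟩
    by_cases h1 : (σ.sub a).isSome ∧ (σ.sub b).isSome
    · have f1 : ∀ᶠ x' in S.D (g s) k, prec a b → prec b s → S.R111 (g a) (g b) x' := by
        by_cases h2 : prec a b ∧ prec b s
        · filter_upwards [S.h111c _ _ _ k (h.r111 a b s ha hb hsn h1.1 h1.2 hsv h2.1 h2.2)]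
            with x' hx _ _ using hx
        · exact Eventually.of_forall fun _ h3 h4 => absurd ⟨h3, h4⟩ h2
      have f2 : ∀ᶠ x' in S.D (g s) k, prec a s → prec s b → S.R111 (g a) x' (g b) := by
        by_cases h2 : prec a s ∧ prec s b
        · filter_upwards [S.h111b _ _ _ k (h.r111 a s b ha hsn hb h1.1 hsv h1.2 h2.1 h2.2)]
            with x' hx _ _ using hx
        · exact Eventually.of_forall fun _ h3 h4 => absurd ⟨h3, h4⟩ h2
      have f3 : ∀ᶠ x' in S.D (g s) k, prec s a → prec a b → S.R111 x' (g a) (g b) := by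
        by_cases h2 : prec s a ∧ prec a b
        · filter_upwards [S.h111a _ _ _ k (h.r111 s a b hsn ha hb hsv h1.1 h1.2 h2.1 h2.2)]
            with x' hx _ _ using hx
        · exact Eventually.of_forall fun _ h3 h4 => absurd ⟨h3, h4⟩ h2
      filter_upwards [f1, f2, f3] with x' h1 h2 h3 _ _ using ⟨h1, h2, h3⟩
    · exact Eventually.of_forall fun _ h2 h3 => absurd ⟨h2, h3⟩ h1
  obtain ⟨x, ⟨hx0, hx1⟩, ⟨hx2, hx3⟩, hx4⟩ := ((e0.and e1).and ((e2.and e3).and e4)).exists
  set q := s ++ [k] with hqdef
  have hcase : ∀ a, code a < n + 1 → a = q ∨ code a < n := by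
    intro a ha
    rcases Nat.lt_succ_iff_lt_or_eq.mp ha with h1 | h1
    · exact Or.inr h1
    · exact Or.inl (code_injective (h1.trans hqn.symm))
  have hne : ∀ a, code a < n → a ≠ q := fun a ha h1 => by rw [h1, hqn] at ha; exact lt_irrefl _ ha
  have hlo : ∀ a, code a < n → (prec a q ↔ prec a s) := by
    intro a ha
    refine prec_child_iff s k a fun m l hm hal => ?_
    have := code_child_le s k m l hm
    rw [← hal, ← hqdef, hqn] at this
    omega
  have hhi : ∀ a, code a < n → prec q a → a = s ∨ prec s a := by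
    intro a ha hqa
    rcases prec_trichotomy a s with h1 | h1 | h1
    · exact absurd (prec_trans hqa ((hlo a ha).mpr h1)) (prec_irrefl _)
    · exact Or.inl h1
    · exact Or.inr h1
  have gq : Function.update g q x q = x := Function.update_self ..
  have go : ∀ a, code a < n → Function.update g q x a = g a :=
    fun a ha => Function.update_of_ne (hne a ha) ..
  refine ⟨Function.update g q x, fun a ha => Function.update_of_ne (fun h1 => ha (by rw [h1]; exact hqn)) .., ?_⟩
  constructor
  · intro a τ' ha hτ'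
    rcases hcase a ha with rfl | ha
    · rw [gq]
      rw [hτ] at hτ'
      cases hτ'
      exact hx0
    · rw [go a ha]; exact h.fit a τ' ha hτ'
  · intro a ha hv
    rcases hcase a ha with rfl | ha
    · rw [gq]; exact hx1.2.2
    · rw [go a ha]; exact h.r3 a ha hv
  · intro a c ha hc hva hvc hac
    rcases hcase a ha with rfl | ha
    · rcases hcase c hc with rfl | hc
      · exact absurd hac (prec_irrefl _)
      · rw [gq, go c hc]
        rcases hhi c hc hac with rfl | h1
        · exact hx1.2.1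
        · exact (hx2 c hc hvc h1).1.2
    · rcases hcase c hc with rfl | hc
      · rw [gq, go a ha]; exact (hx3 a ha hva ((hlo a ha).mp hac)).2
      · rw [go a ha, go c hc]; exact h.r21 a c ha hc hva hvc hac
  · intro a c ha hc hva hvc hac
    rcases hcase a ha with rfl | ha
    · rcases hcase c hc with rfl | hc
      · exact absurd hac (prec_irrefl _)
      · rw [gq, go c hc]
        rcases hhi c hc hac with rfl | h1
        · exact hx1.1
        · exact (hx2 c hc hvc h1).2
    · rcases hcase c hc with rfl | hc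
      · rw [gq, go a ha]; exact (hx3 a ha hva ((hlo a ha).mp hac)).1.2
      · rw [go a ha, go c hc]; exact h.r12 a c ha hc hva hvc hac
  · intro a b c ha hb hc hva hvb hvc hab hbc
    rcases hcase a ha with rfl | ha
    · rcases hcase b hb with rfl | hb
      · exact absurd hab (prec_irrefl _)
      rcases hcase c hc with rfl | hc
      · exact absurd (prec_trans hab hbc) (prec_irrefl _)
      rw [gq, go b hb, go c hc]
      rcases hhi b hb hab with rfl | h1
      · exact (hx2 c hc hvc hbc).1.1
      · exact (hx4 (b, c) ⟨hb, hc⟩ hvb hvc).2.2 h1 hbc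
    · rcases hcase b hb with rfl | hb
      · rcases hcase c hc with rfl | hc
        · exact absurd hbc (prec_irrefl _)
        rw [gq, go a ha, go c hc]
        rcases hhi c hc hbc with rfl | h1
        · exact (hx3 a ha hva ((hlo a ha).mp hab)).1.1
        · exact (hx4 (a, c) ⟨ha, hc⟩ hva hvc).2.1 ((hlo a ha).mp hab) h1
      · rcases hcase c hc with rfl | hc
        · rw [gq, go a ha, go b hb]
          exact (hx4 (a, b) ⟨ha, hb⟩ hva hvb).1 hab ((hlo b hb).mp hbc)
        · rw [go a ha, go b hb, go c hc]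
          exact h.r111 a b c ha hb hc hva hvb hvc hab hbc

/-- The selection lemma. -/
theorem Sys.select (S : Sys X) (σ : Shape) (root : X) (hfit : S.Fit root σ) (h3 : S.R3 root) :
    ∃ g : List ℕ → X, (∀ a τ, σ.sub a = some τ → S.Fit (g a) τ) ∧
      (∀ a c, (σ.sub a).isSome → (σ.sub c).isSome → prec a c → S.R21 (g a) (g c)) ∧
      ∀ a b c, (σ.sub a).isSome → (σ.sub b).isSome → (σ.sub c).isSome →
        prec a b → prec b c → S.R111 (g a) (g b) (g c) := by
  have h0 : Inv S σ (fun _ => root) 1 := by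
    have key : ∀ a, code a < 1 → a = [] := fun a ha =>
      code_injective (by rw [code_nil]; omega)
    constructor
    · intro a τ ha hτ
      rw [key a ha] at hτ
      cases σ <;> (simp only [Shape.sub, Option.some.injEq] at hτ; rw [← hτ]; exact hfit)
    · intro _ _ _; exact h3
    · intro a c ha _ _ _ hac; rw [key a ha] at hac; exact absurd hac (by simp [prec])
    · intro a c ha _ _ _ hac; rw [key a ha] at hac; exact absurd hac (by simp [prec])
    · intro a b c ha _ _ _ _ _ hab; rw [key a ha] at hab; exact absurd hab (by simp [prec])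
  let G : (n : ℕ) → {g : List ℕ → X // Inv S σ g (n + 1)} := fun n =>
    Nat.rec ⟨fun _ => root, h0⟩
      (fun m p => ⟨(Inv.step S σ p.1 (m + 1) (Nat.succ_pos m) p.2).choose,
        (Inv.step S σ p.1 (m + 1) (Nat.succ_pos m) p.2).choose_spec.2⟩) n
  have hG : ∀ m a, code a ≠ m + 1 → (G (m + 1)).1 a = (G m).1 a := fun m a ha =>
    (Inv.step S σ (G m).1 (m + 1) (Nat.succ_pos m) (G m).2).choose_spec.1 a ha
  have hst : ∀ a m, code a ≤ m → (G m).1 a = (G (code a)).1 a := by
    intro a m hm
    induction m, hm using Nat.le_induction with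
    | base => rfl
    | succ m hm ih => rw [hG m a (by omega), ih]
  refine ⟨fun a => (G (code a)).1 a, ?_, ?_, ?_⟩
  · intro a τ hτ
    exact (G (code a)).2.fit a τ (Nat.lt_succ_self _) hτ
  · intro a c ha hc hac
    have := (G (code a + code c)).2.r21 a c (by omega) (by omega) ha hc hac
    rwa [hst a _ (by omega), hst c _ (by omega)] at this
  · intro a b c ha hb hc hab hbc
    have := (G (code a + code b + code c)).2.r111 a b c (by omega) (by omega) (by omega)
      ha hb hc hab hbc
    rwa [hst a _ (by omega), hst b _ (by omega), hst c _ (by omega)] at this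

end Pool.Agent.MP_71094f_lc.H37
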