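import Mathlib
import Pool.Agent.MP_71094f_lc.H37Good
import Pool.Agent.MP_71094f_lc.H37Select

set_option autoImplicit false

/-!
The red set of type omega to the omega plus one.
-/

namespace Pool.Agent.MP_71094f_lc.H37

open Filter Set Node

variable {Ω : Type} [LinearOrder Ω] {B : Ω → Ω → Ω → Prop} {N : Set (Node Ω)}

omit [LinearOrder Ω] in
lemma HitS.ch {m : Node Ω × List ℕ} {a : Node Ω} {y : Ω} (h : HitS B m a y) (h0 : 0 < a.rank) :
    ∀ᶠ c in (a.ch : Filter (Node Ω)), HitS B m c y := by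
  have f1 := (eventually_all_finite (decLt_finite a.rank)).mpr fun μ hμ =>
    eventually_imp_distrib_left.mpr fun h' : m.2.length = μ.length =>
      (H_zip_ch hμ h' _).mp (h μ (DecLt.mono hμ (Nat.le_succ _)) h')
  filter_upwards [f1, rank_ch a h0] with c e1 e2
  exact fun μ hμ hl => e1 μ (e2 ▸ hμ) hl

omit [LinearOrder Ω] in
lemma J.ch {a : Node Ω} {y : Ω} (h : J B a y) (h0 : 0 < a.rank) :
    ∀ᶠ c in (a.ch : Filter (Node Ω)), J B c y := by
  have hAW : {z : ℕ × List (ℕ × ℕ) | z.1 < a.rank ∧ AWord z.1 z.2}.Finite :=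
    ((finite_Iio a.rank).prod ((finite_Iio a.rank).biUnion fun b _ => aWord_finite b)).subset
      fun z hz => ⟨hz.1, mem_biUnion hz.1 hz.2⟩
  have f2 : ∀ᶠ c in (a.ch : Filter (Node Ω)),
      ∀ z ∈ {z : ℕ × List (ℕ × ℕ) | z.1 < a.rank ∧ AWord z.1 z.2}, ¬ Phi B c z.1 z.2 y := by
    refine (eventually_all_finite hAW).mpr fun z hz => ?_
    rw [Ultrafilter.eventually_not]
    exact fun h' => h z.1 z.2 hz.2 hz.1.le ((ev_desc_of_lt hz.1 _).mpr h')
  filter_upwards [f2, rank_ch a h0] with c e1 e2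
  exact fun s ω hω hs => e1 (s, ω) ⟨by simp only; omega, hω⟩

lemma TopU.atom {h j : ℕ} {m : Node Ω × List ℕ} {w : Ω} {U : Ultrafilter (Node Ω)}
    (hU : TopU B N h m w j U) {p q : Node Ω} (hp : p ∈ N) (hq : q ∈ N) (h1 : p.apex < w)
    (h2 : q.apex < w) {R : Rel1 Ω} (hR : R ∈ RA B) :
    (R p q w → ∀ᶠ c in (U : Filter (Node Ω)), R p q c.apex) ∧
    (¬ R p q w → ∀ᶠ c in (U : Filter (Node Ω)), ¬ R p q c.apex) :=
  ⟨hU.1 _ (max_lt h1 h2) _ (tr_atom hR hp hq (le_max_left _ _) (le_max_right _ _)),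
    hU.1 _ (max_lt h1 h2) _ (tr_not (tr_atom hR hp hq (le_max_left _ _) (le_max_right _ _)))⟩

lemma TopU.gt {h j : ℕ} {m : Node Ω × List ℕ} {w : Ω} {U : Ultrafilter (Node Ω)}
    (hU : TopU B N h m w j U) {p : Node Ω} (hp : p ∈ N) (h1 : p.apex < w) :
    ∀ᶠ c in (U : Filter (Node Ω)), p.apex < c.apex :=
  (hU.atom hp hp h1 h1 (RA_lt B)).1 h1

lemma TopU.notWin (hK : NoK4 B) (hN : IsFam B (RA B) (RB B) N) {h j : ℕ} {m : Node Ω × List ℕ}
    (hm : m.1 ∈ N) (hl : m.2.length = h) {w : Ω} {U : Ultrafilter (Node Ω)}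
    (hU : TopU B N h m w j U) {a : Node Ω} (ha : Her (GLoc B N h m) a) (haw : a.apex < w)
    (hit : HitS B m a w) : ∀ᶠ c in (U : Filter (Node Ω)), ¬ Win B a c w := by
  rw [Ultrafilter.eventually_not]
  intro hw
  obtain ⟨ω, hω, h1⟩ := win_M_gen U (hU.2.1.mono fun v hv => hv.1) hw
  have haN := ha.self.1.1
  by_cases hs : sm h (ω.map Prod.fst)
  · have h2 := hU.2.2 a haN haw _ (ω.map Prod.snd) hω.decLt hs (by simp)
    rw [List.zip_map', List.map_id'] at h2
    exact Ultrafilter.eventually_not.mp h2 h1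
  simp only [sm, List.length_map, not_or, not_lt] at hs
  obtain ⟨h', rfl⟩ : ∃ h', h = h' + 1 := ⟨h - 1, by omega⟩
  obtain ⟨q1, q2⟩ := hω.lx_spec h' (by omega)
  obtain ⟨q3, q4⟩ := hω.lz_spec h' (by omega)
  have h2 := hit _ q1 (by omega)
  have h3 := ha.self.2.1
  obtain ⟨v, ⟨e1, e2⟩, e3, e4⟩ := ((h1.and hU.2.1).and ((hU.gt haN haw).and
    ((hU.atom hm haN (h3.trans haw) haw (RA_H B _)).1 h2))).exists
  exact killS hK hN w hω h' m.2 m.1 a v (by omega) hl hm haN e2.2.1.self.1.1 h3 e3 e2.2.2.1 rfl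
    e1 h2 e4 (e2.2.2.2.1 _ (e2.1 ▸ q3) (by omega))

/-- The regular shapes of finite rank. -/
def sg : ℕ → Shape
  | 0 => Shape.leaf
  | r + 1 => Shape.node fun _ => sg r

lemma sg_sub : ∀ (r : ℕ) (l : List ℕ), l.length = r → (sg r).sub l = some Shape.leaf
  | 0, [], _ => rfl
  | r + 1, _ :: l, h => sg_sub r l (by simpa using h)

/-- Addresses of the points of the red set. -/
def Adr (k : ℕ → ℕ) (a : List ℕ) : Prop := a = [] ∨ ∃ n l, l.length = k n ∧ a = n :: l

theorem red_of_noK4 [OmOne Ω] [Nonempty Ω] (hK : NoK4 B) :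
    ∃ (k : ℕ → ℕ) (f : List ℕ → Ω), (∀ n, n ≤ k n) ∧
      (∀ a c, Adr k a → Adr k c → prec a c → f a < f c) ∧
      ∀ a b c, Adr k a → Adr k b → Adr k c → prec a b → prec b c → ¬ B (f a) (f b) (f c) := by
  classical
  obtain ⟨N, hN⟩ := exists_fam B (RA B) (RB B) (RA_lt B)
  obtain ⟨h, m, w, hm, hl, htop⟩ := exists_top hK hN
  choose k hk U hU using htop
  let G : Node Ω → Prop := Her (GLoc B N h m)
  let ap : Option (Node Ω) → Ω := fun y => y.elim w apex
  let mv : Option (Node Ω) → ℕ → Ultrafilter (Node Ω) := fun y n => y.elim (U n) ch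
  let act : Option (Node Ω) → Prop := fun y => y.elim True fun a => 0 < a.rank
  let D : Option (Node Ω) → ℕ → Filter (Option (Node Ω)) := fun y n =>
    if act y then map some (mv y n) else ⊥
  let T : Option (Node Ω) → Prop := fun y => ∀ a, y = some a → G a
  have hD : ∀ y n (P : Option (Node Ω) → Prop),
      (act y → ∀ᶠ c in (mv y n : Filter (Node Ω)), P (some c)) → ∀ᶠ x in D y n, P x := by
    intro y n P hP
    by_cases hy : act y
    · simp only [D, if_pos hy]; exact hP hy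
    · simp only [D, if_neg hy]; exact eventually_bot
  have hT : ∀ y n, T y → act y → ∃ j, TopU B N h m (ap y) j (mv y n) := by
    rintro (_ | a) n h1 h2
    · exact ⟨_, hU n⟩
    · exact ⟨a.rank - 1, topU_of_good hN (h1 a rfl) (by have : 0 < a.rank := h2; omega)⟩
  have hTs : ∀ a, G a → T (some a) := fun a ha b hb => Option.some.inj hb ▸ ha
  have hG : ∀ a, G a → a ∈ N := fun a ha => ha.self.1.1
  let S : Sys (Option (Node Ω)) :=
    { D := D
      Fit := fun y σ => σ = y.elim (Shape.node fun n => sg (k n)) fun a => sg a.rank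
      R111 := fun x y z => ∃ a b, x = some a ∧ y = some b ∧ G a ∧ G b ∧ T z ∧ a.apex < b.apex ∧
        b.apex < ap z ∧ ¬ Win B a b (ap z)
      R21 := fun x z => ∃ a, x = some a ∧ G a ∧ T z ∧ a.apex < ap z ∧ J B a (ap z)
      R12 := fun x y => ∃ a, x = some a ∧ G a ∧ T y ∧ a.apex < ap y ∧ HitS B m a (ap y)
      R3 := T
      fit_ne := by
        intro y c n hy
        have : act y := by
          rcases y with _ | a
          · trivial
          · refine Nat.pos_of_ne_zero fun h0 => ?_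
            simp only [Option.elim, h0, sg] at hy
            cases hy
        simp only [D, if_pos this]
        exact map_neBot
      fit := by
        rintro (_ | a) c n _ hy
        · refine hD _ _ _ fun _ => (hU n).2.1.mono fun v hv => ?_
          simp only [Option.elim, Shape.node.injEq] at hy ⊢
          rw [hy, hv.1]
        · refine hD _ _ _ fun h0 => (rank_ch a h0).mono fun v hv => ?_
          simp only [Option.elim, ← hv, sg, Shape.node.injEq] at hy ⊢
          rw [hy]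
      h111a := by
        rintro _ _ z n ⟨a, b, rfl, rfl, h1, h2, h3, h4, h5, h6⟩
        refine hD _ _ _ fun h0 => ?_
        filter_upwards [h1.ch h0, hN.ch_mem a (hG a h1) h0, win_L h0 h6] with c e1 e2 e3
        exact ⟨c, b, rfl, rfl, e1, h2, h3, e2.2.trans h4, h5, e3⟩
      h111b := by
        rintro _ _ z n ⟨a, b, rfl, rfl, h1, h2, h3, h4, h5, h6⟩
        refine hD _ _ _ fun h0 => ?_
        obtain ⟨j, hj⟩ := hT _ n (hTs b h2) h0
        filter_upwards [hj.2.1, hj.gt (hG a h1) h4, win_M h0 h6] with c e1 e2 e3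
        exact ⟨a, c, rfl, rfl, h1, e1.2.1, h3, e2, e1.2.2.1.trans h5, e3⟩
      h111c := by
        rintro _ _ z n ⟨a, b, rfl, rfl, h1, h2, h3, h4, h5, h6⟩
        refine hD _ _ _ fun h0 => ?_
        obtain ⟨j, hj⟩ := hT _ n h3 h0
        filter_upwards [hj.2.1, hj.gt (hG b h2) h5,
          (hj.atom (hG a h1) (hG b h2) (h4.trans h5) h5 (RA_win B)).2 h6] with c e1 e2 e3
        exact ⟨a, b, rfl, rfl, h1, h2, hTs c e1.2.1, h4, e2, e3⟩
      h21 := by
        rintro _ z n ⟨a, rfl, h1, h2, h3, h4⟩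
        refine hD _ _ _ fun h0 => ?_
        filter_upwards [h1.ch h0, hN.ch_mem a (hG a h1) h0, h4.ch h0, win_A h0 fun ω hω h5 =>
          h4 _ ω hω le_rfl ((ev_desc_of_le le_rfl _).mpr h5)] with c e1 e2 e3 e4
        exact ⟨⟨c, a, rfl, rfl, e1, h1, h2, e2.2, h3, e4⟩, c, rfl, e1, h2, e2.2.trans h3, e3⟩
      h21c := by
        rintro _ z n ⟨a, rfl, h1, h2, h3, h4⟩
        refine hD _ _ _ fun h0 => ?_
        obtain ⟨j, hj⟩ := hT _ n h2 h0
        filter_upwards [hj.2.1, hj.gt (hG a h1) h3,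
          (hj.atom (hG a h1) (hG a h1) h3 h3 (RA_J B)).1 h4] with c e1 e2 e3
        exact ⟨a, rfl, h1, hTs c e1.2.1, e2, e3⟩
      h12a := by
        rintro _ z n ⟨a, rfl, h1, h2, h3, h4⟩
        refine hD _ _ _ fun h0 => ?_
        filter_upwards [h1.ch h0, hN.ch_mem a (hG a h1) h0, h4.ch h0] with c e1 e2 e3
        exact ⟨c, rfl, e1, h2, e2.2.trans h3, e3⟩
      h12 := by
        rintro _ z n ⟨a, rfl, h1, h2, h3, h4⟩
        refine hD _ _ _ fun h0 => ?_
        obtain ⟨j, hj⟩ := hT _ n h2 h0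
        filter_upwards [hj.2.1, hj.gt (hG a h1) h3, hj.notWin hK hN hm hl h1 h3 h4,
          (hj.atom hm (hG a h1) (h1.self.2.1.trans h3) h3 (RA_Hit B m.2)).1 h4] with c e1 e2 e3 e4
        exact ⟨⟨a, c, rfl, rfl, h1, e1.2.1, h2, e2, e1.2.2.1, e3⟩, a, rfl, h1, hTs c e1.2.1, e2, e4⟩
      h3 := by
        intro z n h1
        refine hD _ _ _ fun h0 => ?_
        obtain ⟨j, hj⟩ := hT _ n h1 h0
        filter_upwards [hj.2.1] with c e1
        exact ⟨⟨c, rfl, e1.2.1, h1, e1.2.2.1, e1.2.2.2.1⟩, ⟨c, rfl, e1.2.1, h1, e1.2.2.1, e1.2.2.2.2⟩,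
          hTs c e1.2.1⟩ }
  obtain ⟨g, hg1, hg2, hg3⟩ := S.select (Shape.node fun n => sg (k n)) none rfl
    (fun _ h => by cases h)
  have hv : ∀ a, Adr k a → ((Shape.node fun n => sg (k n)).sub a).isSome := by
    rintro a (rfl | ⟨n, l, h1, rfl⟩)
    · rfl
    · simp [Shape.sub, sg_sub _ l h1]
  have hz : ∀ a c x, Adr k a → prec a c → g a = some x → x.rank = 0 := by
    rintro a c x (rfl | ⟨n, l, h1, rfl⟩) hp hx
    · exact absurd hp (by simp [prec])
    · have := hg1 (n :: l) Shape.leaf (sg_sub _ l h1)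
      rw [hx] at this
      rcases hr : x.rank with _ | r
      · rfl
      · simp only [S, Option.elim, hr, sg] at this
        cases this
  refine ⟨k, fun a => ap (g a), hk, fun a c ha hc hac => ?_, fun a b c ha hb hc hab hbc => ?_⟩
  · obtain ⟨x, h1, -, -, h2, -⟩ := hg2 a c (hv a ha) (hv c hc) hac
    simp only [h1]
    exact h2
  · obtain ⟨x, y, h1, h2, -, -, -, -, -, h3⟩ := hg3 a b c (hv a ha) (hv b hb) (hv c hc) hab hbc
    simp only [h1, h2]
    exact win_leaf (hz a b x ha hab h1) (hz b c y hb hbc h2) h3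

end Pool.Agent.MP_71094f_lc.H37
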