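import Mathlib
import Pool.Agent.MP_71094f_lc.Clique

set_option autoImplicit false

/-!
The main selection in a good node of level three.
-/

namespace Pool.Agent.MP_71094f_lc

open Filter Set

variable {Ω : Type} [LinearOrder Ω] [hΩ : OmOne Ω] {B : Ω → Ω → Ω → Prop}

lemma B_faith {x z v : Ω} (l : Ty Ω) (hx : x < v) (hz : z < v) (h : B x z v) :
    ∀ᶠ y in (TU B l v : Filter Ω), B x z y := by
  have := TU_faith (B := B) (i := (true, (Sum.inl 0, x), (Sum.inl 0, z))) v (max_lt hx hz) l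
  simp only [TP_true, TU_zero, LM, Ultrafilter.coe_pure, eventually_pure] at this
  exact this.mono fun y hy => hy.mpr h

lemma Frame.mv_em (F : Frame Ω) (a : ℕ × Ω) (P : ℕ × Ω → Prop) :
    (∀ᶠ a' in F.Mv B a, P a') ∨ ∀ᶠ a' in F.Mv B a, ¬ P a' := by
  match a with
  | (0, _) => exact Or.inl eventually_bot
  | (1, w) => exact Ultrafilter.em (TU B (F.typ 1) w) fun x => P (0, x)
  | (_ + 2, w) => exact Ultrafilter.em (Dn B (F.n + 1) F.l2 w) fun x => P (1, x)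

lemma Frame.mv_neBot (F : Frame Ω) (a : ℕ × Ω) (h : 1 ≤ a.1) : (F.Mv B a).NeBot := by
  match a, h with
  | (1, w), _ => exact map_neBot
  | (_ + 2, w), _ => exact map_neBot

lemma Frame.mv_pure (F : Frame Ω) (a : ℕ × Ω) (h : a.1 ≤ 1) :
    ∀ᶠ a' in F.Mv B a, a.1 = 1 ∧ a'.1 = 0 ∧ F.W B a' = pure a'.2 := by
  filter_upwards [Frame.mv_rank (F := F) (B := B) a] with a' ha'
  obtain ⟨r, x⟩ := a'
  have h0 : r = 0 := by simp only at ha'; omega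
  subst h0
  exact ⟨by omega, rfl, F.W_zero x⟩

lemma cyclic (hK : K4Free B) (F : Frame Ω) (a : ℕ × Ω) (ha : F.Gd B a) (h1 : 1 ≤ a.1) :
    ∀ᶠ T in F.Mv B a, ∀ᶠ T' in F.Mv B a, ¬ LM B (F.W B T) (F.W B T') a.2 := by
  have := F.mv_neBot (B := B) a h1
  refine (F.mv_em a _).resolve_right fun h => ?_
  have h2 : ∀ᶠ T in F.Mv B a, ∀ᶠ T' in F.Mv B a, LM B (F.W B T) (F.W B T') a.2 :=
    h.mono fun T hT => (F.mv_em a _).resolve_right hT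
  obtain ⟨T1, a1, a2, a3⟩ := (h2.and ha.mv_gd).exists
  obtain ⟨T2, ⟨b1, b2, b3⟩, b4, b5⟩ := ((h2.and ha.mv_gd).and (a1.and (ha.mv_gt a3))).exists
  obtain ⟨T3, ⟨⟨c1, c2⟩, c3, c4⟩, c5, c6⟩ := (((a1.and b1).and ha.mv_gd).and
    ((ha.mv_gt b3).and (Frame.Gd.mv_LM a2 b2 ha a3 b3))).exists
  have c7 := c6.mpr b4
  obtain ⟨x1, ⟨d1, d2⟩, d3, d4⟩ := ((b4.and c1).and (c7.and (TU_le T1.2 _))).exists
  obtain ⟨x2, ⟨e1, e2⟩, ⟨e3, e4⟩, e5⟩ := ((d1.and d3).and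
    ((c2.and (TU_le T2.2 _)).and (TU_gt T2.2 b5 _))).exists
  have f0 := B_faith (F.typ T3.1) (d4.trans_lt (b5.trans c5)) (e4.trans_lt c5) e2
  obtain ⟨x3, ⟨f1, f2⟩, ⟨f3, f4⟩, f5⟩ := ((d2.and e3).and
    ((f0.and (TU_le T3.2 _)).and (TU_gt T3.2 c5 _))).exists
  exact hK x1 x2 x3 a.2 (d4.trans_lt e5) (e4.trans_lt f5) (f4.trans_lt c4) f3 e1 f1 f2

theorem main_frame (hK : K4Free B) (F : Frame Ω)
    (hσ : ∀ r, 1 ≤ r → ∃ n, F.typ r = Sum.inl (n + 1)) (w : Ω) (hw : F.Gd B (2, w))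
    (hA : ∀ᶠ T in F.Mv B (2, w), ¬ LM B (F.W B T) (F.W B T) w) : Red B := by
  have hs : ∀ a b, F.Gd B a → F.Gd B b → a.2 < b.2 →
      ∀ᶠ b' in F.Mv B b, ¬ ML B (F.W B a) (F.W B b') b.2 := by
    intro a b ha hb hab
    by_cases h : 1 ≤ b.1
    · obtain ⟨n, hn⟩ := hσ b.1 h
      have h1 := hb.1
      rw [hn] at h1
      have h2 := h1.not_ML (ha.key_lt hab)
      rw [← hn] at h2
      unfold ML at h2
      rw [← Ultrafilter.eventually_not] at h2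
      exact (hb.mv_W h2).mono fun b' hb' => Ultrafilter.eventually_not.mp hb'
    · filter_upwards [Frame.mv_rank (F := F) (B := B) b] with a' e3
      omega
  refine F.red
    (fun a b c => (F.Gd B a ∧ F.Gd B b ∧ F.Gd B c) ∧ (a.1 ≤ 1 ∧ b.1 ≤ 1) ∧
      (a.2 < b.2 ∧ b.2 < c.2) ∧ ¬ LM B (F.W B a) (F.W B b) c.2 ∧ ¬ ML B (F.W B a) (F.W B b) c.2)
    (fun a c => (F.Gd B a ∧ F.Gd B c) ∧ a.1 ≤ 1 ∧ a.2 < c.2 ∧
      (a.1 = 1 → ¬ LM B (F.W B a) (F.W B a) c.2))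
    (fun a b => (F.Gd B a ∧ F.Gd B b) ∧ a.1 ≤ 1 ∧ a.2 < b.2 ∧
      (2 ≤ b.1 → ∀ᶠ b' in F.Mv B b, ¬ LM B (F.W B a) (F.W B b') b.2))
    (fun a => F.Gd B a ∧ (2 ≤ a.1 → ∀ᶠ T in F.Mv B a, ¬ LM B (F.W B T) (F.W B T) a.2))
    ?_ ?_ ?_ ?_ ?_ ?_ ?_ ?_ w ⟨hw, fun _ => hA⟩ (fun a c h => h.2.2.1) ?_
  · rintro a b c ⟨⟨ha, hb, hc⟩, ⟨ra, rb⟩, ⟨hab, hbc⟩, h1, -⟩
    unfold LM at h1
    rw [← Ultrafilter.eventually_not] at h1
    filter_upwards [ha.mv_gd, F.mv_pure a ra, ha.mv_W h1] with a' e1 e2 e3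
    refine ⟨⟨e1.1, hb, hc⟩, ⟨by omega, rb⟩, ⟨e1.2.trans hab, hbc⟩, ?_, ?_⟩ <;>
    simpa [LM, ML, e2.2.2] using e3
  · rintro a b c ⟨⟨ha, hb, hc⟩, ⟨ra, rb⟩, ⟨hab, hbc⟩, -, h1⟩
    unfold ML at h1
    rw [← Ultrafilter.eventually_not] at h1
    filter_upwards [hb.mv_gd, F.mv_pure b rb, hb.mv_W h1, hb.mv_gt hab] with a' e1 e2 e3 e4
    refine ⟨⟨ha, e1.1, hc⟩, ⟨ra, by omega⟩, ⟨e4, e1.2.trans hbc⟩, ?_, ?_⟩ <;>
    simpa [LM, ML, e2.2.2] using e3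
  · rintro a b c ⟨⟨ha, hb, hc⟩, ⟨ra, rb⟩, ⟨hab, hbc⟩, h1, h2⟩
    filter_upwards [hc.mv_gd, hc.mv_gt hbc, Frame.Gd.mv_LM ha hb hc (hab.trans hbc) hbc,
      Frame.Gd.mv_ML ha hb hc (hab.trans hbc) hbc] with c' e1 e2 e3 e4
    exact ⟨⟨ha, hb, e1.1⟩, ⟨ra, rb⟩, ⟨hab, e2⟩, e3.not.mpr h1, e4.not.mpr h2⟩
  · rintro a c ⟨⟨ha, hc⟩, ra, hac, h1⟩
    by_cases h : a.1 = 1
    · have h2 := h1 h
      unfold LM at h2
      rw [← Ultrafilter.eventually_not] at h2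
      filter_upwards [ha.mv_gd, F.mv_pure a ra, ha.mv_W h2] with a' e1 e2 e3
      refine ⟨⟨⟨e1.1, ha, hc⟩, ⟨by omega, ra⟩, ⟨e1.2, hac⟩, ?_, ?_⟩,
        ⟨e1.1, hc⟩, by omega, e1.2.trans hac, fun h' => by omega⟩ <;>
      simpa [LM, ML, e2.2.2] using e3
    · filter_upwards [F.mv_pure (B := B) a ra] with a' e2
      exact absurd e2.1 h
  · rintro a c ⟨⟨ha, hc⟩, ra, hac, h1⟩
    filter_upwards [hc.mv_gd, hc.mv_gt hac, Frame.Gd.mv_LM ha ha hc hac hac] with c' e1 e2 e3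
    exact ⟨⟨ha, e1.1⟩, ra, e2, fun h => e3.not.mpr (h1 h)⟩
  · rintro a b ⟨⟨ha, hb⟩, ra, hab, -⟩
    filter_upwards [ha.mv_gd, F.mv_pure a ra] with a' e1 e2
    refine ⟨⟨e1.1, hb⟩, by omega, e1.2.trans hab, fun _ => ?_⟩
    refine (hs a' b e1.1 hb (e1.2.trans hab)).mono fun b' hb' => ?_
    simpa [LM, ML, e2.2.2] using hb'
  · rintro a b ⟨⟨ha, hb⟩, ra, hab, h1⟩
    have h2 : ∀ᶠ b' in F.Mv B b, ¬ LM B (F.W B a) (F.W B b') b.2 := by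
      by_cases h : 2 ≤ b.1
      · exact h1 h
      · filter_upwards [hs a b ha hb hab, F.mv_pure b (by omega)] with b' e1 e2
        simpa [LM, ML, e2.2.2] using e1
    filter_upwards [hb.mv_gd, hb.mv_gt hab, hs a b ha hb hab, h2,
      Frame.mv_rank (F := F) (B := B) b] with b' e1 e2 e3 e4 e5
    exact ⟨⟨⟨ha, e1.1, hb⟩, ⟨ra, by omega⟩, ⟨e2, e1.2⟩, e4, e3⟩,
      ⟨ha, e1.1⟩, ra, e2, fun h => by omega⟩
  · rintro a ⟨ha, h1⟩
    by_cases h : 2 ≤ a.1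
    · filter_upwards [ha.mv_gd, h1 h, cyclic hK F a ha (by omega),
        Frame.mv_rank (F := F) (B := B) a] with a' e1 e2 e3 e4
      exact ⟨⟨⟨e1.1, ha⟩, by omega, e1.2, fun _ => e3⟩, ⟨⟨e1.1, ha⟩, by omega, e1.2, fun _ => e2⟩,
        e1.1, fun h' => by omega⟩
    · filter_upwards [ha.mv_gd, Frame.mv_rank (F := F) (B := B) a] with a' e1 e4
      exact ⟨⟨⟨e1.1, ha⟩, by omega, e1.2, fun h' => absurd h' h⟩,
        ⟨⟨e1.1, ha⟩, by omega, e1.2, fun _ => by omega⟩, e1.1, fun h' => by omega⟩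
  · rintro x z c ⟨-, -, -, h1, -⟩
    simpa [LM, Frame.W_zero] using h1

lemma ch_iter_inl (k : ℕ) : ∀ m, ch^[k] (Sum.inl m : Ty Ω) = Sum.inl (m - k) := by
  induction k with
  | zero => intro m; rfl
  | succ k ih =>
    intro m
    rw [Function.iterate_succ_apply]
    refine (ih (m - 1)).trans ?_
    congr 1; omega

lemma deep_inl (m : ℕ) : Deep m (Sum.inl m : Ty Ω) := by
  intro k hk
  rw [ch_iter_inl]; simp; omega

/-- The frame between two good levels. -/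
def goodFrame (η : Ω) (k n : ℕ) : Frame Ω where
  l2 := Sum.inl (k + n + 2)
  n := n
  η := η
  deep := (deep_inl _).mono (by omega)
  hk := fun m => key_iter η m _ fun v => le_max_right _ _

lemma goodFrame_typ (η : Ω) (k n : ℕ) : (goodFrame η k n).typ 1 = Sum.inl (k + 1) := by
  refine (ch_iter_inl (n + 1) (k + n + 2)).trans ?_
  congr 1; omega

theorem red_of_levels (hK : K4Free B) (η : Ω) (k n : ℕ) (w : Ω) (hη : η < w)
    (hw : TG B (Sum.inl (k + n + 2)) w)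
    (hA : ∀ᶠ v in (Dn B (n + 1) (Sum.inl (k + n + 2)) w : Filter Ω),
      ¬ LM B (TU B (Sum.inl (k + 1)) v) (TU B (Sum.inl (k + 1)) v) w) : Red B := by
  refine main_frame hK (goodFrame η k n) ?_ w ⟨hw, hη⟩ ?_
  · intro r hr
    match r, hr with
    | 1, _ => exact ⟨k, goodFrame_typ η k n⟩
    | _ + 2, _ => exact ⟨k + n + 1, rfl⟩
  · simp only [Frame.Mv, eventually_map, Frame.W, goodFrame_typ]
    exact hA

theorem red_of_good (hK : K4Free B) (η w : Ω) (hη : η < w) (hw : TG B (Sum.inl 3) w) : Red B := by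
  by_contra hR
  have h1 : ∀ᶠ v in (Dn B 1 (Sum.inl 3) w : Filter Ω),
      LM B (TU B (Sum.inl 2) v) (TU B (Sum.inl 2) v) w := by
    by_contra h
    exact hR (red_of_levels hK η 1 0 w hη hw (Ultrafilter.eventually_not.mpr h))
  have h2 : ∀ᶠ v in (Dn B 2 (Sum.inl 3) w : Filter Ω),
      LM B (TU B (Sum.inl 1) v) (TU B (Sum.inl 1) v) w := by
    by_contra h
    exact hR (red_of_levels hK η 0 1 w hη hw (Ultrafilter.eventually_not.mpr h))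
  have h3 := (Dn_add 1 1 _ _ _).mp h2
  have d1 : Deep 1 (Sum.inl 3 : Ty Ω) := (deep_inl 3).mono (by omega)
  have d2 : Deep 1 (Sum.inl 2 : Ty Ω) := (deep_inl 2).mono (by omega)
  have hs := Dn_spec 1 _ w d1 hw
  obtain ⟨s, ⟨s1, s2⟩, ⟨s3, s4⟩, s5⟩ := ((h1.and h3).and
    ((hs.1.and (hs.2.1 η hη)).and (Dn_lt d1 hw))).exists
  have hsG : TG B (Sum.inl 2) s := s3.1
  have h4 : ∀ᶠ v in (Dn B 1 (Sum.inl 2) s : Filter Ω),
      LM B (TU B (Sum.inl 1) v) (TU B (Sum.inl 1) v) s := by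
    by_contra h
    exact hR (red_of_levels hK η 0 0 s s4 hsG (Ultrafilter.eventually_not.mpr h))
  have hs' := Dn_spec 1 _ s d2 hsG
  have h5 := (hs'.2.2.2 _).mp s1
  obtain ⟨T, ⟨t1, t2⟩, ⟨t3, t4⟩, t5⟩ := ((h4.and s2).and
    ((h5.and (Dn_lt d2 hsG)).and hs'.1)).exists
  have tG : TG B (Sum.inl 1) T := t5.1
  have t6 := TU_lt tG (by simp)
  obtain ⟨x1, ⟨a1, a2⟩, a3, a4⟩ := ((t1.and t2).and (t3.and t6)).exists
  obtain ⟨x2, ⟨b1, b2⟩, ⟨b3, b4⟩, b5⟩ := ((a1.and a2).and ((t3.and t6).and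
    (TU_gt T a4 _))).exists
  have c0 := B_faith (Sum.inl 2) (a4.trans t4) (b4.trans t4) b1
  obtain ⟨x3, ⟨c1, c2⟩, ⟨c3, c4⟩, c5⟩ := ((a3.and b3).and ((c0.and (TU_le s _)).and
    (TU_gt s (b4.trans t4) _))).exists
  exact hK x1 x2 x3 w b5 c5 (c4.trans_lt s5) c3 b2 c1 c2

theorem red_of_K4Free [Nonempty Ω] (hK : K4Free B) : Red B := by
  have := club_neBot (Ω := Ω)
  rcases good_or_fail (B := B) with h | ⟨η, j, hb, h⟩
  · obtain ⟨w, h1, h2⟩ := ((h 3).and (club_gt (Classical.arbitrary Ω))).exists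
    exact red_of_good hK _ w h2 h1
  · exact red_of_fail hK hb h

end Pool.Agent.MP_71094f_lc
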