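import Mathlib
import Pool.Agent.MP_71094f_lc.Main

set_option autoImplicit false

namespace Pool.Agent.Results.MP_71094f_lc.OmegaSq

open Pool.Agent.MP_71094f_lc

theorem result :
    ∀ α : Ordinal.{0}, α ≤ Ordinal.omega0 * Ordinal.omega0 + 1 →
      ∀ c : Ordinal.{0} → Ordinal.{0} → Ordinal.{0} → Bool,
        (∃ f : Ordinal.{0} → Ordinal.{0}, StrictMonoOn f (Set.Iio α) ∧
            (∀ β, β < α → f β < (Cardinal.aleph 1).ord) ∧
            ∀ β₁ β₂ β₃ : Ordinal.{0}, β₁ < β₂ → β₂ < β₃ → β₃ < α →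
              c (f β₁) (f β₂) (f β₃) = true) ∨
        (∃ a b d e : Ordinal.{0}, a < b ∧ b < d ∧ d < e ∧ e < (Cardinal.aleph 1).ord ∧
            c a b d = false ∧ c a b e = false ∧ c a d e = false ∧ c b d e = false) := by
  classical
  intro α hα c
  rw [or_iff_not_imp_right]
  intro hno
  let Ω := (Cardinal.aleph 1).ord.ToType
  have hΩ : OmOne Ω :=
    { wf := wellFounded_lt
      cnt := fun a => by
        have h1 : (Set.Iio a).Countable :=
          (Cardinal.countable_iff_lt_aleph_one _).mpr (Cardinal.mk_Iio_toType_ord_lt a)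
        rw [← Set.Iio_insert]
        exact h1.insert a
      unc := by
        rw [Cardinal.countable_iff_lt_aleph_one, Cardinal.mk_univ, Cardinal.mk_ord_toType]
        exact lt_irrefl _ }
  have hne : Nonempty Ω := by
    by_contra h
    rw [not_nonempty_iff] at h
    exact hΩ.unc (Set.to_countable _)
  let o : Ω → Ordinal.{0} := fun x => (Ordinal.ToType.mk.symm x : Set.Iio (Cardinal.aleph 1).ord)
  have ho : StrictMono o := fun x y hxy => Ordinal.ToType.mk.symm.strictMono hxy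
  have holt : ∀ x, o x < (Cardinal.aleph 1).ord := fun x => (Ordinal.ToType.mk.symm x).2
  let B : Ω → Ω → Ω → Prop := fun x y z => c (o x) (o y) (o z) = false
  have hK : K4Free B := fun a b d e h1 h2 h3 h4 h5 h6 h7 =>
    hno ⟨o a, o b, o d, o e, ho h1, ho h2, ho h3, holt e, h4, h5, h6, h7⟩
  obtain ⟨h, hm, hr⟩ := red_of_K4Free hK
  have hdec : ∀ β : Ordinal.{0}, ∃ p : ℕ × ℕ, β < Ordinal.omega0 * Ordinal.omega0 →
      β = Ordinal.omega0 * p.1 + p.2 := by
    intro β
    by_cases hβ : β < Ordinal.omega0 * Ordinal.omega0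
    · obtain ⟨i, hi⟩ := Ordinal.lt_omega0.mp
        ((Ordinal.lt_mul_iff_div_lt Ordinal.omega0_ne_zero).mp hβ)
      obtain ⟨j, hj⟩ := Ordinal.lt_omega0.mp (Ordinal.mod_lt β Ordinal.omega0_ne_zero)
      exact ⟨(i, j), fun _ => by rw [← hi, ← hj, Ordinal.div_add_mod]⟩
    · exact ⟨(0, 0), fun h => absurd h hβ⟩
  choose p hp using hdec
  let ad : Ordinal.{0} → List ℕ := fun β =>
    if β < Ordinal.omega0 * Ordinal.omega0 then [(p β).1, (p β).2] else []
  have hv : ∀ β, Val (ad β) := by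
    intro β
    by_cases hβ : β < Ordinal.omega0 * Ordinal.omega0
    · exact Or.inr ⟨_, _, if_pos hβ⟩
    · exact Or.inl (if_neg hβ)
  have hpr : ∀ β γ, β < γ → γ < α → prec (ad β) (ad γ) := by
    intro β γ hβγ hγ
    have hγ' : γ ≤ Ordinal.omega0 * Ordinal.omega0 := Order.lt_add_one_iff.mp (hγ.trans_le hα)
    have hβ : β < Ordinal.omega0 * Ordinal.omega0 := hβγ.trans_le hγ'
    have e1 : ad β = [(p β).1, (p β).2] := if_pos hβ
    by_cases h2 : γ < Ordinal.omega0 * Ordinal.omega0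
    · have e2 : ad γ = [(p γ).1, (p γ).2] := if_pos h2
      rw [e1, e2]
      have h3 := hβγ
      rw [hp β hβ, hp γ h2] at h3
      rcases lt_trichotomy (p β).1 (p γ).1 with h4 | h4 | h4
      · exact Or.inl h4
      · rw [h4] at h3
        have h5 : ((p β).2 : Ordinal.{0}) < (p γ).2 := lt_of_add_lt_add_left h3
        exact Or.inr ⟨h4, Or.inl (by exact_mod_cast h5)⟩
      · exfalso
        have h5 : Ordinal.omega0 * ((p γ).1 : Ordinal.{0}) + (p γ).2 <
            Ordinal.omega0 * (((p γ).1 + 1 : ℕ) : Ordinal.{0}) := by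
          rw [Nat.cast_succ, mul_add, mul_one]
          exact add_lt_add_right (Ordinal.natCast_lt_omega0 _) _
        have h6 : Ordinal.omega0 * (((p γ).1 + 1 : ℕ) : Ordinal.{0}) ≤
            Ordinal.omega0 * ((p β).1 : Ordinal.{0}) :=
          mul_le_mul_right (by exact_mod_cast h4) _
        exact lt_irrefl _ (h3.trans (h5.trans_le (h6.trans le_self_add)))
    · have e2 : ad γ = [] := if_neg h2
      rw [e1, e2]; trivial
  refine ⟨fun β => o (h (ad β)), fun β _ γ hγ hβγ => ho (hm _ _ (hv β) (hv γ) (hpr β γ hβγ hγ)),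
    fun β _ => holt _, fun β₁ β₂ β₃ h12 h23 h3 => ?_⟩
  have := hr _ _ _ (hv β₁) (hv β₂) (hv β₃) (hpr _ _ h12 (h23.trans h3)) (hpr _ _ h23 h3)
  simpa [B] using this

end Pool.Agent.Results.MP_71094f_lc.OmegaSq
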